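import Pool.Agent.TH369.AN.Defs

/-!
# Project AN: the lattice operators
-/

set_option autoImplicit false

open MeasureTheory
open scoped InnerProductSpace

namespace Pool.Agent.TH369.AN

variable {d : ℕ}

namespace OP

lemma summable_sq (u : L2 d) : Summable (fun x : Zd d => ‖(u : Zd d → ℂ) x‖ ^ 2) := by
  have h := (lp.memℓp u).summable (by simp)
  simpa using h

lemma norm_sq_eq (u : L2 d) : ‖u‖ ^ 2 = ∑' x : Zd d, ‖(u : Zd d → ℂ) x‖ ^ 2 := by
  have h := lp.norm_rpow_eq_tsum (p := 2) (by simp) u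
  simpa using h

lemma summable_W (σ : Zd d ≃ Zd d) (m : Zd d → ℂ) (B : ℝ) (hm : ∀ x, ‖m x‖ ≤ B) (u : L2 d) :
    Summable (fun x : Zd d => ‖m x * (u : Zd d → ℂ) (σ x)‖ ^ 2) := by
  have h1 : Summable (fun x : Zd d => B ^ 2 * ‖(u : Zd d → ℂ) (σ x)‖ ^ 2) :=
    ((summable_sq u).comp_injective σ.injective).mul_left _
  refine Summable.of_nonneg_of_le (fun x => by positivity) (fun x => ?_) h1
  rw [norm_mul, mul_pow]
  exact mul_le_mul_of_nonneg_right (pow_le_pow_left₀ (norm_nonneg _) (hm x) 2) (by positivity)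

lemma mem_W (σ : Zd d ≃ Zd d) (m : Zd d → ℂ) (B : ℝ) (hm : ∀ x, ‖m x‖ ≤ B) (u : L2 d) :
    Memℓp (fun x : Zd d => m x * (u : Zd d → ℂ) (σ x)) 2 := by
  refine memℓp_gen ?_
  have := summable_W σ m B hm u
  simpa using this

lemma exists_W (σ : Zd d ≃ Zd d) (m : Zd d → ℂ) (B : ℝ) (hB : 0 ≤ B) (hm : ∀ x, ‖m x‖ ≤ B) :
    ∃ T : L2 d →L[ℂ] L2 d, (∀ (u : L2 d) (x : Zd d), (T u : Zd d → ℂ) x = m x * (u : Zd d → ℂ) (σ x)) ∧
      ‖T‖ ≤ B := by
  let T0 : L2 d →ₗ[ℂ] L2 d :=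
    { toFun := fun u => ⟨fun x => m x * (u : Zd d → ℂ) (σ x), mem_W σ m B hm u⟩
      map_add' := by
        intro u v
        apply lp.ext
        funext x
        show m x * ((u : Zd d → ℂ) (σ x) + (v : Zd d → ℂ) (σ x)) = _
        rw [mul_add]
        rfl
      map_smul' := by
        intro c u
        apply lp.ext
        funext x
        show m x * (c * (u : Zd d → ℂ) (σ x)) = c * (m x * (u : Zd d → ℂ) (σ x))
        ring }
  have hT0 : ∀ (u : L2 d) (x : Zd d), (T0 u : Zd d → ℂ) x = m x * (u : Zd d → ℂ) (σ x) :=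
    fun u x => rfl
  have hb : ∀ u : L2 d, ‖T0 u‖ ≤ B * ‖u‖ := by
    intro u
    have h1 : ‖T0 u‖ ^ 2 ≤ (B * ‖u‖) ^ 2 := by
      rw [norm_sq_eq (T0 u), mul_pow, norm_sq_eq u]
      calc ∑' x, ‖(T0 u : Zd d → ℂ) x‖ ^ 2 ≤ ∑' x, B ^ 2 * ‖(u : Zd d → ℂ) (σ x)‖ ^ 2 := by
            refine Summable.tsum_le_tsum (fun x => ?_) (summable_W σ m B hm u)
              (((summable_sq u).comp_injective σ.injective).mul_left _)
            rw [hT0, norm_mul, mul_pow]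
            exact mul_le_mul_of_nonneg_right (pow_le_pow_left₀ (norm_nonneg _) (hm x) 2)
              (by positivity)
        _ = B ^ 2 * ∑' x, ‖(u : Zd d → ℂ) (σ x)‖ ^ 2 := tsum_mul_left
        _ = B ^ 2 * ∑' x, ‖(u : Zd d → ℂ) x‖ ^ 2 := by
            rw [σ.tsum_eq (fun x => ‖(u : Zd d → ℂ) x‖ ^ 2)]
    exact (pow_le_pow_iff_left₀ (norm_nonneg _) (by positivity) two_ne_zero).1 h1
  refine ⟨T0.mkContinuous B hb, fun u x => rfl, LinearMap.mkContinuous_norm_le _ hB _⟩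

/-- weighted composition operators -/
lemma inner_W (σ : Zd d ≃ Zd d) (m m' : Zd d → ℂ) (T T' : L2 d →L[ℂ] L2 d)
    (hT : ∀ (u : L2 d) (x : Zd d), (T u : Zd d → ℂ) x = m x * (u : Zd d → ℂ) (σ x))
    (hT' : ∀ (u : L2 d) (x : Zd d), (T' u : Zd d → ℂ) x = m' x * (u : Zd d → ℂ) (σ.symm x))
    (hm : ∀ x, m' (σ x) = (starRingEnd ℂ) (m x)) (u v : L2 d) :
    ⟪T u, v⟫_ℂ = ⟪u, T' v⟫_ℂ := by
  rw [lp.inner_eq_tsum, lp.inner_eq_tsum, ← σ.tsum_eq (fun x => ⟪(u : Zd d → ℂ) x, (T' v : Zd d → ℂ) x⟫_ℂ)]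
  refine tsum_congr fun x => ?_
  rw [hT, hT', hm, Equiv.symm_apply_apply, RCLike.inner_apply, RCLike.inner_apply, map_mul]
  ring

/-- the diagonal part -/
noncomputable def m0 (J : Finset (Zd d)) (c : ℝ) (ω : Zd d → ℝ) (x : Zd d) : ℂ :=
  if x ∈ J then 0 else (2 * d + (cl c (ω x) : ℂ))

/-- the hopping weight from `x` to `σ x` -/
noncomputable def m1 (J : Finset (Zd d)) (σ : Zd d ≃ Zd d) (x : Zd d) : ℂ :=
  if x ∈ J then 0 else if σ x ∈ J then 0 else 1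

lemma cl_abs (c x : ℝ) : |cl c x| ≤ |c| := by
  unfold cl
  rw [abs_le]
  constructor
  · exact (neg_abs_le_neg c).trans (le_max_left _ _)
  · exact max_le (neg_le_abs c) ((min_le_left _ _).trans (le_abs_self c))

lemma m0_norm (J : Finset (Zd d)) (c : ℝ) (ω : Zd d → ℝ) (x : Zd d) :
    ‖m0 J c ω x‖ ≤ 2 * d + |c| := by
  unfold m0
  split_ifs
  · rw [norm_zero]
    positivity
  · refine (norm_add_le _ _).trans ?_
    have h1 : ‖(2 * d : ℂ)‖ = 2 * d := by simp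
    have h2 : ‖(cl c (ω x) : ℂ)‖ ≤ |c| := by
      rw [Complex.norm_real]
      exact cl_abs _ _
    rw [h1]
    linarith

lemma m1_norm (J : Finset (Zd d)) (σ : Zd d ≃ Zd d) (x : Zd d) : ‖m1 J σ x‖ ≤ 1 := by
  unfold m1
  split_ifs <;> simp

/-- the operator as a finite sum of weighted composition operators -/
lemma exists_sum (J : Finset (Zd d)) (c : ℝ) (ω : Zd d → ℝ) :
    ∃ (D : L2 d →L[ℂ] L2 d) (P M : Fin d → L2 d →L[ℂ] L2 d),
      (∀ (u : L2 d) (x : Zd d), (D u : Zd d → ℂ) x = m0 J c ω x * (u : Zd d → ℂ) ((Equiv.refl _) x)) ∧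
      (∀ i (u : L2 d) (x : Zd d), (P i u : Zd d → ℂ) x =
        m1 J (Equiv.addRight (ee i)) x * (u : Zd d → ℂ) ((Equiv.addRight (ee i)) x)) ∧
      (∀ i (u : L2 d) (x : Zd d), (M i u : Zd d → ℂ) x =
        m1 J (Equiv.addRight (ee i)).symm x * (u : Zd d → ℂ) ((Equiv.addRight (ee i)).symm x)) ∧
      ‖D‖ ≤ 2 * d + |c| ∧ (∀ i, ‖P i‖ ≤ 1) ∧ (∀ i, ‖M i‖ ≤ 1) := by
  obtain ⟨D, hD, hDn⟩ := exists_W (Equiv.refl (Zd d)) (m0 J c ω) (2 * d + |c|) (by positivity)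
    (m0_norm J c ω)
  choose P hP hPn using fun i : Fin d => exists_W (Equiv.addRight (ee i)) (m1 J (Equiv.addRight (ee i)))
    1 zero_le_one (m1_norm J _)
  choose M hM hMn using fun i : Fin d => exists_W (Equiv.addRight (ee i)).symm
    (m1 J (Equiv.addRight (ee i)).symm) 1 zero_le_one (m1_norm J _)
  exact ⟨D, P, M, hD, hP, hM, hDn, hPn, hMn⟩

lemma coe_sum {ι : Type} (s : Finset ι) (f : ι → L2 d) (x : Zd d) :
    ((∑ i ∈ s, f i : L2 d) : Zd d → ℂ) x = ∑ i ∈ s, (f i : Zd d → ℂ) x := by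
  rw [lp.coeFn_sum, Finset.sum_apply]

lemma sum_apply (J : Finset (Zd d)) (c : ℝ) (ω : Zd d → ℝ) (D : L2 d →L[ℂ] L2 d)
    (P M : Fin d → L2 d →L[ℂ] L2 d)
    (hD : ∀ (u : L2 d) (x : Zd d), (D u : Zd d → ℂ) x = m0 J c ω x * (u : Zd d → ℂ) ((Equiv.refl _) x))
    (hP : ∀ i (u : L2 d) (x : Zd d), (P i u : Zd d → ℂ) x =
        m1 J (Equiv.addRight (ee i)) x * (u : Zd d → ℂ) ((Equiv.addRight (ee i)) x))
    (hM : ∀ i (u : L2 d) (x : Zd d), (M i u : Zd d → ℂ) x =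
        m1 J (Equiv.addRight (ee i)).symm x * (u : Zd d → ℂ) ((Equiv.addRight (ee i)).symm x))
    (u : L2 d) (x : Zd d) :
    ((D - ∑ i, (P i + M i)) u : Zd d → ℂ) x = act J c ω (fun y => u y) x := by
  have h1 : ((D - ∑ i, (P i + M i)) u : L2 d) = D u - ∑ i, (P i u + M i u) := by
    rw [_root_.sub_apply, _root_.sum_apply]
    rfl
  rw [h1, lp.coeFn_sub, Pi.sub_apply, coe_sum, hD]
  have h2 : ∀ i : Fin d, ((P i u + M i u : L2 d) : Zd d → ℂ) x =
      (if x ∈ J then 0 else ((if x + ee i ∈ J then 0 else (u : Zd d → ℂ) (x + ee i)) +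
        (if x - ee i ∈ J then 0 else (u : Zd d → ℂ) (x - ee i)))) := by
    intro i
    rw [lp.coeFn_add, Pi.add_apply, hP, hM]
    unfold m1
    have e1 : (Equiv.addRight (ee i)) x = x + ee i := rfl
    have e2 : (Equiv.addRight (ee i)).symm x = x - ee i := by
      rw [sub_eq_add_neg]
      rfl
    rw [e1, e2]
    split_ifs <;> simp
  simp only [h2]
  unfold act m0
  by_cases hx : x ∈ J
  · simp [hx]
  · simp [hx]

theorem exists_T (J : Finset (Zd d)) (c : ℝ) (ω : Zd d → ℝ) :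
    ∃ T : L2 d →L[ℂ] L2 d, ∀ u x, (T u : Zd d → ℂ) x = act J c ω (fun y => u y) x := by
  obtain ⟨D, P, M, hD, hP, hM, -, -, -⟩ := exists_sum J c ω
  exact ⟨D - ∑ i, (P i + M i), fun u x => sum_apply J c ω D P M hD hP hM u x⟩

end OP

open OP

theorem dl_apply (x y : Zd d) : (dl x : Zd d → ℂ) y = if y = x then 1 else 0 := by
  unfold dl
  rw [lp.single_apply, Pi.single_apply]

theorem inner_dl (x : Zd d) (u : L2 d) : ⟪dl x, u⟫_ℂ = u x := by
  unfold dl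
  rw [lp.inner_single_left]
  simp

theorem norm_dl (x : Zd d) : ‖dl x‖ = 1 := by
  unfold dl
  rw [lp.norm_single (by norm_num)]
  simp

theorem TT_apply (J : Finset (Zd d)) (c : ℝ) (ω : Zd d → ℝ) (u : L2 d) (x : Zd d) :
    (TT J c ω u : Zd d → ℂ) x = act J c ω (fun y => u y) x := by
  unfold TT
  rw [dif_pos (exists_T J c ω)]
  exact (exists_T J c ω).choose_spec u x

theorem OP.TT_eq (J : Finset (Zd d)) (c : ℝ) (ω : Zd d → ℝ) (T : L2 d →L[ℂ] L2 d)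
    (hT : ∀ u x, (T u : Zd d → ℂ) x = act J c ω (fun y => u y) x) : TT J c ω = T := by
  ext u x
  rw [TT_apply, hT]

theorem TT_sa (J : Finset (Zd d)) (c : ℝ) (ω : Zd d → ℝ) : IsSelfAdjoint (TT J c ω) := by
  obtain ⟨D, P, M, hD, hP, hM, -, -, -⟩ := exists_sum J c ω
  rw [OP.TT_eq J c ω _ (fun u x => sum_apply J c ω D P M hD hP hM u x),
    ContinuousLinearMap.isSelfAdjoint_iff_isSymmetric]
  intro u v
  have h1 : ∀ w : L2 d, ((D - ∑ i, (P i + M i)) w : L2 d) = D w - ∑ i, (P i w + M i w) := by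
    intro w
    rw [_root_.sub_apply, _root_.sum_apply]
    rfl
  have hDD : ⟪D u, v⟫_ℂ = ⟪u, D v⟫_ℂ := by
    refine inner_W (Equiv.refl _) (m0 J c ω) (m0 J c ω) D D hD hD (fun x => ?_) u v
    unfold m0
    rw [Equiv.refl_apply]
    split_ifs
    · simp
    · rw [map_add, map_mul, map_ofNat, map_natCast, Complex.conj_ofReal]
  have hPM : ∀ i, ⟪P i u, v⟫_ℂ = ⟪u, M i v⟫_ℂ := by
    intro i
    refine inner_W (Equiv.addRight (ee i)) _ _ (P i) (M i) (hP i) (hM i) (fun x => ?_) u v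
    unfold m1
    rw [Equiv.symm_apply_apply]
    split_ifs <;> simp
  have hMP : ∀ i, ⟪M i u, v⟫_ℂ = ⟪u, P i v⟫_ℂ := by
    intro i
    refine inner_W (Equiv.addRight (ee i)).symm _ _ (M i) (P i) (hM i) (hP i) (fun x => ?_) u v
    unfold m1
    rw [Equiv.apply_symm_apply]
    split_ifs <;> simp
  show ⟪(D - ∑ i, (P i + M i)) u, v⟫_ℂ = ⟪u, (D - ∑ i, (P i + M i)) v⟫_ℂ
  rw [h1, h1, inner_sub_left, inner_sub_right, sum_inner, inner_sum, hDD]
  congr 1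
  refine Finset.sum_congr rfl fun i _ => ?_
  rw [inner_add_left, inner_add_right, hPM, hMP, add_comm]

theorem TT_norm (J : Finset (Zd d)) (c : ℝ) (hc : 0 ≤ c) (ω : Zd d → ℝ) :
    ‖TT J c ω‖ ≤ 4 * d + c := by
  obtain ⟨D, P, M, hD, hP, hM, hDn, hPn, hMn⟩ := exists_sum J c ω
  rw [OP.TT_eq J c ω _ (fun u x => sum_apply J c ω D P M hD hP hM u x)]
  rw [abs_of_nonneg hc] at hDn
  have h1 : ‖∑ i, (P i + M i)‖ ≤ ∑ _i : Fin d, (2 : ℝ) := by
    refine (norm_sum_le _ _).trans (Finset.sum_le_sum fun i _ => ?_)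
    have := norm_add_le (P i) (M i)
    linarith [hPn i, hMn i]
  rw [Finset.sum_const, Finset.card_univ, Fintype.card_fin, nsmul_eq_mul] at h1
  have h2 := norm_sub_le D (∑ i, (P i + M i))
  linarith

end Pool.Agent.TH369.AN
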