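import Pool.Agent.TH369.AN.Defs

set_option autoImplicit false

/-!
# The uniform law
-/

open MeasureTheory
open scoped InnerProductSpace

namespace Pool.Agent.TH369.AN

theorem unif_prob (c : ℝ) (hc : 0 < c) : IsProbabilityMeasure (unif c) := by
  constructor
  unfold unif
  rw [Measure.smul_apply, Measure.restrict_apply_univ, Real.volume_Icc, smul_eq_mul,
    ← ENNReal.ofReal_mul (by positivity)]
  rw [show 1 / (2 * c) * (c - -c) = 1 by field_simp; ring, ENNReal.ofReal_one]

theorem unif_atom (c x : ℝ) : unif c {x} = 0 := by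
  unfold unif
  rw [Measure.smul_apply, Measure.restrict_apply (measurableSet_singleton x)]
  have h : volume ({x} ∩ Set.Icc (-c) c) = 0 :=
    measure_mono_null Set.inter_subset_left Real.volume_singleton
  rw [h, smul_zero]

theorem unif_supp (c : ℝ) : unif c (Set.Icc (-c) c)ᶜ = 0 := by
  unfold unif
  rw [Measure.smul_apply, Measure.restrict_apply measurableSet_Icc.compl, Set.compl_inter_self,
    measure_empty, smul_zero]

theorem unif_open (c : ℝ) (hc : 0 < c) (v δ : ℝ) (hv : v ∈ Set.Icc (-c) c) (hδ : 0 < δ) :
    0 < unif c (Set.Icc (v - δ) (v + δ)) := by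
  unfold unif
  rw [Measure.smul_apply, Measure.restrict_apply measurableSet_Icc, Set.Icc_inter_Icc,
    Real.volume_Icc, smul_eq_mul]
  refine ENNReal.mul_pos ?_ ?_
  · rw [Ne, ENNReal.ofReal_eq_zero, not_le]
    positivity
  · rw [Ne, ENNReal.ofReal_eq_zero, not_le, sub_pos]
    exact max_lt (lt_min (by linarith) (by linarith [hv.2])) (lt_min (by linarith [hv.1])
      (by linarith))

end Pool.Agent.TH369.AN
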