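import Pool.Agent.TH369.AN.Defs
import Pool.Agent.H12R2.And8

/-!
# Resolvents of bounded self-adjoint operators
(job AN-RES of helper369, written by helper576)
-/

set_option autoImplicit false

open MeasureTheory
open scoped InnerProductSpace

namespace Pool.Agent.TH369.AN

variable {X : Type} [NormedAddCommGroup X] [InnerProductSpace ℂ X] [CompleteSpace X]

theorem rz_eq (T : X →L[ℂ] X) (hT : IsSelfAdjoint T) (z : ℂ) (hz : z.im ≠ 0) (φ : X) :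
    T (Rz T z φ) - z • Rz T z φ = φ := Pool.Agent.H12R2.And.sub_Rz hT hz φ

theorem rz_uniq (T : X →L[ℂ] X) (hT : IsSelfAdjoint T) (z : ℂ) (hz : z.im ≠ 0) (w φ : X)
    (h : T w - z • w = φ) : w = Rz T z φ := by
  have h1 := Ring.inverse_mul_cancel _ (Pool.Agent.H12R2.And.isUnit_sub hT hz)
  have h2 := congrArg (fun A : X →L[ℂ] X => A w) h1
  have h3 : (T - z • (1 : X →L[ℂ] X)) w = φ := by
    rw [← h]
    simp
  simp only [ContinuousLinearMap.mul_apply, ContinuousLinearMap.one_apply] at h2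
  rw [h3] at h2
  exact h2.symm

theorem rz_norm (T : X →L[ℂ] X) (hT : IsSelfAdjoint T) (z : ℂ) (hz : z.im ≠ 0) (φ : X) :
    ‖Rz T z φ‖ ≤ ‖φ‖ / |z.im| := by
  have h : (inner ℂ φ (Rz T z φ)).im = z.im * ‖Rz T z φ‖ ^ 2 :=
    Pool.Agent.H12R2.And.im_inner hT hz φ
  obtain ⟨u, hu⟩ : ∃ u : X, u = Rz T z φ := ⟨_, rfl⟩
  rw [← hu] at h ⊢
  have hz0 : 0 < |z.im| := abs_pos.2 hz
  have h2 : |z.im| * ‖u‖ ^ 2 ≤ ‖φ‖ * ‖u‖ := by
    have h3 : |z.im * ‖u‖ ^ 2| = |z.im| * ‖u‖ ^ 2 := by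
      rw [abs_mul, abs_of_nonneg (by positivity : 0 ≤ ‖u‖ ^ 2)]
    rw [← h3, ← h]
    exact (Complex.abs_im_le_norm _).trans (norm_inner_le_norm _ _)
  rw [le_div_iff₀ hz0]
  rcases eq_or_lt_of_le (norm_nonneg u) with h0 | h0
  · rw [← h0, zero_mul]; exact norm_nonneg _
  · have h3 : ‖u‖ * |z.im| * ‖u‖ ≤ ‖φ‖ * ‖u‖ := by
      calc ‖u‖ * |z.im| * ‖u‖ = |z.im| * ‖u‖ ^ 2 := by ring
        _ ≤ _ := h2
    exact le_of_mul_le_mul_right h3 h0

theorem rz_diff (T : X →L[ℂ] X) (hT : IsSelfAdjoint T) (ψ φ : X) (z : ℂ) (hz : z.im ≠ 0) :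
    DifferentiableAt ℂ (fun w => ⟪ψ, Rz T w φ⟫_ℂ) z := by
  have h1 : DifferentiableAt ℂ (Rz T) z := Pool.Agent.H12R2.And.diff_Rz hT hz
  have h2 : DifferentiableAt ℂ (fun z => Rz T z φ) z :=
    h1.clm_apply (differentiableAt_const φ)
  exact ((innerSL ℂ ψ).differentiableAt).comp z h2

end Pool.Agent.TH369.AN
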