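import Pool.Agent.TH369.AN.Defs
import Pool.Agent.H54R3.Spec508

/-!
# The interval condition `KI` through the spectral measure
-/

set_option autoImplicit false

open MeasureTheory
open scoped InnerProductSpace

namespace Pool.Agent.TH369.AN

variable {X : Type} [NormedAddCommGroup X] [InnerProductSpace ℂ X] [CompleteSpace X]

namespace KM

lemma tent_cont (a b : ℝ) : Continuous (tent a b) := by
  unfold tent; fun_prop

lemma tent_pos_iff (a b x : ℝ) : 0 < tent a b x ↔ x ∈ Set.Ioo a b := by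
  unfold tent
  rw [lt_max_iff, Set.mem_Ioo, lt_min_iff]
  constructor
  · rintro (h | h)
    · exact absurd h (lt_irrefl _)
    · exact ⟨by linarith [h.1], by linarith [h.2]⟩
  · intro h
    exact Or.inr ⟨by linarith [h.1], by linarith [h.2]⟩

lemma tent_nonneg (a b x : ℝ) : 0 ≤ tent a b x := le_max_left _ _

/-- `‖f(T) φ‖² = ∫ f² dm` -/
lemma nsq (T : X →L[ℂ] X) (φ : X) (m : Measure ℝ)
    (hm : ∀ f : ℝ → ℝ, Continuous f →
      Integrable f m ∧ ((∫ x, f x ∂m : ℝ) : ℂ) = ⟪φ, cfc f T φ⟫_ℂ)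
    (f : ℝ → ℝ) (hf : Continuous f) : ∫ x, f x * f x ∂m = ‖cfc f T φ‖ ^ 2 := by
  have h0 := (hm (fun x => f x * f x) (hf.mul hf)).2
  rw [cfc_mul f f T hf.continuousOn hf.continuousOn] at h0
  have h1 := (ContinuousLinearMap.isSelfAdjoint_iff_isSymmetric.mp
    (Pool.Agent.H54R3.Spec508.cfc_sa T f))
  have h2 : ⟪cfc f T φ, cfc f T φ⟫_ℂ = ⟪φ, cfc f T (cfc f T φ)⟫_ℂ := h1 φ _
  have h3 : (cfc f T * cfc f T) φ = cfc f T (cfc f T φ) := rfl
  rw [h3, ← h2, inner_self_eq_norm_sq_to_K] at h0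
  have h4 : ((∫ x, f x * f x ∂m : ℝ) : ℂ) = ((‖cfc f T φ‖ ^ 2 : ℝ) : ℂ) := by
    rw [h0]
    push_cast
    rfl
  exact Complex.ofReal_injective h4

end KM

theorem ki_iff (T : X →L[ℂ] X) (hT : IsSelfAdjoint T) (a b : ℝ) (φ : X) (m : Measure ℝ)
    [IsFiniteMeasure m]
    (hm : ∀ f : ℝ → ℝ, Continuous f →
      Integrable f m ∧ ((∫ x, f x ∂m : ℝ) : ℂ) = ⟪φ, cfc f T φ⟫_ℂ) :
    KI a b T φ ↔ m (Set.Ioo a b) = 0 := by
  have hc := KM.tent_cont a b
  have h1 := KM.nsq T φ m hm (tent a b) hc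
  have hi : Integrable (fun x => tent a b x * tent a b x) m := (hm _ (hc.mul hc)).1
  have hn : 0 ≤ fun x => tent a b x * tent a b x := fun x =>
    mul_nonneg (KM.tent_nonneg a b x) (KM.tent_nonneg a b x)
  have h2 : (∫ x, tent a b x * tent a b x ∂m = 0) ↔ m (Set.Ioo a b) = 0 := by
    rw [integral_eq_zero_iff_of_nonneg hn hi, Filter.EventuallyEq, ae_iff]
    have : {x | ¬ (tent a b x * tent a b x = (0 : ℝ → ℝ) x)} = Set.Ioo a b := by
      ext x
      rw [← KM.tent_pos_iff a b x]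
      change ¬ (tent a b x * tent a b x = 0) ↔ _
      rw [mul_self_eq_zero]
      constructor
      · intro h
        exact lt_of_le_of_ne (KM.tent_nonneg a b x) (Ne.symm h)
      · intro h
        exact h.ne'
    rw [this]
  rw [← h2, h1]
  unfold KI
  constructor
  · intro h
    rw [h]; simp
  · intro h
    exact norm_eq_zero.mp (pow_eq_zero_iff (two_ne_zero)|>.mp h)

theorem ki_mono (T : X →L[ℂ] X) (hT : IsSelfAdjoint T) (a b a' b' : ℝ) (ha : a ≤ a')
    (hb : b' ≤ b) (φ : X) (h : KI a b T φ) : KI a' b' T φ := by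
  have hm := fun f hf => Pool.Agent.H54R3.Spec508.key2 T φ f hf
  rw [ki_iff T hT a b φ (Pool.Agent.H54R3.Spec508.mu T φ) hm] at h
  rw [ki_iff T hT a' b' φ (Pool.Agent.H54R3.Spec508.mu T φ) hm]
  exact measure_mono_null (Set.Ioo_subset_Ioo ha hb) h

theorem gap (T : X →L[ℂ] X) (hT : IsSelfAdjoint T) (a b E : ℝ) (h1 : a < E) (h2 : E < b)
    (φ : X) (h : KI a b T φ) :
    min (E - a) (b - E) * ‖φ‖ ≤ ‖T φ - (E : ℂ) • φ‖ := by
  have hm := fun f hf => Pool.Agent.H54R3.Spec508.key2 T φ f hf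
  rw [ki_iff T hT a b φ (Pool.Agent.H54R3.Spec508.mu T φ) hm] at h
  set m := Pool.Agent.H54R3.Spec508.mu T φ with hmd
  have hc : Continuous (fun x : ℝ => x - E) := by fun_prop
  have e1 := KM.nsq T φ m hm (fun x : ℝ => x - E) hc
  have e2 := KM.nsq T φ m hm (fun _ : ℝ => (1 : ℝ)) continuous_const
  have e3 : cfc (fun x : ℝ => x - E) T φ = T φ - (E : ℂ) • φ := by
    rw [cfc_sub (fun x : ℝ => x) (fun _ => E) T (by fun_prop) (by fun_prop), cfc_id' ℝ T,
      cfc_const E T]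
    rw [sub_apply, Algebra.algebraMap_eq_smul_one, smul_apply, one_apply_eq_self,
      RCLike.real_smul_eq_coe_smul (K := ℂ)]
    rfl
  have e4 : cfc (fun _ : ℝ => (1 : ℝ)) T φ = φ := by
    rw [cfc_const_one ℝ T]
    rfl
  rw [e3] at e1
  rw [e4] at e2
  set c : ℝ := min (E - a) (b - E) with hcd
  have hcpos : 0 < c := lt_min (by linarith) (by linarith)
  have hi1 : Integrable (fun x : ℝ => (x - E) * (x - E)) m := (hm _ (hc.mul hc)).1
  have hae : ∀ᵐ x ∂m, c ^ 2 * ((1 : ℝ) * 1) ≤ (x - E) * (x - E) := by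
    rw [ae_iff]
    refine measure_mono_null ?_ h
    intro x hx
    by_contra hcon
    apply hx
    have hx2 : x ≤ a ∨ b ≤ x := by
      by_contra hc2
      push Not at hc2
      exact hcon ⟨hc2.1, hc2.2⟩
    have hca : c ≤ E - a := min_le_left _ _
    have hcb : c ≤ b - E := min_le_right _ _
    rcases hx2 with h3 | h3
    · nlinarith
    · nlinarith
  have h5 : ∫ _x : ℝ, c ^ 2 * ((1 : ℝ) * 1) ∂m ≤ ∫ x : ℝ, (x - E) * (x - E) ∂m :=
    integral_mono_ae (integrable_const _) hi1 hae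
  rw [integral_const_mul, e1, e2] at h5
  have h6 : (c * ‖φ‖) ^ 2 ≤ ‖T φ - (E : ℂ) • φ‖ ^ 2 := by
    rw [mul_pow]; exact h5
  exact le_of_sq_le_sq h6 (norm_nonneg _)

end Pool.Agent.TH369.AN
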