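import Pool.Agent.TH369.AN.Defs
import Pool.Agent.TH369.AN.RES

/-!
# The spectral measure and the resolvent
(job AN-SB of helper369, written by helper148)
-/

set_option autoImplicit false

open MeasureTheory
open scoped InnerProductSpace

namespace Pool.Agent.TH369.AN

variable {X : Type} [NormedAddCommGroup X] [InnerProductSpace ℂ X] [CompleteSpace X]

namespace SB

/-- real part of `1 / (x - p - i q)` -/
private noncomputable def f1 (p q x : ℝ) : ℝ := (x - p) / ((x - p) ^ 2 + q ^ 2)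

/-- imaginary part of `1 / (x - p - i q)` -/
private noncomputable def f2 (p q x : ℝ) : ℝ := q / ((x - p) ^ 2 + q ^ 2)

private theorem den_pos {q : ℝ} (hq : q ≠ 0) (p x : ℝ) : 0 < (x - p) ^ 2 + q ^ 2 := by
  positivity

private theorem f1_cont {q : ℝ} (hq : q ≠ 0) (p : ℝ) : Continuous (f1 p q) := by
  unfold f1
  exact Continuous.div (by fun_prop) (by fun_prop) fun x => (den_pos hq p x).ne'

private theorem f2_cont {q : ℝ} (hq : q ≠ 0) (p : ℝ) : Continuous (f2 p q) := by
  unfold f2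
  exact Continuous.div (by fun_prop) (by fun_prop) fun x => (den_pos hq p x).ne'

private theorem rel1 {q : ℝ} (hq : q ≠ 0) (p x : ℝ) : (x - p) * f1 p q x + q * f2 p q x = 1 := by
  have h := den_pos hq p x
  unfold f1 f2
  field_simp

private theorem rel2 {q : ℝ} (hq : q ≠ 0) (p x : ℝ) : (x - p) * f2 p q x - q * f1 p q x = 0 := by
  have h := den_pos hq p x
  unfold f1 f2
  field_simp
  ring

private theorem inv_eq (z : ℂ) (hz : z.im ≠ 0) (x : ℝ) :
    ((x : ℂ) - z)⁻¹ = (f1 z.re z.im x : ℂ) + Complex.I * (f2 z.re z.im x : ℂ) := by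
  have h1 := rel1 hz z.re x
  have h2 := rel2 hz z.re x
  generalize f1 z.re z.im x = a at h1 h2 ⊢
  generalize f2 z.re z.im x = b at h1 h2 ⊢
  refine (eq_inv_of_mul_eq_one_left ?_).symm
  apply Complex.ext
  · simp
    linarith
  · simp
    linarith

private theorem mul_cfc (T : X →L[ℂ] X) (hT : IsSelfAdjoint T) {f : ℝ → ℝ} (hf : Continuous f) :
    T * cfc f T = cfc (fun x => x * f x) T := by
  have h := cfc_mul (fun x : ℝ => x) f T (continuous_id.continuousOn) hf.continuousOn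
  rw [cfc_id' ℝ T] at h
  exact h.symm

private theorem eq1 (T : X →L[ℂ] X) (hT : IsSelfAdjoint T) {q : ℝ} (hq : q ≠ 0) (p : ℝ) :
    T * cfc (f1 p q) T - (p : ℂ) • cfc (f1 p q) T + (q : ℂ) • cfc (f2 p q) T = 1 := by
  have c1 := f1_cont hq p
  have c2 := f2_cont hq p
  have c3 : Continuous fun x => x * f1 p q x := continuous_id.mul c1
  rw [mul_cfc T hT c1]
  have e1 : (p : ℂ) • cfc (f1 p q) T = cfc (fun x => p * f1 p q x) T := by
    rw [cfc_const_mul p (f1 p q) T c1.continuousOn]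
    exact (Complex.coe_smul p _)
  have e2 : (q : ℂ) • cfc (f2 p q) T = cfc (fun x => q * f2 p q x) T := by
    rw [cfc_const_mul q (f2 p q) T c2.continuousOn]
    exact (Complex.coe_smul q _)
  rw [e1, e2, ← cfc_sub (fun x => x * f1 p q x) (fun x => p * f1 p q x) T c3.continuousOn
    (continuous_const.mul c1).continuousOn, ← cfc_add T (fun x => x * f1 p q x - p * f1 p q x)
    (fun x => q * f2 p q x) (c3.sub (continuous_const.mul c1)).continuousOn
    (continuous_const.mul c2).continuousOn]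
  have e3 : (fun x => x * f1 p q x - p * f1 p q x + q * f2 p q x) = fun _ => (1 : ℝ) := by
    funext x
    linarith [rel1 hq p x]
  rw [e3]
  exact cfc_const_one ℝ T

private theorem eq2 (T : X →L[ℂ] X) (hT : IsSelfAdjoint T) {q : ℝ} (hq : q ≠ 0) (p : ℝ) :
    T * cfc (f2 p q) T - (p : ℂ) • cfc (f2 p q) T - (q : ℂ) • cfc (f1 p q) T = 0 := by
  have c1 := f1_cont hq p
  have c2 := f2_cont hq p
  have c3 : Continuous fun x => x * f2 p q x := continuous_id.mul c2
  rw [mul_cfc T hT c2]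
  have e1 : (p : ℂ) • cfc (f2 p q) T = cfc (fun x => p * f2 p q x) T := by
    rw [cfc_const_mul p (f2 p q) T c2.continuousOn]
    exact (Complex.coe_smul p _)
  have e2 : (q : ℂ) • cfc (f1 p q) T = cfc (fun x => q * f1 p q x) T := by
    rw [cfc_const_mul q (f1 p q) T c1.continuousOn]
    exact (Complex.coe_smul q _)
  rw [e1, e2, ← cfc_sub (fun x => x * f2 p q x) (fun x => p * f2 p q x) T c3.continuousOn
    (continuous_const.mul c2).continuousOn, ← cfc_sub (fun x => x * f2 p q x - p * f2 p q x)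
    (fun x => q * f1 p q x) T (c3.sub (continuous_const.mul c2)).continuousOn
    (continuous_const.mul c1).continuousOn]
  have e3 : (fun x => x * f2 p q x - p * f2 p q x - q * f1 p q x) = fun _ => (0 : ℝ) := by
    funext x
    linarith [rel2 hq p x]
  rw [e3]
  exact cfc_const_zero ℝ T

end SB

theorem spec_borel (T : X →L[ℂ] X) (hT : IsSelfAdjoint T) (φ : X) (m : Measure ℝ)
    [IsFiniteMeasure m]
    (hm : ∀ f : ℝ → ℝ, Continuous f →
      Integrable f m ∧ ((∫ x, f x ∂m : ℝ) : ℂ) = ⟪φ, cfc f T φ⟫_ℂ) (z : ℂ) (hz : z.im ≠ 0) :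
    ⟪φ, Rz T z φ⟫_ℂ = ∫ x : ℝ, ((x : ℂ) - z)⁻¹ ∂m := by
  obtain ⟨i1, h1⟩ := hm _ (SB.f1_cont hz z.re)
  obtain ⟨i2, h2⟩ := hm _ (SB.f2_cont hz z.re)
  have k1 : T (cfc (SB.f1 z.re z.im) T φ) - (z.re : ℂ) • cfc (SB.f1 z.re z.im) T φ +
      (z.im : ℂ) • cfc (SB.f2 z.re z.im) T φ = φ :=
    congrArg (fun A : X →L[ℂ] X => A φ) (SB.eq1 T hT hz z.re)
  have k2 : T (cfc (SB.f2 z.re z.im) T φ) - (z.re : ℂ) • cfc (SB.f2 z.re z.im) T φ -
      (z.im : ℂ) • cfc (SB.f1 z.re z.im) T φ = 0 :=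
    congrArg (fun A : X →L[ℂ] X => A φ) (SB.eq2 T hT hz z.re)
  have hR : cfc (SB.f1 z.re z.im) T φ + Complex.I • cfc (SB.f2 z.re z.im) T φ = Rz T z φ := by
    refine rz_uniq T hT z hz _ φ ?_
    generalize cfc (SB.f1 z.re z.im) T φ = u at k1 k2 ⊢
    generalize cfc (SB.f2 z.re z.im) T φ = w at k1 k2 ⊢
    have hzz : z = (z.re : ℂ) + (z.im : ℂ) * Complex.I := (Complex.re_add_im z).symm
    rw [map_add, map_smul]
    have e : T u + Complex.I • T w - z • (u + Complex.I • w) =
        (T u - (z.re : ℂ) • u + (z.im : ℂ) • w) +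
          Complex.I • (T w - (z.re : ℂ) • w - (z.im : ℂ) • u) := by
      have hI : (Complex.I * Complex.I + 1) • w = 0 := by
        rw [Complex.I_mul_I, neg_add_cancel, zero_smul]
      conv_lhs => rw [hzz]
      linear_combination (norm := module) (-(z.im : ℂ)) • hI
    rw [e, k1, k2, smul_zero, add_zero]
  rw [← hR, inner_add_right, inner_smul_right, ← h1, ← h2]
  have e : (fun x : ℝ => ((x : ℂ) - z)⁻¹) = fun x : ℝ =>
      (SB.f1 z.re z.im x : ℂ) + Complex.I * (SB.f2 z.re z.im x : ℂ) := by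
    funext x
    exact SB.inv_eq z hz x
  rw [e, integral_add i1.ofReal (i2.ofReal.const_mul _), integral_const_mul]
  rw [integral_complex_ofReal, integral_complex_ofReal]

end Pool.Agent.TH369.AN
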