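import Pool.Agent.TH369.AN.Defs
import Pool.Agent.TH369.AN.OP

/-!
# Measurability of functions of the operator (job 3677 of helper369, written by helper615)
-/

set_option autoImplicit false

open MeasureTheory Filter Topology
open scoped InnerProductSpace

namespace Pool.Agent.TH369.AN

variable {d : ℕ}

namespace MEAS

/-- the entries of the operator applied to a measurable family -/
theorem meas_act (J : Finset (Zd d)) (c : ℝ) (u : (Zd d → ℝ) → L2 d)
    (hu : ∀ x, Measurable fun ω => (u ω : Zd d → ℂ) x) (x : Zd d) :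
    Measurable fun ω => (TT J c ω (u ω) : Zd d → ℂ) x := by
  simp only [TT_apply]
  unfold act
  by_cases hx : x ∈ J
  · simp only [hx, if_true]
    exact measurable_const
  · simp only [hx, if_false]
    have h1 : Measurable fun ω : Zd d → ℝ => ((cl c (ω x) : ℝ) : ℂ) := by
      apply Complex.measurable_ofReal.comp
      unfold cl
      exact measurable_const.max (measurable_const.min (measurable_pi_apply x))
    refine ((measurable_const.add h1).mul (hu x)).sub ?_
    refine Finset.measurable_sum _ fun i _ => ?_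
    refine Measurable.add ?_ ?_
    · by_cases h : x + ee i ∈ J
      · simp only [h, if_true]
        exact measurable_const
      · simp only [h, if_false]
        exact hu _
    · by_cases h : x - ee i ∈ J
      · simp only [h, if_true]
        exact measurable_const
      · simp only [h, if_false]
        exact hu _

theorem meas_pow (J : Finset (Zd d)) (c : ℝ) (v : L2 d) (k : ℕ) :
    ∀ x, Measurable fun ω : Zd d → ℝ => (((TT J c ω) ^ k) v : Zd d → ℂ) x := by
  induction k with
  | zero =>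
    intro x
    simp only [pow_zero, one_apply_eq_self]
    exact measurable_const
  | succ k ih =>
    intro x
    have h := meas_act J c (fun ω => ((TT J c ω) ^ k) v) ih x
    have e : (fun ω : Zd d → ℝ => (((TT J c ω) ^ (k + 1)) v : Zd d → ℂ) x) =
        fun ω => (TT J c ω (((TT J c ω) ^ k) v) : Zd d → ℂ) x := by
      funext ω
      rw [pow_succ']
      rfl
    rw [e]
    exact h

/-- a polynomial of the operator -/
noncomputable def pol {X : Type} [NormedAddCommGroup X] [InnerProductSpace ℂ X]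
    (p : Polynomial ℝ) (T : X →L[ℂ] X) : X →L[ℂ] X :=
  ∑ i ∈ Finset.range (p.natDegree + 1), ((p.coeff i : ℝ) : ℂ) • T ^ i

theorem meas_poly (J : Finset (Zd d)) (c : ℝ) (p : Polynomial ℝ) (x y : Zd d) :
    Measurable fun ω : Zd d → ℝ => ⟪dl x, (pol p (TT J c ω)) (dl y)⟫_ℂ := by
  have e : (fun ω : Zd d → ℝ => ⟪dl x, (pol p (TT J c ω)) (dl y)⟫_ℂ) =
      fun ω => ∑ i ∈ Finset.range (p.natDegree + 1),
        ((p.coeff i : ℝ) : ℂ) * (((TT J c ω) ^ i) (dl y) : Zd d → ℂ) x := by
    funext ω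
    unfold pol
    rw [sum_apply, inner_sum]
    refine Finset.sum_congr rfl fun i _ => ?_
    rw [← inner_dl, smul_apply, inner_smul_right]
  rw [e]
  exact Finset.measurable_sum _ fun i _ => measurable_const.mul (meas_pow J c (dl y) i x)

section abs

variable {X : Type} [NormedAddCommGroup X] [InnerProductSpace ℂ X] [CompleteSpace X]

theorem spec_le (T : X →L[ℂ] X) {M : ℝ} (hM : ‖T‖ ≤ M) {x : ℝ} (hx : x ∈ spectrum ℝ T) :
    x ∈ Set.Icc (-M) M := by
  have h1 := spectrum.norm_le_norm_mul_of_mem hx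
  have h2 : ‖(1 : X →L[ℂ] X)‖ ≤ 1 := ContinuousLinearMap.norm_id_le
  have h3 : ‖T‖ * ‖(1 : X →L[ℂ] X)‖ ≤ ‖T‖ := mul_le_of_le_one_right (norm_nonneg _) h2
  have h4 : |x| ≤ M := by
    rw [← Real.norm_eq_abs]
    linarith
  exact abs_le.1 h4

theorem near (T : X →L[ℂ] X) (hT : IsSelfAdjoint T) {M : ℝ} (hM : ‖T‖ ≤ M) (f : ℝ → ℝ)
    (hf : Continuous f) {ε : ℝ} (hε : 0 ≤ ε) (p : Polynomial ℝ)
    (hp : ∀ x ∈ Set.Icc (-M) M, |p.eval x - f x| ≤ ε) :
    ‖pol p T - fc f T‖ ≤ ε := by
  have h0 : pol p T = Polynomial.aeval T p := by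
    unfold pol
    rw [Polynomial.aeval_eq_sum_range]
    refine Finset.sum_congr rfl fun i _ => ?_
    rw [Complex.coe_smul]
  have h1 : Polynomial.aeval T p = cfc p.eval T := (cfc_polynomial p T).symm
  unfold fc
  rw [h0, h1, ← cfc_sub p.eval f T (by fun_prop) (by fun_prop)]
  refine norm_cfc_le hε fun x hx => ?_
  rw [Real.norm_eq_abs]
  exact hp x (spec_le T hM hx)

end abs

end MEAS

open MEAS

theorem meas_entry (J : Finset (Zd d)) (c : ℝ) (hc : 0 ≤ c) (f : ℝ → ℝ) (hf : Continuous f)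
    (x y : Zd d) :
    Measurable fun ω : Zd d → ℝ => ⟪dl x, fc f (TT J c ω) (dl y)⟫_ℂ := by
  obtain ⟨M, hM⟩ : ∃ M : ℝ, M = 4 * d + c := ⟨_, rfl⟩
  have hp : ∀ n : ℕ, ∃ p : Polynomial ℝ, ∀ x ∈ Set.Icc (-M) M,
      |p.eval x - f x| < 1 / ((n : ℝ) + 1) := fun n =>
    exists_polynomial_near_of_continuousOn (-M) M f hf.continuousOn _ (by positivity)
  choose p hp using hp
  refine measurable_of_tendsto_metrizable (fun n => meas_poly J c (p n) x y) ?_
  rw [tendsto_pi_nhds]
  intro ω
  rw [tendsto_iff_norm_sub_tendsto_zero]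
  have h0 : Tendsto (fun n : ℕ => 1 / ((n : ℝ) + 1)) atTop (𝓝 0) :=
    tendsto_one_div_add_atTop_nhds_zero_nat
  refine squeeze_zero (fun n => norm_nonneg _) (fun n => ?_) h0
  rw [← inner_sub_right]
  have h1 := near (TT J c ω) (TT_sa J c ω) (M := M) (by rw [hM]; exact TT_norm J c hc ω) f hf
    (ε := 1 / ((n : ℝ) + 1)) (by positivity) (p n) (fun z hz => (hp n z hz).le)
  refine (norm_inner_le_norm _ _).trans ?_
  rw [norm_dl, one_mul]
  have h2 : (pol (p n) (TT J c ω)) (dl y) - fc f (TT J c ω) (dl y) =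
      (pol (p n) (TT J c ω) - fc f (TT J c ω)) (dl y) := rfl
  rw [h2]
  refine (ContinuousLinearMap.le_opNorm _ _).trans ?_
  rw [norm_dl, mul_one]
  exact h1

end Pool.Agent.TH369.AN
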