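import Pool.Agent.TH369.AN.Defs
import Pool.Agent.TH369.AN.OP
import Pool.Agent.TH369.AN.MEAS

/-! AN-BAD: measurability of `Bad`. -/

set_option autoImplicit false
open MeasureTheory
open scoped InnerProductSpace
namespace Pool.Agent.TH369.AN
variable {d : ℕ}

namespace BAD

lemma tent_cont (a b : ℝ) : Continuous (tent a b) := by
  unfold tent
  fun_prop

section abs
variable {X : Type} [NormedAddCommGroup X] [InnerProductSpace ℂ X] [CompleteSpace X]

lemma sq_inner (T : X →L[ℂ] X) (a b : ℝ) (φ ψ : X) :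
    ⟪φ, fc (fun t => tent a b t * tent a b t) T ψ⟫_ℂ =
      ⟪fc (tent a b) T φ, fc (tent a b) T ψ⟫_ℂ := by
  have hc := (tent_cont a b).continuousOn (s := spectrum ℝ T)
  have h1 : fc (fun t => tent a b t * tent a b t) T = cfc (tent a b) T * cfc (tent a b) T := by
    unfold fc
    exact cfc_mul (tent a b) (tent a b) T hc hc
  have h2 : IsSelfAdjoint (cfc (tent a b) T) := cfc_predicate (tent a b) T
  rw [h1, ContinuousLinearMap.mul_apply]
  rw [← ContinuousLinearMap.adjoint_inner_left, ← ContinuousLinearMap.star_eq_adjoint, h2.star_eq]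
  rfl

lemma ki_fc (T : X →L[ℂ] X) (a b : ℝ) (φ : X) : KI a b T φ ↔ fc (tent a b) T φ = 0 := Iff.rfl

end abs

lemma coe_sum' (s : Finset (Zd d)) (g : Zd d → L2 d) (z : Zd d) :
    (((∑ y ∈ s, g y : L2 d)) : Zd d → ℂ) z = ∑ y ∈ s, (g y : Zd d → ℂ) z := by
  classical
  induction s using Finset.induction_on with
  | empty => simp
  | insert a s ha ih =>
    rw [Finset.sum_insert ha, Finset.sum_insert ha, lp.coeFn_add, Pi.add_apply, ih]

lemma eq_sum (s : Finset (Zd d)) (f : L2 d) (hf : ∀ y, y ∉ s → f y = 0) :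
    f = ∑ y ∈ s, (f y) • dl y := by
  classical
  apply lp.ext
  funext z
  rw [coe_sum']
  have h : ∀ y ∈ s, ((f y • dl y : L2 d) : Zd d → ℂ) z = if z = y then f y else 0 := by
    intro y _
    rw [lp.coeFn_smul, Pi.smul_apply, dl_apply, smul_eq_mul]
    split_ifs <;> simp
  rw [Finset.sum_congr rfl h, Finset.sum_ite_eq s z (fun y => f y)]
  split_ifs with hz
  · rfl
  · exact hf z hz

/-- the Gram matrix -/
noncomputable def gram (J Λ : Finset (Zd d)) (a b c : ℝ) (ω : Zd d → ℝ) : Matrix Λ Λ ℂ :=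
  fun x y => ⟪dl (x : Zd d), fc (fun t => tent a b t * tent a b t) (TT J c ω) (dl (y : Zd d))⟫_ℂ

/-- the vector with the coordinates `v` -/
noncomputable def vec (Λ : Finset (Zd d)) (v : Λ → ℂ) : L2 d := ∑ x : Λ, v x • dl (x : Zd d)

lemma vec_apply (Λ : Finset (Zd d)) (v : Λ → ℂ) (z : Zd d) :
    (vec Λ v : Zd d → ℂ) z = if h : z ∈ Λ then v ⟨z, h⟩ else 0 := by
  classical
  have h0 : ∀ s : Finset Λ, (((∑ x ∈ s, v x • dl (x : Zd d) : L2 d)) : Zd d → ℂ) z
      = ∑ x ∈ s, if z = (x : Zd d) then v x else 0 := by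
    intro s
    induction s using Finset.induction_on with
    | empty => simp
    | insert a s ha ih =>
      rw [Finset.sum_insert ha, Finset.sum_insert ha, lp.coeFn_add, Pi.add_apply, ih,
        lp.coeFn_smul, Pi.smul_apply, dl_apply, smul_eq_mul]
      congr 1
      split_ifs <;> simp
  unfold vec
  rw [h0]
  split_ifs with h
  · rw [Finset.sum_eq_single (⟨z, h⟩ : Λ)]
    · simp
    · intro y _ hy
      rw [if_neg]
      intro hz
      exact hy (Subtype.ext hz.symm)
    · intro h'
      exact absurd (Finset.mem_univ _) h'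
  · refine Finset.sum_eq_zero fun y _ => ?_
    rw [if_neg]
    rintro rfl
    exact h y.2

lemma gram_mulVec (J Λ : Finset (Zd d)) (a b c : ℝ) (ω : Zd d → ℝ) (v : Λ → ℂ) (x : Λ) :
    (gram J Λ a b c ω).mulVec v x = ⟪fc (tent a b) (TT J c ω) (dl (x : Zd d)),
      fc (tent a b) (TT J c ω) (vec Λ v)⟫_ℂ := by
  unfold vec
  rw [map_sum, inner_sum]
  change ∑ y : Λ, gram J Λ a b c ω x y * v y = _
  refine Finset.sum_congr rfl fun y _ => ?_
  unfold gram
  rw [sq_inner, map_smul, inner_smul_right]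
  ring

lemma bad_iff (J Λ : Finset (Zd d)) (a b c : ℝ) (ω : Zd d → ℝ) :
    ω ∈ Bad J Λ a b c ↔ (gram J Λ a b c ω).det = 0 := by
  classical
  rw [← Matrix.exists_mulVec_eq_zero_iff]
  constructor
  · rintro ⟨φ, h0, hs, hk⟩
    have hv : vec Λ (fun x : Λ => φ x) = φ := by
      apply lp.ext
      funext z
      rw [vec_apply]
      split_ifs with h
      · rfl
      · exact (hs z h).symm
    refine ⟨fun x => φ x, ?_, ?_⟩
    · intro h
      apply h0
      rw [← hv, h]
      unfold vec
      simp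
    · funext x
      rw [gram_mulVec, hv]
      rw [ki_fc] at hk
      rw [hk, inner_zero_right]
      rfl
  · rintro ⟨v, h0, hv⟩
    refine ⟨vec Λ v, ?_, ?_, ?_⟩
    · intro h
      apply h0
      funext x
      have h1 := vec_apply Λ v (x : Zd d)
      rw [h, dif_pos x.2] at h1
      exact h1.symm
    · intro x hx
      rw [vec_apply, dif_neg hx]
    · rw [ki_fc, ← inner_self_eq_zero (𝕜 := ℂ)]
      have h1 : fc (tent a b) (TT J c ω) (vec Λ v) =
          ∑ x : Λ, v x • fc (tent a b) (TT J c ω) (dl (x : Zd d)) := by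
        unfold vec
        rw [map_sum]
        exact Finset.sum_congr rfl fun y _ => map_smul _ _ _
      nth_rewrite 1 [h1]
      rw [sum_inner]
      refine Finset.sum_eq_zero fun x _ => ?_
      rw [inner_smul_left, ← gram_mulVec, hv]
      simp

end BAD

theorem meas_bad (J Λ : Finset (Zd d)) (a b c : ℝ) (hc : 0 ≤ c) :
    MeasurableSet (Bad J Λ a b c) := by
  classical
  have h1 : Bad J Λ a b c = (fun ω => (BAD.gram J Λ a b c ω).det) ⁻¹' {0} := by
    ext ω
    rw [BAD.bad_iff]
    rfl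
  rw [h1]
  refine (?_ : Measurable fun ω => (BAD.gram J Λ a b c ω).det) (measurableSet_singleton 0)
  simp only [Matrix.det_apply]
  refine Finset.measurable_sum _ fun σ _ => ?_
  refine Measurable.const_smul ?_ _
  refine Finset.measurable_prod _ fun x _ => ?_
  exact meas_entry J c hc _ ((BAD.tent_cont a b).mul (BAD.tent_cont a b)) _ _

theorem meas_ki (J : Finset (Zd d)) (a b c : ℝ) (hc : 0 ≤ c) (x : Zd d) :
    MeasurableSet {ω : Zd d → ℝ | KI a b (TT J c ω) (dl x)} := by
  have h1 : {ω : Zd d → ℝ | KI a b (TT J c ω) (dl x)} =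
      (fun ω => ⟪dl x, fc (fun t => tent a b t * tent a b t) (TT J c ω) (dl x)⟫_ℂ) ⁻¹' {0} := by
    ext ω
    simp only [Set.mem_preimage, Set.mem_singleton_iff]
    rw [BAD.sq_inner, inner_self_eq_zero]
    rfl
  rw [h1]
  exact (meas_entry J c hc _ ((BAD.tent_cont a b).mul (BAD.tent_cont a b)) x x)
    (measurableSet_singleton 0)

end Pool.Agent.TH369.AN
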