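import Pool.Agent.TH369.AN.Defs
set_option autoImplicit false
open MeasureTheory
open scoped InnerProductSpace
namespace Pool.Agent.TH369.AN
variable {d : ℕ}

namespace FUB

/-- the update map -/
def upd (j : Zd d) (q : (Zd d → ℝ) × ℝ) : Zd d → ℝ := Function.update q.1 j q.2

theorem measurable_upd (j : Zd d) : Measurable (upd j) := by
  unfold upd
  rw [measurable_pi_iff]
  intro i
  by_cases hi : i = j
  · subst hi
    simpa using measurable_snd
  · simp only [Function.update_of_ne hi]
    exact (measurable_pi_apply i).comp measurable_fst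

instance (μ : Measure ℝ) [IsProbabilityMeasure μ] : IsProbabilityMeasure (iid d μ) := by
  unfold iid; infer_instance

theorem map_upd (μ : Measure ℝ) [IsProbabilityMeasure μ] (j : Zd d) :
    ((iid d μ).prod μ).map (upd j) = iid d μ := by
  classical
  symm
  unfold iid
  symm
  apply Measure.eq_infinitePi
  intro s t ht
  rw [Measure.map_apply (measurable_upd j) (MeasurableSet.pi s.countable_toSet (fun i _ => ht i))]
  have : upd j ⁻¹' (Set.pi s t) =
      (Set.pi (s.erase j : Finset (Zd d)) t) ×ˢ (if j ∈ s then t j else Set.univ) := by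
    ext ⟨ω, x⟩
    simp only [Set.mem_preimage, Set.mem_pi, Set.mem_prod, upd, Finset.coe_erase, Set.mem_sdiff, Finset.mem_coe,
      Set.mem_singleton_iff]
    constructor
    · intro h
      refine ⟨fun i hi => by simpa [Function.update_of_ne hi.2] using h i hi.1, ?_⟩
      split_ifs with hj
      · simpa using h j hj
      · trivial
    · rintro ⟨h1, h2⟩ i hi
      by_cases hij : i = j
      · subst hij
        simp only [Function.update_self]
        simpa [hi] using h2
      · rw [Function.update_of_ne hij]
        exact h1 i ⟨hi, hij⟩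
  rw [this, Measure.prod_prod, Measure.infinitePi_pi _ (fun i _ => ht i)]
  split_ifs with hj
  · rw [mul_comm, ← Finset.mul_prod_erase s _ hj]
  · rw [Finset.erase_eq_of_notMem hj]; simp

end FUB

theorem null_of_sections (μ : Measure ℝ) [IsProbabilityMeasure μ] (j : Zd d)
    (S : Set (Zd d → ℝ)) (hS : MeasurableSet S)
    (h : ∀ᵐ ω ∂(iid d μ), μ {t : ℝ | Function.update ω j t ∈ S} = 0) : iid d μ S = 0 := by
  rw [← FUB.map_upd μ j, Measure.map_apply (FUB.measurable_upd j) hS,
    Measure.measure_prod_null (FUB.measurable_upd j hS)]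
  exact h

theorem ae_update (μ : Measure ℝ) [IsProbabilityMeasure μ] (j : Zd d) (p : (Zd d → ℝ) → Prop)
    (h : ∀ᵐ ω ∂(iid d μ), p ω) :
    ∀ᵐ ω ∂(iid d μ), ∀ᵐ t ∂μ, p (Function.update ω j t) := by
  have h1 : ∀ᵐ ω ∂(((iid d μ).prod μ).map (FUB.upd j)), p ω := by
    rw [FUB.map_upd]; exact h
  have h2 := ae_of_ae_map (FUB.measurable_upd j).aemeasurable h1
  exact Measure.ae_ae_of_ae_prod h2

end Pool.Agent.TH369.AN
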