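import Pool.Agent.TH369.AN.Defs

/-!
# The algebra of the functions which extend analytically across an interval
-/

set_option autoImplicit false
open MeasureTheory
open scoped InnerProductSpace
namespace Pool.Agent.TH369.AN

theorem AL.Om_mono {a b a' b' : ℝ} (ha : a ≤ a') (hb : b' ≤ b) : Om a' b' ⊆ Om a b := by
  intro z hz
  rcases hz with hz | ⟨h1, h2⟩
  · exact Or.inl hz
  · exact Or.inr ⟨lt_of_le_of_lt ha h1, lt_of_lt_of_le h2 hb⟩

theorem An.add {a b : ℝ} {f g : ℂ → ℂ} (hf : An a b f) (hg : An a b g) :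
    An a b (fun z => f z + g z) := by
  obtain ⟨f1, hf1, hf2⟩ := hf
  obtain ⟨g1, hg1, hg2⟩ := hg
  exact ⟨fun z => f1 z + g1 z, hf1.add hg1, fun z hz => by
    simp only [hf2 z hz, hg2 z hz]⟩

theorem An.sub {a b : ℝ} {f g : ℂ → ℂ} (hf : An a b f) (hg : An a b g) :
    An a b (fun z => f z - g z) := by
  obtain ⟨f1, hf1, hf2⟩ := hf
  obtain ⟨g1, hg1, hg2⟩ := hg
  exact ⟨fun z => f1 z - g1 z, hf1.sub hg1, fun z hz => by
    simp only [hf2 z hz, hg2 z hz]⟩

theorem An.cmul {a b : ℝ} {f : ℂ → ℂ} (k : ℂ) (hf : An a b f) : An a b (fun z => k * f z) := by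
  obtain ⟨f1, hf1, hf2⟩ := hf
  exact ⟨fun z => k * f1 z, hf1.const_mul k, fun z hz => by simp only [hf2 z hz]⟩

theorem An.sum {a b : ℝ} {ι : Type} (s : Finset ι) (f : ι → ℂ → ℂ) (hf : ∀ i ∈ s, An a b (f i)) :
    An a b (fun z => ∑ i ∈ s, f i z) := by
  classical
  induction s using Finset.induction_on with
  | empty => exact ⟨fun _ => 0, differentiableOn_const _, fun z _ => by simp⟩
  | insert i s hi ih =>
    have h1 := (hf i (Finset.mem_insert_self i s)).add
      (ih fun j hj => hf j (Finset.mem_insert_of_mem hj))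
    simpa only [Finset.sum_insert hi] using h1

theorem An.mono {a b a' b' : ℝ} {f : ℂ → ℂ} (hf : An a b f) (ha : a ≤ a') (hb : b' ≤ b) :
    An a' b' f := by
  obtain ⟨f1, hf1, hf2⟩ := hf
  exact ⟨f1, hf1.mono (AL.Om_mono ha hb), hf2⟩

theorem An.congr {a b : ℝ} {f g : ℂ → ℂ} (hf : An a b f) (h : ∀ z : ℂ, z.im ≠ 0 → f z = g z) :
    An a b g := by
  obtain ⟨f1, hf1, hf2⟩ := hf
  exact ⟨f1, hf1, fun z hz => by rw [hf2 z hz, h z hz]⟩

end Pool.Agent.TH369.AN
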