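import Pool.Agent.TH369.AN.Defs
import Pool.Agent.TH369.AN.KM
import Pool.Agent.H54R3.Spec508

set_option autoImplicit false

/-!
# Atoms from countable support
-/

open MeasureTheory
open scoped InnerProductSpace

namespace Pool.Agent.TH369.AN

variable {X : Type} [NormedAddCommGroup X] [InnerProductSpace ℂ X] [CompleteSpace X]

namespace ATOM

open Filter Topology
open Pool.Agent.H54R3
open Pool.Agent.H54R3.Spec508 (mu key key2 norm_cfc tent_int_lim tent_cont tent_anti tent_le_one
  tent_nonneg)

/-- an atom of the spectral measure gives an eigenvector which is not orthogonal to `e` -/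
theorem eig_of_atom (H : X →L[ℂ] X) (hH : IsSelfAdjoint H) (e : X) (E : ℝ)
    (hE : mu H e {E} ≠ 0) : Eig H e E := by
  have hlim := tent_int_lim H e E
  set v : ℕ → X := fun n => cfc (Spec508.tent E n) H e with hv
  have hsq : ∀ n, ‖v n‖ ^ 2 = ∫ x, Spec508.tent E n x * Spec508.tent E n x ∂(mu H e) := fun n =>
    norm_cfc hH e _ (tent_cont E n)
  have hdiff : ∀ m n, m ≤ n → ‖v m - v n‖ ^ 2 ≤
      (∫ x, Spec508.tent E m x ∂(mu H e)) - ∫ x, Spec508.tent E n x ∂(mu H e) := by
    intro m n hmn
    have h1 : v m - v n = cfc (fun x => Spec508.tent E m x - Spec508.tent E n x) H e := by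
      rw [cfc_sub (Spec508.tent E m) (Spec508.tent E n) H (tent_cont E m).continuousOn (tent_cont E n).continuousOn]
      rfl
    have hc : Continuous (fun x => Spec508.tent E m x - Spec508.tent E n x) := (tent_cont E m).sub (tent_cont E n)
    rw [h1, norm_cfc hH e _ hc, ← integral_sub (key H e _ (tent_cont E m)).1
      (key H e _ (tent_cont E n)).1]
    refine integral_mono (key H e _ (hc.mul hc)).1 (key H e _ hc).1 ?_
    intro x
    have a1 := tent_anti E hmn x
    have a2 := tent_le_one E m x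
    have a3 := tent_nonneg E n x
    change (Spec508.tent E m x - Spec508.tent E n x) * (Spec508.tent E m x - Spec508.tent E n x) ≤ Spec508.tent E m x - Spec508.tent E n x
    nlinarith
  set a : ℕ → ℝ := fun n => ∫ x, Spec508.tent E n x ∂(mu H e) with ha
  set L : ℝ := (mu H e).real {E} with hL
  have hanti : ∀ m n, m ≤ n → a n ≤ a m := by
    intro m n hmn
    exact integral_mono (key H e _ (tent_cont E n)).1 (key H e _ (tent_cont E m)).1
      (fun x => tent_anti E hmn x)
  have hLle : ∀ n, L ≤ a n := fun n =>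
    le_of_tendsto hlim (by
      filter_upwards [eventually_ge_atTop n] with m hm
      exact hanti n m hm)
  have hcau : CauchySeq v := by
    refine cauchySeq_of_le_tendsto_0 (fun N => Real.sqrt (a N - L)) ?_ ?_
    · intro n m N hn hm
      rw [dist_eq_norm]
      apply Real.le_sqrt_of_sq_le
      rcases le_total n m with h | h
      · have := hdiff n m h
        have h1 := hanti N n hn
        have h2 := hLle m
        change ‖v n - v m‖ ^ 2 ≤ a n - a m at this
        linarith
      · have := hdiff m n h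
        have h1 := hanti N m hm
        have h2 := hLle n
        change ‖v m - v n‖ ^ 2 ≤ a m - a n at this
        rw [norm_sub_rev]
        linarith
    · have h1 : Tendsto (fun N => a N - L) atTop (𝓝 (L - L)) := hlim.sub_const L
      rw [sub_self] at h1
      have h2 := (Real.continuous_sqrt.tendsto 0).comp h1
      rw [Real.sqrt_zero] at h2
      exact h2
  obtain ⟨ψ, hψ⟩ := cauchySeq_tendsto_of_complete hcau
  have hLpos : 0 < L := by
    rw [hL, measureReal_def]
    exact ENNReal.toReal_pos hE (measure_ne_top _ _)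
  refine ⟨ψ, ?_, ?_⟩
  · have h1 : ∀ n : ℕ, 1 ≤ n → ‖H (v n) - (E : ℂ) • v n‖ ^ 2 ≤
        (1 / (n : ℝ)) ^ 2 * (mu H e).real Set.univ := by
      intro n hn
      have hc : Continuous (fun x : ℝ => (x - E) * Spec508.tent E n x) :=
        (continuous_id.sub continuous_const).mul (tent_cont E n)
      have h2 : H (v n) - (E : ℂ) • v n = cfc (fun x : ℝ => (x - E) * Spec508.tent E n x) H e := by
        rw [cfc_mul (fun x : ℝ => x - E) (Spec508.tent E n) H (by fun_prop) (tent_cont E n).continuousOn,
          cfc_sub (fun x : ℝ => x) (fun _ => E) H (by fun_prop) (by fun_prop), cfc_id' ℝ H,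
          cfc_const E H]
        change _ = (H - algebraMap ℝ (X →L[ℂ] X) E) (cfc (Spec508.tent E n) H e)
        rw [sub_apply, Algebra.algebraMap_eq_smul_one, smul_apply, one_apply_eq_self,
          RCLike.real_smul_eq_coe_smul (K := ℂ)]
        rfl
      rw [h2, norm_cfc hH e _ hc]
      have h3 : (1 / (n : ℝ)) ^ 2 * (mu H e).real Set.univ =
          ∫ _x : ℝ, (1 / (n : ℝ)) ^ 2 ∂(mu H e) := by
        rw [integral_const, smul_eq_mul, mul_comm]
      rw [h3]
      refine integral_mono (key H e _ (hc.mul hc)).1 (integrable_const _) ?_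
      intro x
      have hn' : (0 : ℝ) < n := by exact_mod_cast hn
      have h4 : |(x - E) * Spec508.tent E n x| ≤ 1 / (n : ℝ) := by
        rw [abs_mul, abs_of_nonneg (tent_nonneg E n x)]
        by_cases hx : (n : ℝ) * |x - E| ≤ 1
        · have h5 : |x - E| ≤ 1 / n := by
            rw [le_div_iff₀ hn']; linarith
          calc |x - E| * Spec508.tent E n x ≤ |x - E| * 1 := by
                gcongr
                exact tent_le_one _ _ _
            _ ≤ 1 / n := by linarith
        · have h6 : Spec508.tent E n x = 0 := by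
            unfold Spec508.tent
            rw [max_eq_left (by linarith [not_le.mp hx])]
          rw [h6, mul_zero]
          positivity
      change ((x - E) * Spec508.tent E n x) * ((x - E) * Spec508.tent E n x) ≤ (1 / (n : ℝ)) ^ 2
      rw [← sq, ← sq_abs]
      gcongr
    have h2 : Tendsto (fun n : ℕ => ‖H (v n) - (E : ℂ) • v n‖ ^ 2) atTop
        (𝓝 (‖H ψ - (E : ℂ) • ψ‖ ^ 2)) := by
      have h3 : Tendsto (fun n : ℕ => H (v n)) atTop (𝓝 (H ψ)) := (H.continuous.tendsto ψ).comp hψ
      exact ((h3.sub (hψ.const_smul _)).norm).pow 2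
    have h3 : Tendsto (fun n : ℕ => (1 / (n : ℝ)) ^ 2 * (mu H e).real Set.univ) atTop (𝓝 0) := by
      have h4 : Tendsto (fun n : ℕ => 1 / (n : ℝ)) atTop (𝓝 0) := tendsto_one_div_atTop_nhds_zero_nat
      have h5 := (h4.pow 2).mul_const ((mu H e).real Set.univ)
      simpa using h5
    have h4 : ‖H ψ - (E : ℂ) • ψ‖ ^ 2 ≤ 0 := by
      refine le_of_tendsto_of_tendsto h2 h3 ?_
      filter_upwards [eventually_ge_atTop 1] with n hn
      exact h1 n hn
    have h5 : ‖H ψ - (E : ℂ) • ψ‖ = 0 := by
      have := norm_nonneg (H ψ - (E : ℂ) • ψ)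
      nlinarith
    exact sub_eq_zero.mp (norm_eq_zero.mp h5)
  · have h1 : Tendsto (fun n => ⟪e, v n⟫_ℂ) atTop (𝓝 ⟪e, ψ⟫_ℂ) :=
      (Filter.Tendsto.inner tendsto_const_nhds hψ)
    have h2 : Tendsto (fun n => ⟪e, v n⟫_ℂ) atTop (𝓝 (L : ℂ)) := by
      have h3 : ∀ n, ⟪e, v n⟫_ℂ = ((a n : ℝ) : ℂ) := fun n =>
        ((key2 H e (Spec508.tent E n) (tent_cont E n)).2).symm
      simp only [h3]
      exact (Complex.continuous_ofReal.tendsto L).comp hlim
    rw [tendsto_nhds_unique h1 h2]
    exact_mod_cast hLpos.ne'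

end ATOM

theorem atom (T : X →L[ℂ] X) (hT : IsSelfAdjoint T) (e : X) (a b : ℝ) (hab : a < b) (Z : Set ℝ)
    (hZ : Z.Countable)
    (h : ∀ E ∈ Set.Ioo a b, E ∉ Z → ∃ a' b', a' < E ∧ E < b' ∧ KI a' b' T e)
    (hne : ¬ KI a b T e) : ∃ E ∈ Z, Eig T e E := by
  by_contra hcon
  apply hne
  have hk := fun a b => ki_iff T hT a b e (Pool.Agent.H54R3.Spec508.mu T e)
    (Pool.Agent.H54R3.Spec508.key2 T e)
  rw [hk]
  have h1 : Pool.Agent.H54R3.Spec508.mu T e Z = 0 := by
    rw [← Set.biUnion_of_singleton Z, measure_biUnion_null_iff hZ]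
    intro E hE
    by_contra h2
    exact hcon ⟨E, hE, ATOM.eig_of_atom T hT e E h2⟩
  have h2 : Pool.Agent.H54R3.Spec508.mu T e (Set.Ioo a b \ Z) = 0 := by
    refine measure_null_of_locally_null _ fun x hx => ?_
    obtain ⟨a', b', h3, h4, h5⟩ := h x hx.1 hx.2
    exact ⟨Set.Ioo a' b', mem_nhdsWithin_of_mem_nhds (Ioo_mem_nhds h3 h4), (hk a' b').1 h5⟩
  refine measure_mono_null (t := Z ∪ Set.Ioo a b \ Z) ?_ (measure_union_null h1 h2)
  intro x hx
  by_cases hxZ : x ∈ Z
  · exact Or.inl hxZ
  · exact Or.inr ⟨hx, hxZ⟩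

end Pool.Agent.TH369.AN
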