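import Pool.Agent.TH369.AN.Defs
set_option autoImplicit false
open MeasureTheory
open scoped InnerProductSpace
namespace Pool.Agent.TH369.AN

namespace DIV

open Set Filter Topology

lemma om_eq (a b : ℝ) : Om a b = ({z : ℂ | 0 < z.im} ∪ {z : ℂ | a < z.re ∧ z.re < b}) ∪
    {z : ℂ | z.im < 0} := by
  ext z
  simp only [Om, mem_ofPred_eq, mem_union]
  constructor
  · rintro (h | h)
    · rcases lt_or_gt_of_ne h with h | h
      · exact Or.inr h
      · exact Or.inl (Or.inl h)
    · exact Or.inl (Or.inr h)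
  · rintro ((h | h) | h)
    · exact Or.inl h.ne'
    · exact Or.inr h
    · exact Or.inl h.ne

lemma om_open (a b : ℝ) : IsOpen (Om a b) := by
  rw [om_eq]
  refine (IsOpen.union ?_ ?_).union ?_
  · exact isOpen_lt continuous_const Complex.continuous_im
  · exact (isOpen_lt continuous_const Complex.continuous_re).inter
      (isOpen_lt Complex.continuous_re continuous_const)
  · exact isOpen_lt Complex.continuous_im continuous_const

lemma om_conn (a b : ℝ) (hab : a < b) : IsConnected (Om a b) := by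
  rw [om_eq]
  have h1 : IsPreconnected {z : ℂ | 0 < z.im} := (convex_halfSpace_im_gt 0).isPreconnected
  have h2 : IsPreconnected {z : ℂ | z.im < 0} := (convex_halfSpace_im_lt 0).isPreconnected
  have h3 : IsPreconnected {z : ℂ | a < z.re ∧ z.re < b} :=
    ((convex_halfSpace_re_gt a).inter (convex_halfSpace_re_lt b)).isPreconnected
  have hm1 : a < (a + b) / 2 := by linarith
  have hm2 : (a + b) / 2 < b := by linarith
  have h4 : IsPreconnected ({z : ℂ | 0 < z.im} ∪ {z : ℂ | a < z.re ∧ z.re < b}) :=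
    IsPreconnected.union (⟨(a + b) / 2, 1⟩ : ℂ) (by show (0 : ℝ) < 1; norm_num)
      (show a < (a + b) / 2 ∧ (a + b) / 2 < b from ⟨hm1, hm2⟩) h1 h3
  refine ⟨⟨(⟨(a + b) / 2, 1⟩ : ℂ), ?_⟩, ?_⟩
  · left; left; show (0 : ℝ) < 1; norm_num
  · exact IsPreconnected.union (⟨(a + b) / 2, -1⟩ : ℂ)
      (Or.inr (show a < (a + b) / 2 ∧ (a + b) / 2 < b from ⟨hm1, hm2⟩))
      (show (-1 : ℝ) < 0 by norm_num) h4 h2

end DIV

open Set Filter Topology in
theorem div_an (a b : ℝ) (hab : a < b) (c : ℂ → ℂ) (hc : An a b c)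
    (hne : ∃ z : ℂ, z.im ≠ 0 ∧ c z ≠ 0) :
    ∃ Z : Set ℝ, Z.Countable ∧ ∀ al G : ℂ → ℂ, An a b al →
      (∀ z : ℂ, z.im ≠ 0 → DifferentiableAt ℂ G z) →
      (∀ z : ℂ, z.im ≠ 0 → c z * G z = al z) → ∀ E ∈ Set.Ioo a b, E ∉ Z →
        ∃ a' b', a ≤ a' ∧ a' < E ∧ E < b' ∧ b' ≤ b ∧ An a' b' G := by
  obtain ⟨ch, hch, hce⟩ := hc
  obtain ⟨z0, hz0, hcz0⟩ := hne
  have hopen := DIV.om_open a b
  have hanal : AnalyticOnNhd ℂ ch (Om a b) := hch.analyticOnNhd hopen
  have hcod : ch ⁻¹' {0}ᶜ ∈ codiscreteWithin (Om a b) :=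
    hanal.preimage_zero_mem_codiscreteWithin (x := z0) (by rw [hce z0 hz0]; exact hcz0)
      (Or.inl hz0) (DIV.om_conn a b hab)
  have hcount : (ch ⁻¹' {0} ∩ Om a b).Countable := by
    have hd : DiscreteTopology ↑(ch ⁻¹' {0} ∩ Om a b) := isDiscrete_iff_discreteTopology.mp
      (isDiscrete_of_codiscreteWithin (by rwa [preimage_compl] at hcod))
    exact TopologicalSpace.separableSpace_iff_countable.1 inferInstance
  refine ⟨{E : ℝ | a < E ∧ E < b ∧ ch (E : ℂ) = 0}, ?_, ?_⟩
  · refine (hcount.preimage Complex.ofReal_injective).mono ?_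
    rintro E ⟨h1, h2, h3⟩
    exact ⟨h3, Or.inr ⟨by simpa using h1, by simpa using h2⟩⟩
  · intro al G hal hG hmul E hE hEZ
    obtain ⟨ah, hah, hae⟩ := hal
    have hEmem : (E : ℂ) ∈ Om a b := Or.inr ⟨by simpa using hE.1, by simpa using hE.2⟩
    have hchE : ch (E : ℂ) ≠ 0 := fun h => hEZ ⟨hE.1, hE.2, h⟩
    have hcont : ContinuousAt ch (E : ℂ) := (hch.differentiableAt (hopen.mem_nhds hEmem)).continuousAt
    have hev : ∀ᶠ z in 𝓝 (E : ℂ), ch z ≠ 0 := hcont.eventually_ne hchE
    obtain ⟨r, hr, hball⟩ := Metric.eventually_nhds_iff_ball.1 hev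
    refine ⟨max a (E - r), min b (E + r), le_max_left _ _, max_lt hE.1 (by linarith),
      lt_min hE.2 (by linarith), min_le_left _ _, ?_⟩
    have hcneq : ∀ x : ℝ, max a (E - r) < x → x < min b (E + r) → ch (x : ℂ) ≠ 0 := by
      intro x h1 h2
      apply hball
      rw [Metric.mem_ball, dist_eq_norm, ← Complex.ofReal_sub, Complex.norm_real, Real.norm_eq_abs,
        abs_lt]
      constructor
      · linarith [(max_lt_iff.1 h1).2]
      · linarith [(lt_min_iff.1 h2).2]
    refine ⟨fun z => if z.im ≠ 0 then G z else ah z / ch z, ?_, fun z hz => by simp [hz]⟩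
    intro z hz
    by_cases him : z.im ≠ 0
    · have hev' : (fun z : ℂ => if z.im ≠ 0 then G z else ah z / ch z) =ᶠ[𝓝 z] G := by
        have : {w : ℂ | w.im ≠ 0} ∈ 𝓝 z :=
          (isOpen_ne_fun Complex.continuous_im continuous_const).mem_nhds him
        filter_upwards [this] with w hw
        exact if_pos hw
      exact ((hG z him).congr_of_eventuallyEq hev').differentiableWithinAt
    · push Not at him
      have hz' : max a (E - r) < z.re ∧ z.re < min b (E + r) := by
        rcases hz with h | h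
        · exact absurd him h
        · exact h
      have hzre : z = ((z.re : ℝ) : ℂ) := by
        apply Complex.ext <;> simp [him]
      have hzmem : z ∈ Om a b := Or.inr ⟨(max_lt_iff.1 hz'.1).1, (lt_min_iff.1 hz'.2).1⟩
      have hcz : ch z ≠ 0 := by
        rw [hzre]; exact hcneq _ hz'.1 hz'.2
      have hdc : DifferentiableAt ℂ ch z := hch.differentiableAt (hopen.mem_nhds hzmem)
      have hda : DifferentiableAt ℂ ah z := hah.differentiableAt (hopen.mem_nhds hzmem)
      have hev1 : ∀ᶠ w in 𝓝 z, ch w ≠ 0 := hdc.continuousAt.eventually_ne hcz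
      have hev' : (fun z : ℂ => if z.im ≠ 0 then G z else ah z / ch z) =ᶠ[𝓝 z]
          fun w => ah w / ch w := by
        filter_upwards [hev1] with w hw
        by_cases hwi : w.im ≠ 0
        · rw [if_pos hwi, eq_div_iff hw, hae w hwi, ← hmul w hwi, hce w hwi, mul_comm]
        · rw [if_neg hwi]
      exact ((hda.div hdc hcz).congr_of_eventuallyEq hev').differentiableWithinAt

end Pool.Agent.TH369.AN
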