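import Pool.Agent.TH369.AN.Defs
import Pool.Agent.TH369.AN.RES

/-!
# Rank one perturbations (job AN-RO)
-/

set_option autoImplicit false

open MeasureTheory
open scoped InnerProductSpace

namespace Pool.Agent.TH369.AN

variable {X : Type} [NormedAddCommGroup X] [InnerProductSpace ℂ X] [CompleteSpace X]

namespace RO

omit [CompleteSpace X] in
theorem ro_apply (e x : X) : ro e x = ⟪e, x⟫_ℂ • e := rfl

omit [CompleteSpace X] in
theorem pt_apply (T : X →L[ℂ] X) (e : X) (t : ℝ) (x : X) :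
    pt T e t x = T x + (t : ℂ) • ⟪e, x⟫_ℂ • e := rfl

theorem ro_sa (e : X) : IsSelfAdjoint (ro e) := by
  rw [ContinuousLinearMap.isSelfAdjoint_iff_isSymmetric]
  intro x y
  change ⟪ro e x, y⟫_ℂ = ⟪x, ro e y⟫_ℂ
  rw [ro_apply, ro_apply, inner_smul_left, inner_smul_right, inner_conj_symm, mul_comm]

omit [CompleteSpace X] in
theorem pt_change (T : X →L[ℂ] X) (e : X) (s t : ℝ) (x : X) :
    pt T e t x = pt T e s x + (((t - s : ℝ) : ℂ) * ⟪e, x⟫_ℂ) • e := by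
  rw [pt_apply, pt_apply, smul_smul, smul_smul, add_assoc, ← add_smul]
  congr 2
  push_cast
  ring

end RO

open RO

theorem pt_sa (T : X →L[ℂ] X) (hT : IsSelfAdjoint T) (e : X) (t : ℝ) :
    IsSelfAdjoint (pt T e t) := by
  refine hT.add (IsSelfAdjoint.smul ?_ (ro_sa e))
  exact Complex.conj_ofReal t

theorem cp_sa (T : X →L[ℂ] X) (hT : IsSelfAdjoint T) (e : X) : IsSelfAdjoint (cp T e) := by
  have h : IsSelfAdjoint (1 - ro e : X →L[ℂ] X) := (IsSelfAdjoint.one _).sub (ro_sa e)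
  exact hT.conjugate_self h

theorem rank_one (T : X →L[ℂ] X) (hT : IsSelfAdjoint T) (e φ : X) (s t : ℝ) (z : ℂ)
    (hz : z.im ≠ 0) :
    Rz (pt T e t) z φ = Rz (pt T e s) z φ -
      (((t - s : ℝ) : ℂ) * ⟪e, Rz (pt T e s) z φ⟫_ℂ) • Rz (pt T e t) z e := by
  symm
  apply rz_uniq (pt T e t) (pt_sa T hT e t) z hz
  have h1 := rz_eq (pt T e s) (pt_sa T hT e s) z hz φ
  have h2 := rz_eq (pt T e t) (pt_sa T hT e t) z hz e
  rw [map_sub, map_smul, pt_change T e s t (Rz (pt T e s) z φ)]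
  have h3 : pt T e t (Rz (pt T e t) z e) = e + z • Rz (pt T e t) z e := by
    rw [← sub_eq_iff_eq_add]; exact h2
  have h4 : pt T e s (Rz (pt T e s) z φ) = φ + z • Rz (pt T e s) z φ := by
    rw [← sub_eq_iff_eq_add]; exact h1
  rw [h3, h4, smul_add, smul_sub, smul_comm z]
  abel

theorem eig_uniq (T : X →L[ℂ] X) (hT : IsSelfAdjoint T) (e : X) (E s t : ℝ)
    (h1 : Eig (pt T e s) e E) (h2 : Eig (pt T e t) e E) : s = t := by
  obtain ⟨ψ, hψ, hψ0⟩ := h1
  obtain ⟨ψ', hψ', hψ0'⟩ := h2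
  have hs := pt_sa T hT e s
  rw [ContinuousLinearMap.isSelfAdjoint_iff_isSymmetric] at hs
  have h3 : ⟪pt T e s ψ', ψ⟫_ℂ = ⟪ψ', pt T e s ψ⟫_ℂ := hs ψ' ψ
  rw [pt_change T e t s ψ', hψ', hψ, inner_add_left, inner_smul_left, inner_smul_left,
    inner_smul_right, Complex.conj_ofReal, map_mul, Complex.conj_ofReal] at h3
  have h4 : ((s - t : ℝ) : ℂ) * (starRingEnd ℂ) ⟪e, ψ'⟫_ℂ * ⟪e, ψ⟫_ℂ = 0 := by
    linear_combination h3
  rcases mul_eq_zero.1 h4 with h5 | h5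
  · rcases mul_eq_zero.1 h5 with h6 | h6
    · have h7 : s - t = 0 := by exact_mod_cast h6
      linarith
    · exact absurd ((map_eq_zero (starRingEnd ℂ)).1 h6) hψ0'
  · exact absurd h5 hψ0

end Pool.Agent.TH369.AN
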