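import Pool.Agent.TH369.AN.Defs

/-!
# The Borel transform of a measure vanishing on an interval (job 3662, helper480)
-/

set_option autoImplicit false

open MeasureTheory
open scoped InnerProductSpace Topology

namespace Pool.Agent.TH369.AN

namespace BO

/-- near a point of `Om a b` the distance to almost all points of the line is bounded from below -/
lemma dist_lower (m : Measure ℝ) (a b : ℝ) (h : m (Set.Ioo a b) = 0) {z₀ : ℂ}
    (hz : z₀ ∈ Om a b) : ∃ r : ℝ, 0 < r ∧
    ∀ᵐ x : ℝ ∂m, ∀ z ∈ Metric.ball z₀ r, r ≤ ‖(x : ℂ) - z‖ := by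
  rcases hz with hz | hz
  · refine ⟨|z₀.im| / 2, by positivity, Filter.Eventually.of_forall fun x z hzb => ?_⟩
    rw [Metric.mem_ball, Complex.dist_eq] at hzb
    have h1 : |z.im - z₀.im| ≤ ‖z - z₀‖ := by
      have := Complex.abs_im_le_norm (z - z₀)
      rwa [Complex.sub_im] at this
    have h2 : |z.im| ≤ ‖(x : ℂ) - z‖ := by
      have := Complex.abs_im_le_norm ((x : ℂ) - z)
      rwa [Complex.sub_im, Complex.ofReal_im, zero_sub, abs_neg] at this
    have h3 : |z₀.im| - |z.im| ≤ |z.im - z₀.im| := by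
      rw [abs_sub_comm]
      exact abs_sub_abs_le_abs_sub _ _
    linarith
  · obtain ⟨h1, h2⟩ := hz
    set δ : ℝ := min (z₀.re - a) (b - z₀.re) with hδ
    have hδ0 : 0 < δ := lt_min (by linarith) (by linarith)
    have hae : ∀ᵐ x : ℝ ∂m, x ∉ Set.Ioo a b := measure_eq_zero_iff_ae_notMem.1 h
    refine ⟨δ / 2, by positivity, ?_⟩
    filter_upwards [hae] with x hx z hzb
    rw [Metric.mem_ball, Complex.dist_eq] at hzb
    have h3 : |z.re - z₀.re| ≤ ‖z - z₀‖ := by
      have := Complex.abs_re_le_norm (z - z₀)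
      rwa [Complex.sub_re] at this
    have h4 : |x - z.re| ≤ ‖(x : ℂ) - z‖ := by
      have := Complex.abs_re_le_norm ((x : ℂ) - z)
      rwa [Complex.sub_re, Complex.ofReal_re] at this
    have h5 := abs_le.1 (h3.trans hzb.le)
    have h6 : δ ≤ z₀.re - a := min_le_left _ _
    have h7 : δ ≤ b - z₀.re := min_le_right _ _
    rw [Set.mem_Ioo, not_and_or, not_lt, not_lt] at hx
    rcases hx with hx | hx
    · have h8 : -(x - z.re) ≤ |x - z.re| := neg_le_abs _
      linarith [h5.1]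
    · have h8 : x - z.re ≤ |x - z.re| := le_abs_self _
      linarith [h5.2]

lemma meas (m : Measure ℝ) (z : ℂ) : AEStronglyMeasurable (fun x : ℝ => ((x : ℂ) - z)⁻¹) m := by
  apply Measurable.aestronglyMeasurable
  fun_prop

lemma diff (m : Measure ℝ) [IsFiniteMeasure m] (a b : ℝ) (h : m (Set.Ioo a b) = 0) {z₀ : ℂ}
    (hz : z₀ ∈ Om a b) :
    DifferentiableAt ℂ (fun z => ∫ x : ℝ, ((x : ℂ) - z)⁻¹ ∂m) z₀ := by
  obtain ⟨r, hr, hae⟩ := dist_lower m a b h hz
  have key := hasDerivAt_integral_of_dominated_loc_of_deriv_le (μ := m)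
    (F := fun (z : ℂ) (x : ℝ) => ((x : ℂ) - z)⁻¹)
    (F' := fun (z : ℂ) (x : ℝ) => (((x : ℂ) - z) ^ 2)⁻¹) (x₀ := z₀)
    (bound := fun _ => (r ^ 2)⁻¹) (Metric.ball_mem_nhds z₀ hr)
    (Filter.Eventually.of_forall fun z => meas m z) ?_ ?_ ?_ (integrable_const _) ?_
  · exact key.2.differentiableAt
  · refine Integrable.of_bound (C := r⁻¹) (meas m z₀) ?_
    filter_upwards [hae] with x hx
    rw [norm_inv]
    exact inv_anti₀ hr (hx z₀ (Metric.mem_ball_self hr))
  · apply Measurable.aestronglyMeasurable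
    fun_prop
  · filter_upwards [hae] with x hx z hzb
    rw [norm_inv, norm_pow]
    exact inv_anti₀ (by positivity) (pow_le_pow_left₀ hr.le (hx z hzb) 2)
  · filter_upwards [hae] with x hx z hzb
    have h1 := hx z hzb
    have hne : (x : ℂ) - z ≠ 0 := by
      intro h0
      rw [h0, norm_zero] at h1
      linarith
    have h2 : HasDerivAt (fun z : ℂ => (x : ℂ) - z) (-1) z := by
      simpa using (hasDerivAt_id z).const_sub (x : ℂ)
    have h3 := h2.fun_inv hne
    have e : -(-1 : ℂ) / ((x : ℂ) - z) ^ 2 = (((x : ℂ) - z) ^ 2)⁻¹ := by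
      rw [neg_neg, one_div]
    rwa [e] at h3

end BO

theorem borel_an (m : Measure ℝ) [IsFiniteMeasure m] (a b : ℝ) (h : m (Set.Ioo a b) = 0) :
    An a b (fun z => ∫ x : ℝ, ((x : ℂ) - z)⁻¹ ∂m) :=
  ⟨fun z => ∫ x : ℝ, ((x : ℂ) - z)⁻¹ ∂m,
    fun _ hz => (BO.diff m a b h hz).differentiableWithinAt, fun _ _ => rfl⟩

end Pool.Agent.TH369.AN
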