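import Pool.Agent.TH369.AN.Defs
import Pool.Agent.TH369.AN.RES
import Pool.Agent.TH369.AN.BO
import Pool.Agent.TH369.AN.AL
import Pool.Agent.TH369.AN.SB
import Pool.Agent.TH369.AN.KM
import Pool.Agent.H54R3.Spec508

/-!
# A vector without spectral mass in an interval: all matrix elements of the resolvent extend
(job 3668, helper692)
-/

set_option autoImplicit false
open MeasureTheory Filter Topology
open scoped InnerProductSpace

namespace Pool.Agent.TH369.AN

variable {X : Type} [NormedAddCommGroup X] [InnerProductSpace ℂ X] [CompleteSpace X]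

namespace SP1

/-- the spectral measure -/
def SM (T : X →L[ℂ] X) (φ : X) (m : Measure ℝ) : Prop :=
  ∀ f : ℝ → ℝ, Continuous f →
      Integrable f m ∧ ((∫ x, f x ∂m : ℝ) : ℂ) = ⟪φ, cfc f T φ⟫_ℂ

theorem exists_sm (T : X →L[ℂ] X) (hT : IsSelfAdjoint T) (φ : X) :
    ∃ m : Measure ℝ, IsFiniteMeasure m ∧ SM T φ m := by
  obtain ⟨m, h1, -, -, h2, -⟩ := Pool.Agent.H54R3.Spec508.exists_spectral T hT φ
  exact ⟨m, h1, h2⟩

/-- functions which vanish off the interval kill `φ` -/
theorem cfc_kill (T : X →L[ℂ] X) (hT : IsSelfAdjoint T) {a b : ℝ} {φ : X} (h : KI a b T φ)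
    {θ : ℝ → ℝ} (hθ : Continuous θ) (h0 : ∀ x, x ∉ Set.Ioo a b → θ x = 0) : cfc θ T φ = 0 := by
  obtain ⟨m, hm, hsm⟩ := exists_sm T hT φ
  have h1 : m (Set.Ioo a b) = 0 := (ki_iff T hT a b φ m hsm).1 h
  have h2 := (hsm (fun x => θ x * θ x) (by fun_prop)).2
  have h3 : ∫ x, θ x * θ x ∂m = 0 := by
    apply integral_eq_zero_of_ae
    rw [EventuallyEq, ae_iff]
    refine measure_mono_null ?_ h1
    intro x hx
    by_contra hx2
    apply hx
    show θ x * θ x = 0
    rw [h0 x hx2, mul_zero]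
  rw [h3, cfc_mul θ θ T hθ.continuousOn hθ.continuousOn] at h2
  have hsa : IsSelfAdjoint (cfc θ T) := cfc_predicate θ T
  have h4 : ⟪φ, (cfc θ T * cfc θ T) φ⟫_ℂ = ⟪cfc θ T φ, cfc θ T φ⟫_ℂ := by
    show ⟪φ, cfc θ T (cfc θ T φ)⟫_ℂ = _
    have h5 := ContinuousLinearMap.adjoint_inner_left (cfc θ T) (cfc θ T φ) φ
    rw [(ContinuousLinearMap.isSelfAdjoint_iff'.1 hsa)] at h5
    exact h5.symm
  rw [h4, Complex.ofReal_zero] at h2
  exact inner_self_eq_zero.1 h2.symm

/-- the cut-off functions -/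
noncomputable def co (a b : ℝ) (n : ℕ) (x : ℝ) : ℝ := min 1 (n * tent a b x)

theorem tent_cont (a b : ℝ) : Continuous (tent a b) := by
  unfold tent
  fun_prop

theorem co_cont (a b : ℝ) (n : ℕ) : Continuous (co a b n) := by
  unfold co
  have := tent_cont a b
  fun_prop

theorem tent_nonneg (a b x : ℝ) : 0 ≤ tent a b x := le_max_left _ _

theorem tent_pos {a b x : ℝ} (hx : x ∈ Set.Ioo a b) : 0 < tent a b x := by
  unfold tent
  apply lt_max_of_lt_right
  apply lt_min
  · linarith [hx.1]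
  · linarith [hx.2]

theorem tent_zero {a b x : ℝ} (hx : x ∉ Set.Ioo a b) : tent a b x = 0 := by
  unfold tent
  apply max_eq_left
  by_contra h
  push Not at h
  apply hx
  have h1 := lt_min_iff.1 h
  exact ⟨by linarith [h1.1], by linarith [h1.2]⟩

theorem co_nonneg (a b : ℝ) (n : ℕ) (x : ℝ) : 0 ≤ co a b n x :=
  le_min zero_le_one (mul_nonneg (Nat.cast_nonneg n) (tent_nonneg a b x))

theorem co_le (a b : ℝ) (n : ℕ) (x : ℝ) : co a b n x ≤ 1 := min_le_left _ _

theorem co_zero {a b : ℝ} (n : ℕ) {x : ℝ} (hx : x ∉ Set.Ioo a b) : co a b n x = 0 := by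
  unfold co
  rw [tent_zero hx, mul_zero]
  exact min_eq_right zero_le_one

theorem co_lim (a b x : ℝ) :
    Tendsto (fun n => co a b n x) atTop (𝓝 ((Set.Ioo a b).indicator (fun _ => (1:ℝ)) x)) := by
  by_cases hx : x ∈ Set.Ioo a b
  · rw [Set.indicator_of_mem hx]
    have h1 := tent_pos hx
    apply tendsto_const_nhds.congr'
    obtain ⟨N, hN⟩ := exists_nat_ge (1 / tent a b x)
    filter_upwards [eventually_ge_atTop N] with n hn
    unfold co
    rw [min_eq_left]
    have h2 : (N : ℝ) ≤ n := by exact_mod_cast hn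
    have h3 : 1 / tent a b x ≤ n := hN.trans h2
    rwa [div_le_iff₀ h1] at h3
  · rw [Set.indicator_of_notMem hx]
    apply tendsto_const_nhds.congr
    intro n
    exact (co_zero n hx).symm

theorem lim_int (m : Measure ℝ) [IsFiniteMeasure m] (a b : ℝ)
    (f : BoundedContinuousFunction ℝ ℝ) :
    Tendsto (fun n => ∫ x, f x * co a b n x ∂m) atTop (𝓝 (∫ x in Set.Ioo a b, f x ∂m)) := by
  have h1 : ∫ x in Set.Ioo a b, f x ∂m = ∫ x, f x * (Set.Ioo a b).indicator (fun _ => (1:ℝ)) x ∂m := by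
    rw [← integral_indicator measurableSet_Ioo]
    apply integral_congr_ae
    refine Eventually.of_forall fun x => ?_
    by_cases hx : x ∈ Set.Ioo a b
    · simp only [Set.indicator_of_mem hx, mul_one]
    · simp only [Set.indicator_of_notMem hx, mul_zero]
  rw [h1]
  apply tendsto_integral_of_dominated_convergence (fun _ => ‖f‖)
  · intro n
    exact (f.continuous.mul (co_cont a b n)).aestronglyMeasurable
  · exact integrable_const _
  · intro n
    refine Eventually.of_forall fun x => ?_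
    rw [norm_mul]
    have h2 : ‖co a b n x‖ ≤ 1 := by
      rw [Real.norm_eq_abs, abs_of_nonneg (co_nonneg a b n x)]
      exact co_le a b n x
    calc ‖f x‖ * ‖co a b n x‖ ≤ ‖f‖ * 1 :=
          mul_le_mul (f.norm_coe_le_norm x) h2 (norm_nonneg _) (norm_nonneg _)
      _ = ‖f‖ := mul_one _
  · refine Eventually.of_forall fun x => ?_
    exact (co_lim a b x).const_mul _

/-- `ψ + k φ` and `ψ` have the same spectral measure on the interval -/
theorem restr_eq (T : X →L[ℂ] X) (hT : IsSelfAdjoint T) {a b : ℝ} {φ : X} (h : KI a b T φ)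
    (ψ : X) (k : ℂ) (m m0 : Measure ℝ) [IsFiniteMeasure m] [IsFiniteMeasure m0]
    (hm : SM T (ψ + k • φ) m) (hm0 : SM T ψ m0) :
    m.restrict (Set.Ioo a b) = m0.restrict (Set.Ioo a b) := by
  apply ext_of_forall_integral_eq_of_IsFiniteMeasure
  intro f
  refine tendsto_nhds_unique (lim_int m a b f) ?_
  have h1 : ∀ n, ∫ x, f x * co a b n x ∂m = ∫ x, f x * co a b n x ∂m0 := by
    intro n
    set θ : ℝ → ℝ := fun x => f x * co a b n x with hθ
    have hc : Continuous θ := f.continuous.mul (co_cont a b n)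
    have hk : cfc θ T φ = 0 := cfc_kill T hT h hc (fun x hx => by
      simp only [hθ]
      rw [co_zero n hx, mul_zero])
    have h2 := (hm θ hc).2
    have h3 := (hm0 θ hc).2
    have hsa : IsSelfAdjoint (cfc θ T) := cfc_predicate θ T
    have h4 : ⟪φ, cfc θ T ψ⟫_ℂ = 0 := by
      have h5 := ContinuousLinearMap.adjoint_inner_left (cfc θ T) ψ φ
      rw [(ContinuousLinearMap.isSelfAdjoint_iff'.1 hsa)] at h5
      rw [← h5, hk, inner_zero_left]
    rw [map_add, map_smul, hk, smul_zero, add_zero, inner_add_left, inner_smul_left, h4, mul_zero,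
      add_zero, ← h3] at h2
    exact_mod_cast h2
  exact (lim_int m0 a b f).congr fun n => (h1 n).symm

theorem inv_int (m : Measure ℝ) [IsFiniteMeasure m] {z : ℂ} (hz : z.im ≠ 0) :
    Integrable (fun x : ℝ => ((x : ℂ) - z)⁻¹) m := by
  refine Integrable.mono' (integrable_const (|z.im|⁻¹)) ?_ ?_
  · exact (by fun_prop : Measurable fun x : ℝ => ((x : ℂ) - z)⁻¹).aestronglyMeasurable
  · refine Eventually.of_forall fun x => ?_
    rw [norm_inv]
    apply inv_anti₀ (abs_pos.2 hz)
    have h1 := Complex.abs_im_le_norm ((x : ℂ) - z)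
    rw [Complex.sub_im, Complex.ofReal_im, zero_sub, abs_neg] at h1
    exact h1

/-- the diagonal matrix element is the common part plus an analytic function -/
theorem diag (T : X →L[ℂ] X) (hT : IsSelfAdjoint T) {a b : ℝ} {φ : X} (h : KI a b T φ)
    (ψ : X) (m0 : Measure ℝ) [IsFiniteMeasure m0] (hm0 : SM T ψ m0) (k : ℂ) :
    An a b (fun z => ⟪ψ + k • φ, Rz T z (ψ + k • φ)⟫_ℂ -
      ∫ x in Set.Ioo a b, ((x : ℂ) - z)⁻¹ ∂m0) := by
  obtain ⟨m, hm, hsm⟩ := exists_sm T hT (ψ + k • φ)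
  have h1 := restr_eq T hT h ψ k m m0 hsm hm0
  have h2 : An a b (fun z => ∫ x in (Set.Ioo a b)ᶜ, ((x : ℂ) - z)⁻¹ ∂m) := by
    apply borel_an
    rw [Measure.restrict_apply measurableSet_Ioo, Set.inter_compl_self, measure_empty]
  refine h2.congr fun z hz => ?_
  rw [spec_borel T hT _ m hsm z hz, ← integral_add_compl measurableSet_Ioo (inv_int m hz), h1]
  ring

end SP1

theorem ki_an (T : X →L[ℂ] X) (hT : IsSelfAdjoint T) (a b : ℝ) (hab : a < b) (φ : X)
    (h : KI a b T φ) (ψ : X) : An a b (fun z => ⟪ψ, Rz T z φ⟫_ℂ) := by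
  obtain ⟨m0, hm0, hsm0⟩ := SP1.exists_sm T hT ψ
  have key := SP1.diag T hT h ψ m0 hsm0
  have h1 := (((key 1).sub (key (-1))).sub (((key Complex.I).sub (key (-Complex.I))).cmul
    Complex.I)).cmul (1 / 4)
  refine h1.congr fun z _ => ?_
  simp only [map_add, map_smul, inner_add_left, inner_add_right, inner_smul_left,
    inner_smul_right, map_one, map_neg, Complex.conj_I]
  generalize (∫ x in Set.Ioo a b, ((x : ℂ) - z)⁻¹ ∂m0) = G
  ring_nf
  rw [Complex.I_sq]
  ring

end Pool.Agent.TH369.AN
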