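import Pool.Agent.TH369.AN.Defs
import Pool.Agent.TH369.AN.RES
import Pool.Agent.TH369.AN.SB
import Pool.Agent.TH369.AN.KM
import Pool.Agent.H54R3.Spec508

/-!
# Analytic continuation implies the interval condition (Stieltjes inversion)
-/

set_option autoImplicit false
open MeasureTheory
open scoped InnerProductSpace

namespace Pool.Agent.TH369.AN

namespace SP2

open Filter Topology

lemma norm_le (x : ℝ) (z : ℂ) (hz : z.im ≠ 0) : ‖((x : ℂ) - z)⁻¹‖ ≤ |z.im|⁻¹ := by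
  rw [norm_inv]
  have h1 : |z.im| ≤ ‖(x : ℂ) - z‖ := by
    have h := Complex.abs_im_le_norm ((x : ℂ) - z)
    simpa using h
  exact inv_anti₀ (abs_pos.2 hz) h1

lemma ne_zero (x : ℝ) (z : ℂ) (hz : z.im ≠ 0) : (x : ℂ) - z ≠ 0 := by
  intro h
  have := congrArg Complex.im h
  simp at this
  exact hz this

lemma int_inv (m : Measure ℝ) [IsFiniteMeasure m] (z : ℂ) (hz : z.im ≠ 0) :
    Integrable (fun x : ℝ => ((x : ℂ) - z)⁻¹) m := by
  have hc : Continuous (fun x : ℝ => ((x : ℂ) - z)⁻¹) :=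
    Continuous.inv₀ (by fun_prop) (fun x => ne_zero x z hz)
  refine Integrable.of_bound hc.aestronglyMeasurable (|z.im|⁻¹) ?_
  exact Eventually.of_forall fun x => norm_le x z hz

lemma im_inv (x E ε : ℝ) :
    (((x : ℂ) - ((E : ℂ) + (ε : ℂ) * Complex.I))⁻¹).im = ε / ((x - E) ^ 2 + ε ^ 2) := by
  rw [Complex.inv_im, Complex.normSq_apply]
  have h1 : ((x : ℂ) - ((E : ℂ) + (ε : ℂ) * Complex.I)).im = -ε := by simp
  have h2 : ((x : ℂ) - ((E : ℂ) + (ε : ℂ) * Complex.I)).re = x - E := by simp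
  rw [h1, h2]
  congr 1
  · ring
  · ring

lemma mass (m : Measure ℝ) [IsFiniteMeasure m] (E ε : ℝ) (hε : 0 < ε) :
    m.real (Set.Icc (E - ε) (E + ε)) ≤
      2 * ε * (∫ x : ℝ, ((x : ℂ) - ((E : ℂ) + (ε : ℂ) * Complex.I))⁻¹ ∂m).im := by
  have hz : ((E : ℂ) + (ε : ℂ) * Complex.I).im ≠ 0 := by simp [hε.ne']
  have hi := int_inv m _ hz
  have h1 : (∫ x : ℝ, ((x : ℂ) - ((E : ℂ) + (ε : ℂ) * Complex.I))⁻¹ ∂m).im =
      ∫ x : ℝ, ε / ((x - E) ^ 2 + ε ^ 2) ∂m := by
    have h := Complex.imCLM.integral_comp_comm hi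
    rw [← Complex.imCLM_apply, ← h]
    refine integral_congr_ae (Eventually.of_forall fun x => ?_)
    exact im_inv x E ε
  have hi2 : Integrable (fun x : ℝ => ε / ((x - E) ^ 2 + ε ^ 2)) m := by
    have h := Complex.imCLM.integrable_comp hi
    refine h.congr (Eventually.of_forall fun x => ?_)
    exact im_inv x E ε
  have h2 : ∫ x : ℝ, (Set.Icc (E - ε) (E + ε)).indicator (fun _ => (2 * ε)⁻¹) x ∂m ≤
      ∫ x : ℝ, ε / ((x - E) ^ 2 + ε ^ 2) ∂m := by
    refine integral_mono ?_ hi2 fun x => ?_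
    · exact (integrable_const _).indicator measurableSet_Icc
    · by_cases hx : x ∈ Set.Icc (E - ε) (E + ε)
      · rw [Set.indicator_of_mem hx]
        have h3 : (x - E) ^ 2 ≤ ε ^ 2 := by
          apply sq_le_sq'
          · linarith [hx.1]
          · linarith [hx.2]
        change (2 * ε)⁻¹ ≤ ε / ((x - E) ^ 2 + ε ^ 2)
        rw [inv_eq_one_div, div_le_div_iff₀ (by positivity) (by positivity)]
        nlinarith
      · rw [Set.indicator_of_notMem hx]
        change 0 ≤ ε / ((x - E) ^ 2 + ε ^ 2)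
        positivity
  rw [integral_indicator_const _ measurableSet_Icc, smul_eq_mul] at h2
  rw [h1]
  have h4 : m.real (Set.Icc (E - ε) (E + ε)) =
      2 * ε * (m.real (Set.Icc (E - ε) (E + ε)) * (2 * ε)⁻¹) := by
    field_simp
  rw [h4]
  exact mul_le_mul_of_nonneg_left h2 (by positivity)

lemma conj_q (m : Measure ℝ) (z : ℂ) :
    ∫ x : ℝ, ((x : ℂ) - (starRingEnd ℂ) z)⁻¹ ∂m =
      (starRingEnd ℂ) (∫ x : ℝ, ((x : ℂ) - z)⁻¹ ∂m) := by
  rw [← integral_conj]
  refine integral_congr_ae (Eventually.of_forall fun x => ?_)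
  simp

lemma mem_om {a b E : ℝ} (hE : E ∈ Set.Ioo a b) : (E : ℂ) ∈ Om a b := by
  right
  simpa using hE

lemma isOpen_om (a b : ℝ) : IsOpen (Om a b) := by
  unfold Om
  have h1 : IsOpen {z : ℂ | z.im ≠ 0} := isOpen_ne_fun Complex.continuous_im continuous_const
  have h2 : IsOpen {z : ℂ | a < z.re ∧ z.re < b} :=
    (isOpen_lt continuous_const Complex.continuous_re).inter
      (isOpen_lt Complex.continuous_re continuous_const)
  exact h1.union h2

lemma lim_im {a b : ℝ} {g : ℂ → ℂ} (hg : ContinuousOn g (Om a b)) (m : Measure ℝ)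
    (h : ∀ z : ℂ, z.im ≠ 0 → g z = ∫ x : ℝ, ((x : ℂ) - z)⁻¹ ∂m) {E : ℝ} (hE : E ∈ Set.Ioo a b) :
    (g E).im = 0 := by
  have hc : ContinuousAt g (E : ℂ) := hg.continuousAt ((isOpen_om a b).mem_nhds (mem_om hE))
  have t1 : Tendsto (fun ε : ℝ => (E : ℂ) + (ε : ℂ) * Complex.I) (𝓝[>] 0) (𝓝 (E : ℂ)) := by
    have h0 : Tendsto (fun ε : ℝ => (E : ℂ) + (ε : ℂ) * Complex.I) (𝓝 0)
        (𝓝 ((E : ℂ) + ((0 : ℝ) : ℂ) * Complex.I)) := by
      apply Continuous.tendsto
      fun_prop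
    simp only [Complex.ofReal_zero, zero_mul, add_zero] at h0
    exact h0.mono_left nhdsWithin_le_nhds
  have t2 : Tendsto (fun ε : ℝ => (starRingEnd ℂ) ((E : ℂ) + (ε : ℂ) * Complex.I)) (𝓝[>] 0)
      (𝓝 (E : ℂ)) := by
    have h0 := (Complex.continuous_conj.tendsto (E : ℂ)).comp t1
    rw [Complex.conj_ofReal] at h0
    exact h0
  have s1 := hc.tendsto.comp t1
  have s2 := hc.tendsto.comp t2
  have s3 : Tendsto (fun ε : ℝ => (starRingEnd ℂ) (g ((E : ℂ) + (ε : ℂ) * Complex.I))) (𝓝[>] 0)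
      (𝓝 ((starRingEnd ℂ) (g E))) := (Complex.continuous_conj.tendsto _).comp s1
  have s4 : (fun ε : ℝ => (starRingEnd ℂ) (g ((E : ℂ) + (ε : ℂ) * Complex.I))) =ᶠ[𝓝[>] 0]
      (g ∘ fun ε : ℝ => (starRingEnd ℂ) ((E : ℂ) + (ε : ℂ) * Complex.I)) := by
    filter_upwards [self_mem_nhdsWithin] with ε hε
    have hε' : (0 : ℝ) < ε := hε
    have h1 : ((E : ℂ) + (ε : ℂ) * Complex.I).im ≠ 0 := by simp [hε'.ne']
    have h2 : ((starRingEnd ℂ) ((E : ℂ) + (ε : ℂ) * Complex.I)).im ≠ 0 := by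
      rw [Complex.conj_im]
      exact neg_ne_zero.2 h1
    rw [Function.comp_apply, h _ h1, h _ h2, conj_q]
  have s5 := tendsto_nhds_unique (s3.congr' s4) s2
  have := congrArg Complex.im s5
  rw [Complex.conj_im] at this
  linarith

lemma main (m : Measure ℝ) [IsFiniteMeasure m] (a b : ℝ) (g : ℂ → ℂ)
    (hg : ContinuousOn g (Om a b))
    (h : ∀ z : ℂ, z.im ≠ 0 → g z = ∫ x : ℝ, ((x : ℂ) - z)⁻¹ ∂m) : m (Set.Ioo a b) = 0 := by
  set F : ℝ → ℝ := fun t => m.real (Set.Iic t) with hF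
  have hdiff : ∀ s t : ℝ, s ≤ t → F t - F s = m.real (Set.Ioc s t) := by
    intro s t hst
    have h1 : Set.Iic t = Set.Iic s ∪ Set.Ioc s t := (Set.Iic_union_Ioc_eq_Iic hst).symm
    have h2 : m.real (Set.Iic t) = m.real (Set.Iic s) + m.real (Set.Ioc s t) := by
      rw [h1, measureReal_union _ measurableSet_Ioc]
      rw [Set.disjoint_left]
      intro x hx hx'
      exact absurd hx'.1 (not_lt.2 hx)
    simp only [hF]
    linarith
  have hd : ∀ E ∈ Set.Ioo a b, HasDerivAt F 0 E := by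
    intro E hE
    have hc : ContinuousAt g (E : ℂ) := hg.continuousAt ((isOpen_om a b).mem_nhds (mem_om hE))
    rw [hasDerivAt_iff_isLittleO, Asymptotics.isLittleO_iff]
    intro c hc0
    have t1 : Tendsto (fun t : ℝ => (g ((E : ℂ) + ((|t - E| : ℝ) : ℂ) * Complex.I)).im) (𝓝 E)
        (𝓝 0) := by
      have h0 : Tendsto (fun t : ℝ => (E : ℂ) + ((|t - E| : ℝ) : ℂ) * Complex.I) (𝓝 E)
          (𝓝 ((E : ℂ) + ((|E - E| : ℝ) : ℂ) * Complex.I)) := by
        apply Continuous.tendsto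
        fun_prop
      simp only [sub_self, abs_zero, Complex.ofReal_zero, zero_mul, add_zero] at h0
      have h1 := (Complex.continuous_im.tendsto _).comp (hc.tendsto.comp h0)
      rw [lim_im hg m h hE] at h1
      exact h1
    have ev := t1.eventually (gt_mem_nhds (show (0 : ℝ) < c / 2 by positivity))
    filter_upwards [ev] with t ht
    rw [smul_zero, sub_zero, Real.norm_eq_abs, Real.norm_eq_abs]
    by_cases hte : t = E
    · subst hte; simp
    have hpos : 0 < |t - E| := abs_pos.2 (sub_ne_zero.2 hte)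
    have hm := mass m E |t - E| hpos
    rw [← h _ (by simp [hpos.ne'])] at hm
    have h2 : |F t - F E| ≤ m.real (Set.Icc (E - |t - E|) (E + |t - E|)) := by
      rcases lt_or_gt_of_ne hte with h3 | h3
      · rw [abs_sub_comm, hdiff t E h3.le, abs_of_nonneg measureReal_nonneg]
        refine measureReal_mono ?_ (measure_ne_top _ _)
        rw [abs_of_neg (by linarith)]
        intro x hx
        exact ⟨by linarith [hx.1], by linarith [hx.2]⟩
      · rw [hdiff E t h3.le, abs_of_nonneg measureReal_nonneg]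
        refine measureReal_mono ?_ (measure_ne_top _ _)
        rw [abs_of_pos (by linarith)]
        intro x hx
        exact ⟨by linarith [hx.1], by linarith [hx.2]⟩
    calc |F t - F E| ≤ _ := h2
      _ ≤ _ := hm
      _ ≤ 2 * |t - E| * (c / 2) := mul_le_mul_of_nonneg_left ht.le (by positivity)
      _ = c * |t - E| := by ring
  have hconst : ∀ s ∈ Set.Ioo a b, ∀ t ∈ Set.Ioo a b, F s = F t := by
    intro s hs t ht
    refine isOpen_Ioo.is_const_of_deriv_eq_zero isPreconnected_Ioo ?_ ?_ hs ht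
    · exact fun x hx => (hd x hx).differentiableAt.differentiableWithinAt
    · exact fun x hx => (hd x hx).deriv
  have hnull : ∀ s ∈ Set.Ioo a b, ∀ t ∈ Set.Ioo a b, s ≤ t → m (Set.Ioc s t) = 0 := by
    intro s hs t ht hst
    have h1 := hdiff s t hst
    rw [hconst s hs t ht, sub_self] at h1
    exact (measureReal_eq_zero_iff (measure_ne_top _ _)).1 h1.symm
  have hcover : Set.Ioo a b ⊆ ⋃ p : {p : ℚ × ℚ // a < p.1 ∧ (p.1 : ℝ) ≤ p.2 ∧ (p.2 : ℝ) < b},
      Set.Ioc (p.1.1 : ℝ) (p.1.2 : ℝ) := by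
    intro x hx
    obtain ⟨p, hp1, hp2⟩ := exists_rat_btwn hx.1
    obtain ⟨q, hq1, hq2⟩ := exists_rat_btwn hx.2
    rw [Set.mem_iUnion]
    exact ⟨⟨(p, q), hp1, by linarith, hq2⟩, hp2, hq1.le⟩
  refine measure_mono_null hcover ?_
  rw [measure_iUnion_null_iff]
  rintro ⟨⟨p, q⟩, h1, h2, h3⟩
  exact hnull p ⟨h1, by simp only at *; linarith⟩ q ⟨by simp only at *; linarith, h3⟩ h2

end SP2

variable {X : Type} [NormedAddCommGroup X] [InnerProductSpace ℂ X] [CompleteSpace X]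

theorem an_ki (T : X →L[ℂ] X) (hT : IsSelfAdjoint T) (a b : ℝ) (hab : a < b) (φ : X)
    (h : An a b (fun z => ⟪φ, Rz T z φ⟫_ℂ)) : KI a b T φ := by
  obtain ⟨m, hfin, -, -, hm, -, -⟩ := Pool.Agent.H54R3.Spec508.exists_spectral T hT φ
  obtain ⟨g, hg, hgf⟩ := h
  rw [ki_iff T hT a b φ m hm]
  refine SP2.main m a b g hg.continuousOn fun z hz => ?_
  rw [hgf z hz]
  exact spec_borel T hT φ m hm z hz

end Pool.Agent.TH369.AN
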