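import Pool.Agent.TH369.AN.Defs
import Pool.Agent.TH369.AN.RES
import Pool.Agent.TH369.AN.AL
import Pool.Agent.TH369.AN.SP1
import Pool.Agent.TH369.AN.SP2
import Pool.Agent.TH369.AN.DIV
import Pool.Agent.TH369.AN.RO
import Pool.Agent.TH369.AN.ATOM

/-!
Job AN-STAR of helper369 (written by helper359): cyclicity under rank one perturbation, up to
countably many exceptions.
-/

set_option autoImplicit false
open MeasureTheory
open scoped InnerProductSpace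

namespace Pool.Agent.TH369.AN

variable {X : Type} [NormedAddCommGroup X] [InnerProductSpace ℂ X] [CompleteSpace X]

namespace STAR

omit [CompleteSpace X] in
theorem pt_apply (T : X →L[ℂ] X) (e : X) (s : ℝ) (w : X) :
    pt T e s w = T w + ((s : ℂ) * ⟪e, w⟫_ℂ) • e := by
  unfold pt ro
  rw [add_apply, smul_apply, ContinuousLinearMap.smulRight_apply,
    innerSL_apply_apply, smul_smul]

/-- the function `⟪e, R z φ⟫` does not vanish identically -/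
theorem nonzero (T : X →L[ℂ] X) (hT : IsSelfAdjoint T) (e φ : X) (h0 : ⟪e, φ⟫_ℂ = 0)
    (h1 : ⟪e, T φ⟫_ℂ ≠ 0) (s : ℝ) :
    ∃ z : ℂ, z.im ≠ 0 ∧ ⟪e, Rz (pt T e s) z φ⟫_ℂ ≠ 0 := by
  by_contra hcon
  push Not at hcon
  have hsym : ∀ x y : X, ⟪T x, y⟫_ℂ = ⟪x, T y⟫_ℂ := by
    intro x y
    have := ContinuousLinearMap.adjoint_inner_left T y x
    rw [← ContinuousLinearMap.star_eq_adjoint, hT.star_eq] at this
    exact this
  have key : ∀ y : ℝ, 0 < y → ‖⟪e, T φ⟫_ℂ‖ ≤ ‖T e‖ * (‖T‖ * (‖φ‖ / y)) := by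
    intro y hy
    have hz : ((y : ℂ) * Complex.I).im ≠ 0 := by
      simp
      exact hy.ne'
    obtain ⟨w, hw⟩ : ∃ w, w = Rz (pt T e s) ((y : ℂ) * Complex.I) φ := ⟨_, rfl⟩
    have e1 := rz_eq (pt T e s) (pt_sa T hT e s) _ hz φ
    have e2 := rz_norm (pt T e s) (pt_sa T hT e s) _ hz φ
    have e3 := hcon _ hz
    rw [← hw] at e1 e2 e3
    rw [pt_apply, e3, mul_zero, zero_smul, add_zero] at e1
    have e4 : ⟪e, T w⟫_ℂ = 0 := by
      have := congrArg (fun x => ⟪e, x⟫_ℂ) e1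
      simp only [inner_sub_right, inner_smul_right, e3, h0, mul_zero, sub_zero] at this
      exact this
    have e5 : ⟪T e, w⟫_ℂ = 0 := by rw [hsym]; exact e4
    have e6 : ⟪e, T φ⟫_ℂ = ⟪T e, T w⟫_ℂ := by
      rw [← hsym, ← e1, inner_sub_right, inner_smul_right, e5, mul_zero, sub_zero]
    rw [e6]
    have e7 : |((y : ℂ) * Complex.I).im| = y := by
      simp
      exact hy.le
    rw [e7] at e2
    calc ‖⟪T e, T w⟫_ℂ‖ ≤ ‖T e‖ * ‖T w‖ := norm_inner_le_norm _ _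
      _ ≤ ‖T e‖ * (‖T‖ * ‖w‖) := mul_le_mul_of_nonneg_left (T.le_opNorm w) (norm_nonneg _)
      _ ≤ _ := mul_le_mul_of_nonneg_left (mul_le_mul_of_nonneg_left e2 (norm_nonneg _))
        (norm_nonneg _)
  have hc : 0 < ‖⟪e, T φ⟫_ℂ‖ := norm_pos_iff.2 h1
  obtain ⟨C, hC⟩ : ∃ C, C = ‖T e‖ * (‖T‖ * ‖φ‖) := ⟨_, rfl⟩
  have hC0 : 0 ≤ C := by rw [hC]; positivity
  have hy : 0 < C / ‖⟪e, T φ⟫_ℂ‖ + 1 := by positivity
  have h2 := key _ hy
  have e8 : ‖T e‖ * (‖T‖ * (‖φ‖ / (C / ‖⟪e, T φ⟫_ℂ‖ + 1))) = C / (C / ‖⟪e, T φ⟫_ℂ‖ + 1) := by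
    rw [hC]
    ring
  rw [e8, le_div_iff₀ hy] at h2
  have e9 : ‖⟪e, T φ⟫_ℂ‖ * (C / ‖⟪e, T φ⟫_ℂ‖ + 1) = C + ‖⟪e, T φ⟫_ℂ‖ := by
    field_simp
  rw [e9] at h2
  linarith

end STAR

theorem star (T : X →L[ℂ] X) (hT : IsSelfAdjoint T) (e φ : X) (h0 : ⟪e, φ⟫_ℂ = 0)
    (h1 : ⟪e, T φ⟫_ℂ ≠ 0) (a b : ℝ) (hab : a < b) :
    {t : ℝ | KI a b (pt T e t) φ ∧ ¬ KI a b (pt T e t) e}.Countable := by
  rcases Set.eq_empty_or_nonempty {t : ℝ | KI a b (pt T e t) φ ∧ ¬ KI a b (pt T e t) e} with hS | hS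
  · rw [hS]
    exact Set.countable_empty
  obtain ⟨s, hs⟩ := hS
  have hks : KI a b (pt T e s) φ := hs.1
  have hAs := ki_an (pt T e s) (pt_sa T hT e s) a b hab φ hks e
  obtain ⟨Z, hZ, hdiv⟩ := div_an a b hab (fun z => ⟪e, Rz (pt T e s) z φ⟫_ℂ) hAs
    (STAR.nonzero T hT e φ h0 h1 s)
  have key : ∀ t : ℝ, KI a b (pt T e t) φ → ¬ KI a b (pt T e t) e → t ≠ s →
      ∃ E ∈ Z, Eig (pt T e t) e E := by
    intro t ht1 ht2 hts
    refine atom (pt T e t) (pt_sa T hT e t) e a b hab Z hZ (fun E hE hEZ => ?_) ht2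
    have hts' : (((t - s : ℝ)) : ℂ) ≠ 0 := by exact_mod_cast sub_ne_zero.2 hts
    have hAt := ki_an (pt T e t) (pt_sa T hT e t) a b hab φ ht1 e
    obtain ⟨a', b', -, ha', hb', -, hG⟩ := hdiv
      (fun z => (((t - s : ℝ)) : ℂ)⁻¹ * (⟪e, Rz (pt T e s) z φ⟫_ℂ - ⟪e, Rz (pt T e t) z φ⟫_ℂ))
      (fun z => ⟪e, Rz (pt T e t) z e⟫_ℂ) (An.cmul _ (An.sub hAs hAt))
      (fun z hz => rz_diff (pt T e t) (pt_sa T hT e t) e e z hz)
      (fun z hz => by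
        have h2 := congrArg (fun x => ⟪e, x⟫_ℂ) (rank_one T hT e φ s t z hz)
        simp only [inner_sub_right, inner_smul_right] at h2
        rw [h2]
        field_simp
        ring)
      E hE hEZ
    exact ⟨a', b', ha', hb', an_ki (pt T e t) (pt_sa T hT e t) a' b' (ha'.trans hb') e hG⟩
  -- the eigenvalue determines the parameter
  classical
  have hsub : {t : ℝ | KI a b (pt T e t) φ ∧ ¬ KI a b (pt T e t) e} ⊆
      insert s {t : ℝ | ∃ E ∈ Z, Eig (pt T e t) e E} := by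
    intro t ht
    by_cases hts : t = s
    · exact Set.mem_insert_iff.2 (Or.inl hts)
    · exact Set.mem_insert_iff.2 (Or.inr (key t ht.1 ht.2 hts))
  refine Set.Countable.mono hsub (Set.Countable.insert s ?_)
  choose! f hf1 hf2 using fun (t : ℝ) (ht : ∃ E ∈ Z, Eig (pt T e t) e E) => ht
  refine Set.MapsTo.countable_of_injOn (f := f) (t := Z) (fun t ht => hf1 t ht) ?_ hZ
  intro t ht t' ht' heq
  have h3 := hf2 t ht
  have h4 := hf2 t' ht'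
  rw [← heq] at h4
  exact eig_uniq T hT e (f t) t t' h3 h4

end Pool.Agent.TH369.AN
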