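import Pool.Agent.TH369.AN.Defs
import Pool.Agent.TH369.AN.OP

/-!
# The lattice operators under changes of one site (job AN-UPD, helper416 for helper369)
-/

set_option autoImplicit false

open MeasureTheory
open scoped InnerProductSpace

namespace Pool.Agent.TH369.AN

variable {d : ℕ}

namespace UPD

lemma ext_op {S T : L2 d →L[ℂ] L2 d}
    (h : ∀ (u : L2 d) (x : Zd d), (S u : Zd d → ℂ) x = (T u : Zd d → ℂ) x) : S = T := by
  refine ContinuousLinearMap.ext fun u => ?_
  apply lp.ext
  funext x
  exact h u x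

lemma ro_coord (j : Zd d) (u : L2 d) (x : Zd d) :
    (ro (dl j) u : Zd d → ℂ) x = if x = j then u j else 0 := by
  have h1 : ro (dl j) u = ⟪dl j, u⟫_ℂ • dl j := rfl
  rw [h1, inner_dl, lp.coeFn_smul, Pi.smul_apply, dl_apply, smul_eq_mul]
  split_ifs <;> simp

lemma sub_ro (j : Zd d) (u : L2 d) (x : Zd d) :
    (((1 : L2 d →L[ℂ] L2 d) - ro (dl j)) u : Zd d → ℂ) x = if x = j then 0 else u x := by
  have h1 : ((1 : L2 d →L[ℂ] L2 d) - ro (dl j)) u = u - ro (dl j) u := rfl
  rw [h1, lp.coeFn_sub, Pi.sub_apply, ro_coord]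
  split_ifs with h
  · rw [h, sub_self]
  · rw [sub_zero]

lemma cl_zero {c : ℝ} (hc : 0 ≤ c) : cl c 0 = 0 := by
  unfold cl
  rw [min_eq_right hc, max_eq_right (neg_nonpos.2 hc)]

lemma ee_inj {i k : Fin d} (h : ee i = ee k) : i = k := by
  by_contra hne
  have h1 := congrFun h i
  simp [ee, hne] at h1

lemma ee_add_ne (i k : Fin d) : ee i + ee k ≠ 0 := by
  intro h
  have h1 := congrFun h i
  simp only [ee, Pi.add_apply, Pi.single_eq_same, Pi.zero_apply] at h1
  have h2 : (0 : ℤ) ≤ (Pi.single k (1 : ℤ) : Fin d → ℤ) i := by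
    by_cases hk : i = k
    · subst hk
      simp
    · rw [Pi.single_eq_of_ne hk]
  omega

lemma ee_ne (i : Fin d) : (ee i : Zd d) ≠ 0 := by
  intro h
  have h1 := congrFun h i
  simp [ee] at h1

end UPD

open UPD

theorem TT_congr (J : Finset (Zd d)) (c : ℝ) (ω ω' : Zd d → ℝ) (h : ∀ x, x ∉ J → ω x = ω' x) :
    TT J c ω = TT J c ω' := by
  refine ext_op fun u x => ?_
  rw [TT_apply, TT_apply]
  unfold act
  split_ifs with hx
  · rfl
  · rw [h x hx]

theorem TT_update (J : Finset (Zd d)) (c : ℝ) (hc : 0 ≤ c) (ω : Zd d → ℝ) (j : Zd d)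
    (hj : j ∉ J) (t : ℝ) :
    TT J c (Function.update ω j t) = pt (TT J c (Function.update ω j 0)) (dl j) (cl c t) := by
  refine ext_op fun u x => ?_
  have h1 : pt (TT J c (Function.update ω j 0)) (dl j) (cl c t) u =
      TT J c (Function.update ω j 0) u + ((cl c t : ℝ) : ℂ) • ro (dl j) u := rfl
  rw [h1, lp.coeFn_add, Pi.add_apply, lp.coeFn_smul, Pi.smul_apply, ro_coord, TT_apply, TT_apply,
    smul_eq_mul]
  unfold act
  by_cases hx : x ∈ J
  · have hxj : x ≠ j := fun h => hj (h ▸ hx)
    rw [if_pos hx, if_pos hx, if_neg hxj]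
    simp
  · rw [if_neg hx, if_neg hx]
    by_cases hxj : x = j
    · subst hxj
      rw [if_pos rfl, Function.update_self, Function.update_self, cl_zero hc]
      push_cast
      ring
    · rw [if_neg hxj, Function.update_of_ne hxj, Function.update_of_ne hxj]
      ring

theorem TT_insert (J : Finset (Zd d)) (c : ℝ) (ω : Zd d → ℝ) (j : Zd d) (hj : j ∉ J) :
    cp (TT J c ω) (dl j) = TT (insert j J) c ω := by
  refine ext_op fun u x => ?_
  have h1 : cp (TT J c ω) (dl j) u = ((1 : L2 d →L[ℂ] L2 d) - ro (dl j))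
      (TT J c ω (((1 : L2 d →L[ℂ] L2 d) - ro (dl j)) u)) := rfl
  rw [h1, sub_ro, TT_apply, TT_apply]
  have h2 : (fun y => (((1 : L2 d →L[ℂ] L2 d) - ro (dl j)) u : Zd d → ℂ) y) =
      fun y => if y = j then 0 else u y := by
    funext y
    exact sub_ro j u y
  rw [h2]
  unfold act
  by_cases hxj : x = j
  · rw [if_pos hxj, if_pos (Finset.mem_insert.2 (Or.inl hxj))]
  · rw [if_neg hxj]
    by_cases hx : x ∈ J
    · rw [if_pos hx, if_pos (Finset.mem_insert.2 (Or.inr hx))]
    · rw [if_neg hx, if_neg (fun h => (Finset.mem_insert.1 h).elim hxj hx)]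
      have h3 : ∀ y : Zd d, (if y ∈ J then (0 : ℂ) else if y = j then 0 else u y) =
          if y ∈ insert j J then 0 else u y := by
        intro y
        by_cases hy : y ∈ J
        · rw [if_pos hy, if_pos (Finset.mem_insert.2 (Or.inr hy))]
        · rw [if_neg hy]
          by_cases hyj : y = j
          · rw [if_pos hyj, if_pos (Finset.mem_insert.2 (Or.inl hyj))]
          · rw [if_neg hyj, if_neg (fun h => (Finset.mem_insert.1 h).elim hyj hy)]
      simp only [h3, if_neg hxj]

theorem adj_inner (J : Finset (Zd d)) (c : ℝ) (ω : Zd d → ℝ) (x : Zd d) (i : Fin d) (hx : x ∉ J)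
    (hy : x + ee i ∉ J) : ⟪dl x, TT J c ω (dl (x + ee i))⟫_ℂ = -1 ∧
      ⟪dl (x + ee i), TT J c ω (dl x)⟫_ℂ = -1 := by
  constructor
  · rw [inner_dl, TT_apply]
    unfold act
    rw [if_neg hx]
    simp only [dl_apply]
    have h1 : ¬ x = x + ee i := fun h => ee_ne i (by
      have := h
      rwa [eq_comm, add_eq_left] at this)
    rw [if_neg h1, mul_zero, zero_sub]
    congr 1
    rw [Finset.sum_eq_single i]
    · have h2 : ¬ x - ee i = x + ee i := by
        intro h
        apply ee_add_ne i i
        have h4 := sub_eq_iff_eq_add.1 h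
        have h5 : x + (ee i + ee i) = x + 0 := by rw [add_zero, ← add_assoc, ← h4]
        exact add_left_cancel h5
      rw [if_neg hy, if_pos rfl, if_neg h2]
      simp
    · intro k _ hk
      have h2 : ¬ x + ee k = x + ee i := fun h => hk (ee_inj (add_left_cancel h))
      have h3 : ¬ x - ee k = x + ee i := by
        intro h
        apply ee_add_ne i k
        have h4 := sub_eq_iff_eq_add.1 h
        have h5 : x + (ee i + ee k) = x + 0 := by rw [add_zero, ← add_assoc, ← h4]
        exact add_left_cancel h5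
      rw [if_neg h2, if_neg h3]
      simp
    · intro h
      exact absurd (Finset.mem_univ _) h
  · rw [inner_dl, TT_apply]
    unfold act
    rw [if_neg hy]
    simp only [dl_apply]
    have h1 : ¬ x + ee i = x := fun h => ee_ne i (by rwa [add_eq_left] at h)
    rw [if_neg h1, mul_zero, zero_sub]
    congr 1
    rw [Finset.sum_eq_single i]
    · have h2 : ¬ x + ee i + ee i = x := by
        intro h
        apply ee_add_ne i i
        rwa [add_assoc, add_eq_left] at h
      rw [if_neg h2, add_sub_cancel_right, if_neg hx, if_pos rfl]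
      simp
    · intro k _ hk
      have h2 : ¬ x + ee i + ee k = x := by
        intro h
        apply ee_add_ne i k
        rwa [add_assoc, add_eq_left] at h
      have h3 : ¬ x + ee i - ee k = x := by
        intro h
        rw [sub_eq_iff_eq_add] at h
        exact hk (ee_inj (add_left_cancel h)).symm
      rw [if_neg h2, if_neg h3]
      simp
    · intro h
      exact absurd (Finset.mem_univ _) h

end Pool.Agent.TH369.AN
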