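import Pool.Agent.TH369.AN.Defs
import Pool.Agent.TH369.AN.OP
import Pool.Agent.TH369.AN.UPD
import Pool.Agent.TH369.AN.BAD
import Pool.Agent.TH369.AN.FUB
import Pool.Agent.TH369.AN.STAR
set_option autoImplicit false
open MeasureTheory
open scoped InnerProductSpace
namespace Pool.Agent.TH369.AN
variable {d : ℕ}

theorem ADJ.ee_ne (i : Fin d) : ee i ≠ (0 : Zd d) := by
  intro h
  have := congrFun h i
  simp [ee] at this

theorem adj_ae (c : ℝ) (hc : 0 ≤ c) (μ : Measure ℝ) [IsProbabilityMeasure μ]
    (hna : ∀ x : ℝ, μ {x} = 0) (hμ : μ (Set.Icc (-c) c)ᶜ = 0) (J : Finset (Zd d)) (x y : Zd d) (hx : x ∉ J) (hy : y ∉ J)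
    (hxy : ∃ i : Fin d, y = x + ee i ∨ y = x - ee i) (a b : ℝ) (hab : a < b) :
    ∀ᵐ ω ∂(iid d μ), KI a b (TT J c ω) (dl x) → KI a b (TT J c ω) (dl y) := by
  set S : Set (Zd d → ℝ) :=
    {ω | KI a b (TT J c ω) (dl x)} ∩ {ω | KI a b (TT J c ω) (dl y)}ᶜ with hS
  have hSm : MeasurableSet S := (meas_ki J a b c hc x).inter (meas_ki J a b c hc y).compl
  have hyx : y ≠ x := by
    obtain ⟨i, h | h⟩ := hxy
    · intro h'
      apply ADJ.ee_ne i
      rw [h'] at h
      simpa using h
    · intro h'
      apply ADJ.ee_ne i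
      rw [h'] at h
      have := sub_eq_self.1 h.symm
      exact this
  have hna' : NullSingletonClass μ := ⟨hna⟩
  have key : iid d μ S = 0 := by
    refine null_of_sections μ y S hSm (Filter.Eventually.of_forall fun ω => ?_)
    have h0 : ⟪dl y, dl x⟫_ℂ = (0 : ℂ) := by
      rw [inner_dl, dl_apply, if_neg hyx]
    have h1 : ⟪dl y, TT J c (Function.update ω y 0) (dl x)⟫_ℂ ≠ (0 : ℂ) := by
      obtain ⟨i, h | h⟩ := hxy
      · have := (adj_inner J c (Function.update ω y 0) x i hx (by rw [← h]; exact hy)).2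
        rw [← h] at this
        rw [this]
        norm_num
      · have hx' : x = y + ee i := by rw [h]; abel
        have := (adj_inner J c (Function.update ω y 0) y i hy (by rw [← hx']; exact hx)).1
        rw [← hx'] at this
        rw [this]
        norm_num
    have hN := star (TT J c (Function.update ω y 0)) (TT_sa J c _) (dl y) (dl x) h0 h1 a b hab
    refine measure_mono_null (t := (Set.Icc (-c) c)ᶜ ∪
      {t : ℝ | KI a b (pt (TT J c (Function.update ω y 0)) (dl y) t) (dl x) ∧
        ¬ KI a b (pt (TT J c (Function.update ω y 0)) (dl y) t) (dl y)}) ?_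
      (measure_union_null hμ (hN.measure_zero μ))
    intro t ht
    by_cases htc : t ∈ Set.Icc (-c) c
    · right
      have hcl : cl c t = t := by
        unfold cl
        rw [min_eq_right htc.2, max_eq_right htc.1]
      have hup := TT_update J c hc ω y hy t
      rw [hcl] at hup
      obtain ⟨h1, h2⟩ := ht
      simp only [Set.mem_compl_iff, Set.mem_ofPred_eq] at h1 h2
      rw [hup] at h1 h2
      exact ⟨h1, h2⟩
    · left
      exact htc
  have : ∀ᵐ ω ∂(iid d μ), ω ∉ S := by
    rw [ae_iff]
    simpa using key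
  filter_upwards [this] with ω hω h
  by_contra hcon
  exact hω ⟨h, hcon⟩

end Pool.Agent.TH369.AN
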