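import Pool.Agent.TH369.AN.Defs
import Pool.Agent.TH369.AN.ADJ

/-!
# Propagation along the lattice (team AN, helper369; file by helper267)
-/

set_option autoImplicit false

open MeasureTheory
open scoped InnerProductSpace

namespace Pool.Agent.TH369.AN

variable {d : ℕ}

namespace ALL

/-- the `ℓ¹` distance -/
def dist1 (z w : Zd d) : ℕ := ∑ i, (z i - w i).natAbs

lemma dist1_step {z z' w : Zd d} {i : Fin d} (h1 : ∀ j, j ≠ i → z' j = z j)
    (h2 : (z i - w i).natAbs = (z' i - w i).natAbs + 1) : dist1 z w = dist1 z' w + 1 := by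
  unfold dist1
  rw [← Finset.add_sum_erase _ _ (Finset.mem_univ i), ← Finset.add_sum_erase _
    (fun j => (z' j - w j).natAbs) (Finset.mem_univ i), h2]
  have h3 : ∑ j ∈ Finset.univ.erase i, (z j - w j).natAbs =
      ∑ j ∈ Finset.univ.erase i, (z' j - w j).natAbs := by
    refine Finset.sum_congr rfl fun j hj => ?_
    rw [h1 j (Finset.ne_of_mem_erase hj)]
  rw [h3]
  ring

/-- the half space is connected -/
lemma half {J : Finset (Zd d)} {R : ℤ} {i0 : Fin d} (hJ : ∀ y ∈ J, y i0 ≤ R) {P : Zd d → Prop}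
    (hP : ∀ x y : Zd d, x ∉ J → y ∉ J → (∃ i : Fin d, y = x + ee i ∨ y = x - ee i) → P x → P y) :
    ∀ (n : ℕ) (z w : Zd d), dist1 z w = n → R < z i0 → R < w i0 → P z → P w := by
  have hS : ∀ z : Zd d, R < z i0 → z ∉ J := fun z hz hzJ => absurd (hJ z hzJ) (not_le.2 hz)
  intro n
  induction n with
  | zero =>
    intro z w hn _ _ hz
    have h1 : z = w := by
      funext i
      have h2 := (Finset.sum_eq_zero_iff.1 hn) i (Finset.mem_univ i)
      omega
    rwa [← h1]
  | succ n ih =>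
    intro z w hn hz hw hPz
    obtain ⟨i, hi⟩ : ∃ i, z i ≠ w i := by
      by_contra hcon
      push Not at hcon
      have h1 : dist1 z w = 0 := Finset.sum_eq_zero fun i _ => by rw [hcon i]; simp
      omega
    rcases lt_or_gt_of_ne hi with h | h
    · have hz' : R < (z + ee i) i0 := by
        by_cases h0 : i0 = i
        · subst h0
          simp only [Pi.add_apply, ee, Pi.single_eq_same]
          omega
        · simp only [Pi.add_apply, ee, Pi.single_eq_of_ne h0]
          omega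
      refine ih (z + ee i) w ?_ hz' hw (hP z _ (hS z hz) (hS _ hz') ⟨i, Or.inl rfl⟩ hPz)
      have h2 := dist1_step (z := z) (z' := z + ee i) (w := w) (i := i)
        (fun j hj => by simp [ee, Pi.single_eq_of_ne hj])
        (by simp only [Pi.add_apply, ee, Pi.single_eq_same]; omega)
      omega
    · have hz' : R < (z - ee i) i0 := by
        by_cases h0 : i0 = i
        · subst h0
          simp only [Pi.sub_apply, ee, Pi.single_eq_same]
          omega
        · simp only [Pi.sub_apply, ee, Pi.single_eq_of_ne h0]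
          omega
      refine ih (z - ee i) w ?_ hz' hw (hP z _ (hS z hz) (hS _ hz') ⟨i, Or.inr rfl⟩ hPz)
      have h2 := dist1_step (z := z) (z' := z - ee i) (w := w) (i := i)
        (fun j hj => by simp [ee, Pi.single_eq_of_ne hj])
        (by simp only [Pi.sub_apply, ee, Pi.single_eq_same]; omega)
      omega

/-- along the ray -/
lemma ray {J : Finset (Zd d)} {i0 : Fin d} {x : Zd d} (hx : Ray i0 J x) {P : Zd d → Prop}
    (hP : ∀ x y : Zd d, x ∉ J → y ∉ J → (∃ i : Fin d, y = x + ee i ∨ y = x - ee i) → P x → P y)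
    (h : P x) : ∀ n : ℕ, P (x + (n : ℤ) • ee i0) := by
  intro n
  induction n with
  | zero => simpa using h
  | succ n ih =>
    refine hP _ _ (hx n) (hx (n + 1)) ⟨i0, Or.inl ?_⟩ ih
    push_cast
    rw [add_smul, one_smul, add_assoc]

end ALL

open ALL

theorem all_ae (c : ℝ) (hc : 0 ≤ c) (μ : Measure ℝ) [IsProbabilityMeasure μ]
    (hna : ∀ x : ℝ, μ {x} = 0) (hμ : μ (Set.Icc (-c) c)ᶜ = 0) (i0 : Fin d) (J : Finset (Zd d)) (R : ℤ)
    (hJ : ∀ y ∈ J, y i0 ≤ R) (x : Zd d) (hx : Ray i0 J x) (a b : ℝ) (hab : a < b) :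
    ∀ᵐ ω ∂(iid d μ), KI a b (TT J c ω) (dl x) →
      ∀ y : Zd d, R < y i0 → KI a b (TT J c ω) (dl y) := by
  have h1 : ∀ᵐ ω ∂(iid d μ), ∀ p : Zd d × Zd d,
      (p.1 ∉ J ∧ p.2 ∉ J ∧ ∃ i : Fin d, p.2 = p.1 + ee i ∨ p.2 = p.1 - ee i) →
      KI a b (TT J c ω) (dl p.1) → KI a b (TT J c ω) (dl p.2) := by
    rw [ae_all_iff]
    intro p
    by_cases h : p.1 ∉ J ∧ p.2 ∉ J ∧ ∃ i : Fin d, p.2 = p.1 + ee i ∨ p.2 = p.1 - ee i
    · filter_upwards [adj_ae c hc μ hna hμ J p.1 p.2 h.1 h.2.1 h.2.2 a b hab] with ω hω _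
      exact hω
    · exact Filter.Eventually.of_forall fun ω h' => absurd h' h
  filter_upwards [h1] with ω hω hKx y hy
  have hP : ∀ x y : Zd d, x ∉ J → y ∉ J → (∃ i : Fin d, y = x + ee i ∨ y = x - ee i) →
      KI a b (TT J c ω) (dl x) → KI a b (TT J c ω) (dl y) :=
    fun x y h1 h2 h3 => hω (x, y) ⟨h1, h2, h3⟩
  have h2 := ray hx (P := fun z => KI a b (TT J c ω) (dl z)) hP hKx (R - x i0 + 1).toNat
  refine half hJ (P := fun z => KI a b (TT J c ω) (dl z)) hP _ _ y rfl ?_ hy h2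
  simp only [Pi.add_apply, Pi.smul_apply, ee, Pi.single_eq_same, smul_eq_mul, mul_one]
  omega

end Pool.Agent.TH369.AN

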