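import Mathlib

/-!
# Anderson model with non-atomic single-site law: every finitely supported vector has full
spectral support. Definitions (team AN, helper369).
-/

set_option autoImplicit false

open MeasureTheory
open scoped InnerProductSpace

namespace Pool.Agent.TH369.AN

section abs

variable {X : Type} [NormedAddCommGroup X] [InnerProductSpace ℂ X]

/-- positive exactly on `(a, b)` -/
noncomputable def tent (a b x : ℝ) : ℝ := max 0 (min (x - a) (b - x))

/-- the resolvent -/
noncomputable def Rz (T : X →L[ℂ] X) (z : ℂ) : X →L[ℂ] X := Ring.inverse (T - z • 1)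

/-- the spectral measure of `φ` vanishes on the interval `(a, b)` -/
def KI [CompleteSpace X] (a b : ℝ) (T : X →L[ℂ] X) (φ : X) : Prop := cfc (tent a b) T φ = 0

/-- continuous functional calculus -/
noncomputable def fc [CompleteSpace X] (f : ℝ → ℝ) (T : X →L[ℂ] X) : X →L[ℂ] X := cfc f T

/-- `⟪e, ·⟫ e` -/
noncomputable def ro (e : X) : X →L[ℂ] X := (innerSL ℂ e).smulRight e

/-- the rank one perturbation `T + t ⟪e, ·⟫ e` -/
noncomputable def pt (T : X →L[ℂ] X) (e : X) (t : ℝ) : X →L[ℂ] X := T + (t : ℂ) • ro e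

/-- the compression of `T` to the orthogonal complement of the unit vector `e` -/
noncomputable def cp (T : X →L[ℂ] X) (e : X) : X →L[ℂ] X := (1 - ro e) * T * (1 - ro e)

/-- `E` is an eigenvalue with an eigenvector which is not orthogonal to `e` -/
def Eig (T : X →L[ℂ] X) (e : X) (E : ℝ) : Prop := ∃ ψ : X, T ψ = (E : ℂ) • ψ ∧ ⟪e, ψ⟫_ℂ ≠ 0

end abs

/-- the plane without the real points outside of `(a, b)` -/
def Om (a b : ℝ) : Set ℂ := {z | z.im ≠ 0 ∨ (a < z.re ∧ z.re < b)}

/-- `f`, a function of the non-real `z`, extends analytically across `(a, b)` -/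
def An (a b : ℝ) (f : ℂ → ℂ) : Prop :=
  ∃ g : ℂ → ℂ, DifferentiableOn ℂ g (Om a b) ∧ ∀ z : ℂ, z.im ≠ 0 → g z = f z

/-! ### the lattice -/

abbrev Zd (d : ℕ) : Type := Fin d → ℤ

/-- `ℓ²(ℤ^d)` -/
abbrev L2 (d : ℕ) : Type := lp (fun _ : Zd d => ℂ) 2

/-- the basis vector of the site `x` -/
noncomputable def dl {d : ℕ} (x : Zd d) : L2 d := lp.single 2 x (1 : ℂ)

/-- `e_i` -/
def ee {d : ℕ} (i : Fin d) : Zd d := Pi.single i 1

/-- the potential clipped to `[-c, c]` -/
noncomputable def cl (c x : ℝ) : ℝ := max (-c) (min c x)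

/-- `-Δ + ω` with the sites of `J` removed -/
noncomputable def act {d : ℕ} (J : Finset (Zd d)) (c : ℝ) (ω : Zd d → ℝ) (u : Zd d → ℂ)
    (x : Zd d) : ℂ :=
  if x ∈ J then 0 else
    (2 * d + (cl c (ω x) : ℂ)) * u x -
      ∑ i : Fin d, ((if x + ee i ∈ J then 0 else u (x + ee i)) +
        (if x - ee i ∈ J then 0 else u (x - ee i)))

open Classical in
/-- the operator of `act` -/
noncomputable def TT {d : ℕ} (J : Finset (Zd d)) (c : ℝ) (ω : Zd d → ℝ) : L2 d →L[ℂ] L2 d :=
  if h : ∃ T : L2 d →L[ℂ] L2 d, ∀ u x, (T u : Zd d → ℂ) x = act J c ω (fun y => u y) x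
  then h.choose else 0

/-- the law of iid variables -/
noncomputable def iid (d : ℕ) (μ : Measure ℝ) : Measure (Zd d → ℝ) := Measure.infinitePi fun _ => μ

/-- the environments for which some nonzero vector supported in `Λ` has no spectral mass in
`(a, b)` -/
def Bad {d : ℕ} (J Λ : Finset (Zd d)) (a b c : ℝ) : Set (Zd d → ℝ) :=
  {ω | ∃ φ : L2 d, φ ≠ 0 ∧ (∀ x, x ∉ Λ → φ x = 0) ∧ KI a b (TT J c ω) φ}

/-- the uniform law on `[-c, c]` -/
noncomputable def unif (c : ℝ) : Measure ℝ :=
  ENNReal.ofReal (1 / (2 * c)) • volume.restrict (Set.Icc (-c) c)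

/-- the sites of `J` do not meet the ray from `x` in the direction `e_0` -/
def Ray {d : ℕ} (i0 : Fin d) (J : Finset (Zd d)) (x : Zd d) : Prop :=
  ∀ n : ℕ, x + (n : ℤ) • ee i0 ∉ J

end Pool.Agent.TH369.AN
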