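import Pool.Agent.TH369.AN.Defs
import Pool.Agent.TH369.AN.RES
import Pool.Agent.TH369.AN.AL
import Pool.Agent.TH369.AN.SP1
import Pool.Agent.TH369.AN.SP2
import Pool.Agent.TH369.AN.DIV
import Pool.Agent.TH369.AN.RO

/-!
# Removal of a site
-/

set_option autoImplicit false
open MeasureTheory
open scoped InnerProductSpace

namespace Pool.Agent.TH369.AN

variable {X : Type} [NormedAddCommGroup X] [InnerProductSpace ℂ X] [CompleteSpace X]

namespace FACT

/-- a relation of minimal support -/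
lemma minrel {n : ℕ} (V : Submodule ℂ X) [FiniteDimensional ℂ V]
    (hV : Module.finrank ℂ V ≤ n) (φ : Fin (n + 1) → X) (hφV : ∀ i, φ i ∈ V) :
    ∃ a : Fin (n + 1) → ℂ, a ≠ 0 ∧ ∑ i, a i • φ i = 0 ∧
      ∀ c : Fin (n + 1) → ℂ, ∑ i, c i • φ i = 0 →
        (∀ i, c i ≠ 0 → a i ≠ 0) → (∃ i, a i ≠ 0 ∧ c i = 0) → c = 0 := by
  classical
  -- existence
  have hex : ∃ k : ℕ, ∃ a : Fin (n + 1) → ℂ, a ≠ 0 ∧ ∑ i, a i • φ i = 0 ∧
      (Finset.univ.filter fun i => a i ≠ 0).card = k := by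
    have hdep : ¬ LinearIndependent ℂ (fun i => (⟨φ i, hφV i⟩ : V)) := by
      intro h
      have := h.fintype_card_le_finrank
      rw [Fintype.card_fin] at this
      omega
    rw [Fintype.not_linearIndependent_iff] at hdep
    obtain ⟨a, ha, i, hi⟩ := hdep
    refine ⟨_, a, fun h => hi (congrFun h i), ?_, rfl⟩
    have h1 := congrArg Subtype.val ha
    simp only [Submodule.coe_sum, Submodule.coe_smul, ZeroMemClass.coe_zero] at h1
    exact h1
  obtain ⟨a, ha0, ha, hk⟩ := Nat.find_spec hex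
  refine ⟨a, ha0, ha, ?_⟩
  intro c hc hsub hlt
  by_contra hc0
  have h1 : (Finset.univ.filter fun i => c i ≠ 0).card < Nat.find hex := by
    rw [← hk]
    apply Finset.card_lt_card
    rw [Finset.ssubset_iff_of_subset]
    · obtain ⟨i, hi1, hi2⟩ := hlt
      exact ⟨i, by simp [hi1], by simp [hi2]⟩
    · intro i hi
      simp only [Finset.mem_filter, Finset.mem_univ, true_and] at hi ⊢
      exact hsub i hi
  exact Nat.find_min hex h1 ⟨c, hc0, hc, rfl⟩

lemma ro_apply (e x : X) : ro e x = ⟪e, x⟫_ℂ • e := by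
  unfold ro
  rw [ContinuousLinearMap.smulRight_apply, innerSL_apply_apply]

lemma pt_apply (T : X →L[ℂ] X) (e : X) (t : ℝ) (x : X) :
    pt T e t x = T x + ((t : ℂ) * ⟪e, x⟫_ℂ) • e := by
  unfold pt
  rw [ContinuousLinearMap.add_apply, ContinuousLinearMap.smul_apply, ro_apply, smul_smul]

lemma cp_apply (T : X →L[ℂ] X) (e x : X) (hx : ⟪e, x⟫_ℂ = 0) :
    cp T e x = T x - ⟪e, T x⟫_ℂ • e := by
  unfold cp
  rw [ContinuousLinearMap.mul_apply, ContinuousLinearMap.mul_apply, ContinuousLinearMap.sub_apply,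
    ContinuousLinearMap.sub_apply, ContinuousLinearMap.one_apply, ContinuousLinearMap.one_apply,
    ro_apply, ro_apply, hx, zero_smul, sub_zero]

end FACT

open FACT

theorem fact (T : X →L[ℂ] X) (hT : IsSelfAdjoint T) (e : X) (he : ‖e‖ = 1) (a b : ℝ)
    (hab : a < b) (n : ℕ) (V : Submodule ℂ X) [FiniteDimensional ℂ V]
    (hV : Module.finrank ℂ V ≤ n) (t : Fin (n + 1) → ℝ) (ht : Function.Injective t)
    (φ : Fin (n + 1) → X) (hφ : ∀ i, φ i ≠ 0) (hφV : ∀ i, φ i ∈ V)
    (hK : ∀ i, KI a b (pt T e (t i)) (φ i)) (t0 : ℝ)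
    (hsp : ∀ a' b', a ≤ a' → a' < b' → b' ≤ b → ¬ KI a' b' (pt T e t0) e) :
    ∃ φ' ∈ V, φ' - ⟪e, φ'⟫_ℂ • e ≠ 0 ∧ KI a b (cp T e) (φ' - ⟪e, φ'⟫_ℂ • e) := by
  classical
  obtain ⟨al, hal0, hrel, hmin⟩ := minrel V hV φ hφV
  set u : Fin (n + 1) → ℂ → X := fun i z => Rz (pt T e (t i)) z (φ i) with hu
  have hAn : ∀ (ψ : X) (i : Fin (n + 1)), An a b (fun z => ⟪ψ, u i z⟫_ℂ) := fun ψ i =>
    ki_an (pt T e (t i)) (pt_sa T hT e (t i)) a b hab (φ i) (hK i) ψ
  set h : Fin (n + 1) → ℂ → ℂ := fun i z => ⟪e, u i z⟫_ℂ with hh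
  set G : ℂ → ℂ := fun z => ⟪e, Rz (pt T e t0) z e⟫_ℂ with hG
  set A : ℂ → ℂ := fun z => ∑ i, al i * h i z with hA
  set C : ℂ → ℂ := fun z => ∑ i, (al i * ((t0 : ℂ) - t i)) * h i z with hC
  have hAan : An a b A := An.sum Finset.univ (fun i z => al i * h i z)
    (fun i _ => An.cmul (al i) (hAn e i))
  have hCan : An a b C := An.sum Finset.univ (fun i z => (al i * ((t0 : ℂ) - t i)) * h i z)
    (fun i _ => An.cmul (al i * ((t0 : ℂ) - t i)) (hAn e i))
  -- the main identity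
  have hCG : ∀ z : ℂ, z.im ≠ 0 → C z * G z = A z := by
    intro z hz
    have h1 : ∀ i, al i * ⟪e, Rz (pt T e t0) z (φ i)⟫_ℂ =
        al i * h i z - (al i * ((t0 : ℂ) - t i)) * h i z * G z := by
      intro i
      rw [rank_one T hT e (φ i) (t i) t0 z hz, inner_sub_right, inner_smul_right]
      simp only [hh, hu, hG]
      push_cast
      ring
    have h2 : ∑ i, al i * ⟪e, Rz (pt T e t0) z (φ i)⟫_ℂ = 0 := by
      have h3 : ∑ i, al i * ⟪e, Rz (pt T e t0) z (φ i)⟫_ℂ =
          ⟪e, Rz (pt T e t0) z (∑ i, al i • φ i)⟫_ℂ := by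
        rw [map_sum, inner_sum]
        refine Finset.sum_congr rfl fun i _ => ?_
        rw [map_smul, inner_smul_right]
      rw [h3, hrel, map_zero, inner_zero_right]
    rw [Finset.sum_congr rfl fun i _ => h1 i, Finset.sum_sub_distrib, ← Finset.sum_mul] at h2
    have h4 : A z - C z * G z = 0 := h2
    linear_combination -h4
  -- C vanishes
  have hC0 : ∀ z : ℂ, z.im ≠ 0 → C z = 0 := by
    by_contra hne
    push Not at hne
    obtain ⟨Z, hZ, hdiv⟩ := div_an a b hab C hCan hne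
    have hGd : ∀ z : ℂ, z.im ≠ 0 → DifferentiableAt ℂ G z := fun z hz =>
      rz_diff (pt T e t0) (pt_sa T hT e t0) e e z hz
    obtain ⟨E, hE, hEZ⟩ : ∃ E, E ∈ Set.Ioo a b ∧ E ∉ Z := by
      have hd := Set.Countable.dense_compl ℝ hZ
      obtain ⟨E, hE1, hE2⟩ := hd.exists_mem_open isOpen_Ioo (Set.nonempty_Ioo.2 hab)
      exact ⟨E, hE2, hE1⟩
    obtain ⟨a', b', h1, h2, h3, h4, h5⟩ := hdiv A G hAan hGd hCG E hE hEZ
    exact hsp a' b' h1 (h2.trans h3) h4
      (an_ki (pt T e t0) (pt_sa T hT e t0) a' b' (h2.trans h3) e h5)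
  have hA0 : ∀ z : ℂ, z.im ≠ 0 → A z = 0 := fun z hz => by
    rw [← hCG z hz, hC0 z hz, zero_mul]
  have hB0 : ∀ z : ℂ, z.im ≠ 0 → ∑ i, (al i * t i) * h i z = 0 := by
    intro z hz
    have h1 : ∑ i, (al i * t i) * h i z = (t0 : ℂ) * A z - C z := by
      simp only [hA, hC]
      rw [Finset.mul_sum, ← Finset.sum_sub_distrib]
      refine Finset.sum_congr rfl fun i _ => ?_
      ring
    rw [h1, hA0 z hz, hC0 z hz]
    ring
  -- the vector
  obtain ⟨i0, hi0⟩ : ∃ i0, al i0 ≠ 0 := by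
    by_contra hcon
    push Not at hcon
    exact hal0 (funext hcon)
  set c : Fin (n + 1) → ℂ := fun i => al i * ((t i : ℂ) - t i0) with hc
  set φ' : X := ∑ i, c i • φ i with hφ'
  have hφ'V : φ' ∈ V := Submodule.sum_mem _ fun i _ => Submodule.smul_mem _ _ (hφV i)
  have hφ'0 : φ' ≠ 0 := by
    intro h0
    have hc0 := hmin c h0 (fun i hi hai => hi (by simp only [hc]; rw [hai, zero_mul]))
      ⟨i0, hi0, by simp only [hc]; rw [sub_self, mul_zero]⟩
    -- all coefficients off i0 vanish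
    have h1 : ∀ i, i ≠ i0 → al i = 0 := by
      intro i hi
      have h2 := congrFun hc0 i
      simp only [hc, Pi.zero_apply, mul_eq_zero] at h2
      rcases h2 with h2 | h2
      · exact h2
      · exfalso
        apply hi
        apply ht
        have h3 : (t i : ℂ) = t i0 := sub_eq_zero.1 h2
        exact_mod_cast h3
    have h2 : al i0 • φ i0 = 0 := by
      rw [← hrel, Finset.sum_eq_single_of_mem i0 (Finset.mem_univ i0)]
      intro i _ hi
      rw [h1 i hi, zero_smul]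
    rcases smul_eq_zero.1 h2 with h3 | h3
    · exact hi0 h3
    · exact hφ i0 h3
  set w : ℂ → X := fun z => ∑ i, c i • u i z with hw
  have hew : ∀ z : ℂ, z.im ≠ 0 → ⟪e, w z⟫_ℂ = 0 := by
    intro z hz
    have h1 : ⟪e, w z⟫_ℂ = ∑ i, (al i * t i) * h i z - (t i0 : ℂ) * A z := by
      simp only [hw, hA]
      rw [inner_sum, Finset.mul_sum, ← Finset.sum_sub_distrib]
      refine Finset.sum_congr rfl fun i _ => ?_
      rw [inner_smul_right]
      simp only [hc, hh]
      ring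
    rw [h1, hB0 z hz, hA0 z hz]
    ring
  set D : ℂ → ℂ := fun z => ∑ i, (c i * t i) * h i z with hD
  have hTw : ∀ z : ℂ, z.im ≠ 0 → T (w z) = φ' - D z • e + z • w z := by
    intro z hz
    have h1 : ∀ i, T (u i z) = φ i - ((t i : ℂ) * h i z) • e + z • u i z := by
      intro i
      have h2 := rz_eq (pt T e (t i)) (pt_sa T hT e (t i)) z hz (φ i)
      rw [pt_apply] at h2
      have h3 : T (u i z) + ((t i : ℂ) * h i z) • e - z • u i z = φ i := h2
      rw [← h3]
      abel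
    simp only [hw, hφ', hD]
    rw [map_sum, Finset.sum_smul, Finset.smul_sum, ← Finset.sum_sub_distrib, ← Finset.sum_add_distrib]
    refine Finset.sum_congr rfl fun i _ => ?_
    rw [map_smul, h1 i, smul_add, smul_sub, smul_smul, smul_smul, smul_smul, ← mul_assoc,
      mul_comm (c i) z]
  have hee : ⟪e, e⟫_ℂ = 1 := by
    rw [inner_self_eq_norm_sq_to_K, he]
    norm_num
  have hcpw : ∀ z : ℂ, z.im ≠ 0 → w z = Rz (cp T e) z (φ' - ⟪e, φ'⟫_ℂ • e) := by
    intro z hz
    apply rz_uniq (cp T e) (cp_sa T hT e) z hz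
    rw [cp_apply T e (w z) (hew z hz), hTw z hz, inner_add_right, inner_sub_right,
      inner_smul_right, inner_smul_right, hee, hew z hz, mul_zero, add_zero, mul_one, sub_smul]
    abel
  refine ⟨φ', hφ'V, ?_, ?_⟩
  · -- the projection is not zero
    intro h0
    set K : ℝ := ∑ i, ‖c i * t i‖ * ‖φ i‖ with hKdef
    have hK0 : 0 ≤ K := Finset.sum_nonneg fun i _ => by positivity
    have h1 : ∀ z : ℂ, z.im ≠ 0 → ‖φ'‖ ≤ K / |z.im| := by
      intro z hz
      have h2 : w z = 0 := by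
        rw [hcpw z hz, h0, map_zero]
      have h3 := hTw z hz
      rw [h2, map_zero, smul_zero, add_zero] at h3
      have h4 : φ' = D z • e := (sub_eq_zero.1 h3.symm)
      rw [h4, norm_smul, he, mul_one]
      simp only [hD]
      refine (norm_sum_le _ _).trans ?_
      rw [hKdef, Finset.sum_div]
      refine Finset.sum_le_sum fun i _ => ?_
      rw [norm_mul, mul_div_assoc]
      refine mul_le_mul_of_nonneg_left ?_ (norm_nonneg _)
      have h5 := norm_inner_le_norm (𝕜 := ℂ) e (u i z)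
      rw [he, one_mul] at h5
      exact h5.trans (rz_norm (pt T e (t i)) (pt_sa T hT e (t i)) z hz (φ i))
    have hpos : 0 < ‖φ'‖ := norm_pos_iff.2 hφ'0
    set y : ℝ := (K + 1) / ‖φ'‖ with hy
    have hypos : 0 < y := by positivity
    have h2 := h1 ((y : ℂ) * Complex.I) (by
      simp only [Complex.mul_im, Complex.ofReal_re, Complex.I_im, mul_one, Complex.ofReal_im,
        Complex.I_re, mul_zero, add_zero]
      exact hypos.ne')
    simp only [Complex.mul_im, Complex.ofReal_re, Complex.I_im, mul_one, Complex.ofReal_im,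
        Complex.I_re, mul_zero, add_zero] at h2
    rw [abs_of_pos hypos, le_div_iff₀ hypos, hy, mul_div_assoc', mul_comm, mul_div_assoc,
      div_self hpos.ne', mul_one] at h2
    linarith
  · apply an_ki (cp T e) (cp_sa T hT e) a b hab
    have h1 : An a b (fun z => ∑ i, c i * ⟪φ' - ⟪e, φ'⟫_ℂ • e, u i z⟫_ℂ) :=
      An.sum Finset.univ (fun i z => c i * ⟪φ' - ⟪e, φ'⟫_ℂ • e, u i z⟫_ℂ)
        (fun i _ => An.cmul (c i) (hAn _ i))
    refine An.congr h1 fun z hz => ?_
    have e1 : ⟪φ' - ⟪e, φ'⟫_ℂ • e, w z⟫_ℂ = ∑ i, c i * ⟪φ' - ⟪e, φ'⟫_ℂ • e, u i z⟫_ℂ := by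
      simp only [hw]
      rw [inner_sum]
      refine Finset.sum_congr rfl fun i _ => ?_
      rw [inner_smul_right]
    rw [hcpw z hz] at e1
    exact e1.symm

end Pool.Agent.TH369.AN
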