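import Pool.Agent.TH369.AN.Defs
import Pool.Agent.TH369.AN.OP

/-!
# Approximate eigenvectors on a large cube (job 3683, helper692)
-/

set_option autoImplicit false
open MeasureTheory
open scoped InnerProductSpace

namespace Pool.Agent.TH369.AN

variable {d : ℕ}

namespace WEYL1

/-- the sides of the cube -/
noncomputable def R (x0 : Zd d) (L : ℕ) (i : Fin d) : Finset ℤ := Finset.Ico (x0 i) (x0 i + L)

/-- the cube -/
noncomputable def Q (x0 : Zd d) (L : ℕ) : Finset (Zd d) := Fintype.piFinset (R x0 L)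

/-- a slice parallel to a side -/
noncomputable def S (x0 : Zd d) (L : ℕ) (i : Fin d) (a : ℤ) : Finset (Zd d) :=
  Fintype.piFinset (Function.update (R x0 L) i {a})

theorem mem_Q {x0 : Zd d} {L : ℕ} {y : Zd d} :
    y ∈ Q x0 L ↔ ∀ i, x0 i ≤ y i ∧ y i < x0 i + L := by
  unfold Q R
  rw [Fintype.mem_piFinset]
  exact forall_congr' fun i => Finset.mem_Ico

theorem mem_S {x0 : Zd d} {L : ℕ} {i : Fin d} {a : ℤ} {y : Zd d} :
    y ∈ S x0 L i a ↔ y i = a ∧ ∀ j, j ≠ i → x0 j ≤ y j ∧ y j < x0 j + L := by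
  unfold S
  rw [Fintype.mem_piFinset]
  constructor
  · intro h
    refine ⟨?_, fun j hj => ?_⟩
    · have := h i
      rw [Function.update_self, Finset.mem_singleton] at this
      exact this
    · have := h j
      rw [Function.update_of_ne hj] at this
      exact Finset.mem_Ico.1 this
  · rintro ⟨h1, h2⟩ j
    by_cases hj : j = i
    · subst hj
      rw [Function.update_self, Finset.mem_singleton]
      exact h1
    · rw [Function.update_of_ne hj]
      exact Finset.mem_Ico.2 (h2 j hj)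

theorem card_R (x0 : Zd d) (L : ℕ) (i : Fin d) : (R x0 L i).card = L := by
  unfold R
  rw [Int.card_Ico]
  simp

theorem card_Q (x0 : Zd d) (L : ℕ) : (Q x0 L).card = L ^ d := by
  unfold Q
  rw [Fintype.card_piFinset]
  simp only [card_R]
  rw [Finset.prod_const, Finset.card_univ, Fintype.card_fin]

theorem card_S (x0 : Zd d) (L : ℕ) (i : Fin d) (a : ℤ) : (S x0 L i a).card = L ^ (d - 1) := by
  unfold S
  rw [Fintype.card_piFinset, ← Finset.mul_prod_erase _ _ (Finset.mem_univ i),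
    Function.update_self, Finset.card_singleton, one_mul]
  have h1 : ∀ j ∈ Finset.univ.erase i, (Function.update (R x0 L) i {a} j).card = L := by
    intro j hj
    rw [Function.update_of_ne (Finset.ne_of_mem_erase hj), card_R]
  rw [Finset.prod_congr rfl h1, Finset.prod_const, Finset.card_erase_of_mem (Finset.mem_univ i),
    Finset.card_univ, Fintype.card_fin]

open Classical in
/-- the indicator function -/
noncomputable def ind (s : Finset (Zd d)) (y : Zd d) : ℝ := if y ∈ s then 1 else 0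

theorem ind_nonneg (s : Finset (Zd d)) (y : Zd d) : 0 ≤ ind s y := by
  unfold ind
  split_ifs <;> norm_num

theorem ind_mem {s : Finset (Zd d)} {y : Zd d} (h : y ∈ s) : ind s y = 1 := by
  unfold ind
  rw [if_pos h]

theorem ind_sum (s : Finset (Zd d)) : HasSum (ind s) (s.card : ℝ) := by
  classical
  have h1 : ∑ b ∈ s, ind s b = (s.card : ℝ) := by
    rw [Finset.sum_congr rfl fun b hb => ind_mem hb, Finset.sum_const, nsmul_eq_mul, mul_one]
  rw [← h1]
  apply hasSum_sum_of_ne_finset_zero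
  intro b hb
  unfold ind
  rw [if_neg hb]

/-- the plane wave -/
noncomputable def h (ζ : ℂ) (x0 y : Zd d) : ℂ := ζ ^ (∑ j, (y j - x0 j))

theorem sum_add (x0 y : Zd d) (i : Fin d) :
    ∑ j, ((y + ee i) j - x0 j) = ∑ j, (y j - x0 j) + 1 := by
  have h1 : ∀ j, (y + ee i) j - x0 j = (y j - x0 j) + (if j = i then 1 else 0) := by
    intro j
    rw [Pi.add_apply, ee, Pi.single_apply]
    ring
  simp only [h1]
  rw [Finset.sum_add_distrib, Finset.sum_ite_eq' Finset.univ i (fun _ => (1:ℤ)),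
    if_pos (Finset.mem_univ i)]

theorem sum_sub (x0 y : Zd d) (i : Fin d) :
    ∑ j, ((y - ee i) j - x0 j) = ∑ j, (y j - x0 j) - 1 := by
  have h1 : ∀ j, (y - ee i) j - x0 j = (y j - x0 j) - (if j = i then 1 else 0) := by
    intro j
    rw [Pi.sub_apply, ee, Pi.single_apply]
    ring
  simp only [h1]
  rw [Finset.sum_sub_distrib, Finset.sum_ite_eq' Finset.univ i (fun _ => (1:ℤ)),
    if_pos (Finset.mem_univ i)]

theorem h_add {ζ : ℂ} (hζ : ζ ≠ 0) (x0 y : Zd d) (i : Fin d) :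
    h ζ x0 (y + ee i) = ζ * h ζ x0 y := by
  unfold h
  rw [sum_add, zpow_add_one₀ hζ, mul_comm]

theorem h_sub {ζ : ℂ} (hζ : ζ ≠ 0) (x0 y : Zd d) (i : Fin d) :
    h ζ x0 (y - ee i) = ζ⁻¹ * h ζ x0 y := by
  unfold h
  rw [sum_sub, zpow_sub_one₀ hζ, mul_comm]

theorem h_norm {ζ : ℂ} (hζ : ‖ζ‖ = 1) (x0 y : Zd d) : ‖h ζ x0 y‖ = 1 := by
  unfold h
  rw [norm_zpow, hζ, one_zpow]

/-- the cut off plane wave -/
noncomputable def F (ζ : ℂ) (x0 : Zd d) (L : ℕ) (y : Zd d) : ℂ := (ind (Q x0 L) y : ℂ) * h ζ x0 y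

theorem F_zero {ζ : ℂ} {x0 : Zd d} {L : ℕ} {y : Zd d} (hy : y ∉ Q x0 L) : F ζ x0 L y = 0 := by
  unfold F ind
  rw [if_neg hy, Complex.ofReal_zero, zero_mul]

theorem ind_sq (s : Finset (Zd d)) (y : Zd d) : (ind s y) ^ 2 = ind s y := by
  unfold ind
  split_ifs <;> norm_num

theorem F_norm {ζ : ℂ} (hζ : ‖ζ‖ = 1) (x0 : Zd d) (L : ℕ) (y : Zd d) :
    ‖F ζ x0 L y‖ ^ 2 = ind (Q x0 L) y := by
  unfold F
  rw [norm_mul, h_norm hζ, mul_one, Complex.norm_real, Real.norm_eq_abs, sq_abs, ind_sq]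

/-- the difference of the indicator functions at neighbours -/
theorem diff_add (x0 : Zd d) (L : ℕ) (y : Zd d) (i : Fin d) :
    (ind (Q x0 L) y - ind (Q x0 L) (y + ee i)) ^ 2 ≤
      ind (S x0 L i (x0 i - 1)) y + ind (S x0 L i (x0 i + L - 1)) y := by
  have hj : ∀ j, j ≠ i → (y + ee i) j = y j := by
    intro j hj
    rw [Pi.add_apply, ee, Pi.single_apply, if_neg hj, add_zero]
  have hi : (y + ee i) i = y i + 1 := by
    rw [Pi.add_apply, ee, Pi.single_apply, if_pos rfl]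
  have p1 := ind_nonneg (S x0 L i (x0 i - 1)) y
  have p2 := ind_nonneg (S x0 L i (x0 i + L - 1)) y
  by_cases h1 : y ∈ Q x0 L
  · by_cases h2 : y + ee i ∈ Q x0 L
    · rw [ind_mem h1, ind_mem h2]
      linarith
    · have h3 : y ∈ S x0 L i (x0 i + L - 1) := by
        rw [mem_S]
        have h4 := mem_Q.1 h1
        refine ⟨?_, fun j _ => h4 j⟩
        by_contra h5
        apply h2
        rw [mem_Q]
        intro j
        by_cases hji : j = i
        · subst hji
          rw [hi]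
          have := h4 j
          omega
        · rw [hj j hji]
          exact h4 j
      rw [ind_mem h1, ind_mem h3]
      unfold ind at p1 ⊢
      rw [if_neg h2]
      linarith
  · by_cases h2 : y + ee i ∈ Q x0 L
    · have h3 : y ∈ S x0 L i (x0 i - 1) := by
        rw [mem_S]
        have h4 := mem_Q.1 h2
        refine ⟨?_, fun j hji => by rw [← hj j hji]; exact h4 j⟩
        by_contra h5
        apply h1
        rw [mem_Q]
        intro j
        by_cases hji : j = i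
        · subst hji
          have := h4 j
          rw [hi] at this
          omega
        · rw [← hj j hji]
          exact h4 j
      rw [ind_mem h2, ind_mem h3]
      unfold ind at p2 ⊢
      rw [if_neg h1]
      linarith
    · unfold ind at p1 p2 ⊢
      rw [if_neg h1, if_neg h2]
      linarith

theorem diff_sub (x0 : Zd d) (L : ℕ) (y : Zd d) (i : Fin d) :
    (ind (Q x0 L) y - ind (Q x0 L) (y - ee i)) ^ 2 ≤
      ind (S x0 L i (x0 i)) y + ind (S x0 L i (x0 i + L)) y := by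
  have hj : ∀ j, j ≠ i → (y - ee i) j = y j := by
    intro j hj
    rw [Pi.sub_apply, ee, Pi.single_apply, if_neg hj, sub_zero]
  have hi : (y - ee i) i = y i - 1 := by
    rw [Pi.sub_apply, ee, Pi.single_apply, if_pos rfl]
  have p1 := ind_nonneg (S x0 L i (x0 i)) y
  have p2 := ind_nonneg (S x0 L i (x0 i + L)) y
  by_cases h1 : y ∈ Q x0 L
  · by_cases h2 : y - ee i ∈ Q x0 L
    · rw [ind_mem h1, ind_mem h2]
      linarith
    · have h3 : y ∈ S x0 L i (x0 i) := by
        rw [mem_S]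
        have h4 := mem_Q.1 h1
        refine ⟨?_, fun j _ => h4 j⟩
        by_contra h5
        apply h2
        rw [mem_Q]
        intro j
        by_cases hji : j = i
        · subst hji
          rw [hi]
          have := h4 j
          omega
        · rw [hj j hji]
          exact h4 j
      rw [ind_mem h1, ind_mem h3]
      unfold ind at p2 ⊢
      rw [if_neg h2]
      linarith
  · by_cases h2 : y - ee i ∈ Q x0 L
    · have h3 : y ∈ S x0 L i (x0 i + L) := by
        rw [mem_S]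
        have h4 := mem_Q.1 h2
        refine ⟨?_, fun j hji => by rw [← hj j hji]; exact h4 j⟩
        by_contra h5
        apply h1
        rw [mem_Q]
        intro j
        by_cases hji : j = i
        · subst hji
          have := h4 j
          rw [hi] at this
          omega
        · rw [← hj j hji]
          exact h4 j
      rw [ind_mem h2, ind_mem h3]
      unfold ind at p1 ⊢
      rw [if_neg h1]
      linarith
    · unfold ind at p1 p2 ⊢
      rw [if_neg h1, if_neg h2]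
      linarith

/-- the defect -/
noncomputable def bd (x0 : Zd d) (L : ℕ) (η : ℝ) (y : Zd d) : ℝ :=
  2 * (η ^ 2 * ind (Q x0 L) y) + 4 * d * ∑ i, ((ind (S x0 L i (x0 i - 1)) y +
    ind (S x0 L i (x0 i + L - 1)) y) + (ind (S x0 L i (x0 i)) y + ind (S x0 L i (x0 i + L)) y))

theorem bd_sum (x0 : Zd d) (L : ℕ) (η : ℝ) :
    HasSum (bd x0 L η) (2 * (η ^ 2 * (L : ℝ) ^ d) + 4 * d * (d * (4 * (L : ℝ) ^ (d - 1)))) := by
  have h1 : (d : ℝ) * (4 * (L : ℝ) ^ (d - 1)) = ∑ i : Fin d,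
      ((((S x0 L i (x0 i - 1)).card : ℝ) + ((S x0 L i (x0 i + L - 1)).card : ℝ)) +
      (((S x0 L i (x0 i)).card : ℝ) + ((S x0 L i (x0 i + L)).card : ℝ))) := by
    simp only [card_S]
    rw [Finset.sum_const, Finset.card_univ, Fintype.card_fin, nsmul_eq_mul]
    push_cast
    ring
  have h2 : (L : ℝ) ^ d = ((Q x0 L).card : ℝ) := by
    rw [card_Q]
    push_cast
    rfl
  rw [h1, h2]
  unfold bd
  refine (((ind_sum _).mul_left _).mul_left _).add (HasSum.mul_left _ ?_)
  apply hasSum_sum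
  intro i _
  exact ((ind_sum _).add (ind_sum _)).add ((ind_sum _).add (ind_sum _))

/-- the generic formula for the defect -/
theorem act_eq {i0 : Fin d} {J : Finset (Zd d)} {c : ℝ} {ω : Zd d → ℝ} {x0 : Zd d} {L : ℕ}
    (hJ : ∀ y ∈ J, y i0 < x0 i0 - 1) (ζ : ℂ) (y : Zd d) :
    act J c ω (F ζ x0 L) y = (2 * d + (cl c (ω y) : ℂ)) * F ζ x0 L y -
      ∑ i : Fin d, (F ζ x0 L (y + ee i) + F ζ x0 L (y - ee i)) := by
  have h0 : ∀ w : Zd d, w i0 < x0 i0 → F ζ x0 L w = 0 := by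
    intro w hw
    apply F_zero
    intro h
    have := mem_Q.1 h i0
    omega
  have hFJ : ∀ w ∈ J, F ζ x0 L w = 0 := fun w hw => h0 w (by have := hJ w hw; omega)
  unfold act
  by_cases hy : y ∈ J
  · rw [if_pos hy, hFJ y hy, mul_zero, zero_sub, eq_comm, neg_eq_zero]
    apply Finset.sum_eq_zero
    intro i _
    have hyi := hJ y hy
    have e1 : (y + ee i) i0 = y i0 + (if i0 = i then 1 else 0) := by
      rw [Pi.add_apply, ee, Pi.single_apply]
    have e2 : (y - ee i) i0 = y i0 - (if i0 = i then 1 else 0) := by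
      rw [Pi.sub_apply, ee, Pi.single_apply]
    rw [h0, h0, add_zero]
    · rw [e2]
      split_ifs <;> omega
    · rw [e1]
      split_ifs <;> omega
  · rw [if_neg hy]
    congr 1
    apply Finset.sum_congr rfl
    intro i _
    congr 1
    · split_ifs with h
      · exact (hFJ _ h).symm
      · rfl
    · split_ifs with h
      · exact (hFJ _ h).symm
      · rfl

theorem defect {i0 : Fin d} {J : Finset (Zd d)} {c : ℝ} {ω : Zd d → ℝ} {x0 : Zd d} {L : ℕ}
    (hJ : ∀ y ∈ J, y i0 < x0 i0 - 1) {v η E k : ℝ} (hη : 0 ≤ η)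
    (hω : ∀ y : Zd d, (∀ i, x0 i ≤ y i ∧ y i < x0 i + L) → |ω y - v| ≤ η ∧ |ω y| ≤ c)
    (hE : E = v + (2 * d - 2 * d * Real.cos k)) (y : Zd d) :
    ‖act J c ω (F (Complex.exp (k * Complex.I)) x0 L) y -
      (E : ℂ) * F (Complex.exp (k * Complex.I)) x0 L y‖ ^ 2 ≤ bd x0 L η y := by
  set ζ : ℂ := Complex.exp (k * Complex.I) with hζd
  have hζ0 : ζ ≠ 0 := Complex.exp_ne_zero _
  have hζ1 : ‖ζ‖ = 1 := Complex.norm_exp_ofReal_mul_I k
  have hcos : ζ + ζ⁻¹ = 2 * (Real.cos k : ℂ) := by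
    rw [hζd, ← Complex.exp_neg, Complex.ofReal_cos, Complex.cos]
    ring_nf
  set a0 : ℂ := (ind (Q x0 L) y : ℂ) * ((ω y - v : ℝ) : ℂ) * h ζ x0 y with ha0
  set A : Fin d → ℂ := fun i =>
    ((ind (Q x0 L) y - ind (Q x0 L) (y + ee i) : ℝ) : ℂ) * h ζ x0 (y + ee i) with hA
  set B : Fin d → ℂ := fun i =>
    ((ind (Q x0 L) y - ind (Q x0 L) (y - ee i) : ℝ) : ℂ) * h ζ x0 (y - ee i) with hB
  have hclF : (cl c (ω y) : ℂ) * F ζ x0 L y = (ω y : ℂ) * F ζ x0 L y := by
    by_cases hy : y ∈ Q x0 L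
    · have h1 := (hω y (mem_Q.1 hy)).2
      have h2 : cl c (ω y) = ω y := by
        unfold cl
        rw [abs_le] at h1
        rw [min_eq_right h1.2, max_eq_right h1.1]
      rw [h2]
    · rw [F_zero hy, mul_zero, mul_zero]
  have key : act J c ω (F ζ x0 L) y - (E : ℂ) * F ζ x0 L y = a0 + ∑ i, (A i + B i) := by
    rw [act_eq hJ, add_mul, hclF]
    have h1 : ∑ i, (A i + B i) = ∑ i : Fin d, ((ind (Q x0 L) y : ℂ) * ((ζ + ζ⁻¹) * h ζ x0 y) -
        (F ζ x0 L (y + ee i) + F ζ x0 L (y - ee i))) := by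
      apply Finset.sum_congr rfl
      intro i _
      simp only [hA, hB]
      unfold F
      rw [h_add hζ0, h_sub hζ0]
      push_cast
      ring
    rw [h1, Finset.sum_sub_distrib, Finset.sum_const, Finset.card_univ, Fintype.card_fin,
      nsmul_eq_mul, hcos, ha0, hE]
    unfold F
    push_cast
    ring
  rw [key]
  have hn0 : ‖a0‖ ^ 2 ≤ η ^ 2 * ind (Q x0 L) y := by
    rw [ha0, norm_mul, norm_mul, h_norm hζ1, mul_one, mul_pow, Complex.norm_real,
      Complex.norm_real, Real.norm_eq_abs, Real.norm_eq_abs, sq_abs, ind_sq, sq_abs, mul_comm]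
    by_cases hy : y ∈ Q x0 L
    · rw [ind_mem hy, mul_one, mul_one]
      have h1 := (hω y (mem_Q.1 hy)).1
      rw [← sq_abs]
      exact pow_le_pow_left₀ (abs_nonneg _) h1 2
    · unfold ind
      rw [if_neg hy, mul_zero, mul_zero]
  have hnA : ∀ i, ‖A i‖ ^ 2 ≤ ind (S x0 L i (x0 i - 1)) y + ind (S x0 L i (x0 i + L - 1)) y := by
    intro i
    simp only [hA]
    rw [norm_mul, h_norm hζ1, mul_one, Complex.norm_real, Real.norm_eq_abs, sq_abs]
    exact diff_add x0 L y i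
  have hnB : ∀ i, ‖B i‖ ^ 2 ≤ ind (S x0 L i (x0 i)) y + ind (S x0 L i (x0 i + L)) y := by
    intro i
    simp only [hB]
    rw [norm_mul, h_norm hζ1, mul_one, Complex.norm_real, Real.norm_eq_abs, sq_abs]
    exact diff_sub x0 L y i
  have two : ∀ x w : ℂ, ‖x + w‖ ^ 2 ≤ 2 * ‖x‖ ^ 2 + 2 * ‖w‖ ^ 2 := by
    intro x w
    have h1 := norm_add_le x w
    have h2 := pow_le_pow_left₀ (norm_nonneg _) h1 2
    nlinarith [sq_nonneg (‖x‖ - ‖w‖)]
  have hsum : ‖∑ i, (A i + B i)‖ ^ 2 ≤ d * ∑ i, ‖A i + B i‖ ^ 2 := by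
    have h1 : ‖∑ i, (A i + B i)‖ ≤ ∑ i, ‖A i + B i‖ := norm_sum_le _ _
    have h2 := pow_le_pow_left₀ (norm_nonneg _) h1 2
    refine h2.trans ?_
    have h3 := sq_sum_le_card_mul_sum_sq (s := (Finset.univ : Finset (Fin d)))
      (f := fun i => ‖A i + B i‖)
    rw [Finset.card_univ, Fintype.card_fin] at h3
    exact h3
  have hsum2 : ∑ i, ‖A i + B i‖ ^ 2 ≤ ∑ i, 2 * ((ind (S x0 L i (x0 i - 1)) y +
      ind (S x0 L i (x0 i + L - 1)) y) + (ind (S x0 L i (x0 i)) y + ind (S x0 L i (x0 i + L)) y)) := by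
    apply Finset.sum_le_sum
    intro i _
    have := two (A i) (B i)
    have := hnA i
    have := hnB i
    linarith
  rw [← Finset.mul_sum] at hsum2
  have hd0 : (0 : ℝ) ≤ d := Nat.cast_nonneg d
  have h3 := two a0 (∑ i, (A i + B i))
  have h4 := mul_le_mul_of_nonneg_left hsum2 hd0
  unfold bd
  linarith

end WEYL1

theorem weyl_det (i0 : Fin d) (c : ℝ) (hc : 0 < c) (E : ℝ) (hE : E ∈ Set.Icc (-c) (4 * d + c))
    (δ : ℝ) (hδ : 0 < δ) :
    ∃ (v η : ℝ) (L : ℕ), v ∈ Set.Icc (-c) c ∧ 0 < η ∧ ∀ (J : Finset (Zd d)) (ω : Zd d → ℝ)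
      (x0 : Zd d), (∀ y ∈ J, y i0 < x0 i0 - 1) →
      (∀ y : Zd d, (∀ i, x0 i ≤ y i ∧ y i < x0 i + L) → |ω y - v| ≤ η ∧ |ω y| ≤ c) →
      ∃ f : L2 d, f ≠ 0 ∧ (∀ y : Zd d, ¬ (∀ i, x0 i ≤ y i ∧ y i < x0 i + L) → f y = 0) ∧
        ‖TT J c ω f - (E : ℂ) • f‖ ≤ δ * ‖f‖ := by
  have hd : 0 < d := i0.pos
  have hdr : (0 : ℝ) < d := by exact_mod_cast hd
  set v : ℝ := min E c with hv
  have hv1 : -c ≤ v := le_min hE.1 (by linarith)
  have hv2 : v ≤ c := min_le_right _ _
  have he0 : 0 ≤ E - v := by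
    have : v ≤ E := min_le_left _ _
    linarith
  have he1 : E - v ≤ 4 * d := by
    rcases le_total E c with h | h
    · rw [hv, min_eq_left h]
      have : (0:ℝ) ≤ 4 * d := by positivity
      linarith
    · rw [hv, min_eq_right h]
      linarith [hE.2]
  set k : ℝ := Real.arccos (1 - (E - v) / (2 * d)) with hk
  have hcos : Real.cos k = 1 - (E - v) / (2 * d) := by
    apply Real.cos_arccos
    · have : (E - v) / (2 * d) ≤ 2 := by
        rw [div_le_iff₀ (by positivity)]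
        linarith
      linarith
    · have : 0 ≤ (E - v) / (2 * d) := by positivity
      linarith
  have hEk : E = v + (2 * d - 2 * d * Real.cos k) := by
    rw [hcos]
    field_simp
    ring
  obtain ⟨L, hL⟩ := exists_nat_gt (32 * (d : ℝ) ^ 2 / δ ^ 2)
  have hL0 : (0 : ℝ) < L := lt_of_le_of_lt (by positivity) hL
  have hLn : 0 < L := by exact_mod_cast hL0
  refine ⟨v, δ / 2, L, ⟨hv1, hv2⟩, by positivity, fun J ω x0 hJ hω => ?_⟩
  set ζ : ℂ := Complex.exp (k * Complex.I) with hζ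
  have hζ1 : ‖ζ‖ = 1 := Complex.norm_exp_ofReal_mul_I k
  have hmem : Memℓp (WEYL1.F ζ x0 L) 2 := by
    apply Memℓp.of_exponent_ge (q := 0)
    · apply memℓp_zero
      apply (WEYL1.Q x0 L).finite_toSet.subset
      intro y hy
      by_contra h
      exact hy (WEYL1.F_zero h)
    · exact bot_le
  set f : L2 d := ⟨WEYL1.F ζ x0 L, hmem⟩ with hf
  have hfa : ∀ y, (f : Zd d → ℂ) y = WEYL1.F ζ x0 L y := fun y => rfl
  have hx0 : x0 ∈ WEYL1.Q x0 L := by
    rw [WEYL1.mem_Q]
    intro i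
    omega
  refine ⟨f, ?_, ?_, ?_⟩
  · intro h0
    have h1 := hfa x0
    rw [h0] at h1
    have h2 : WEYL1.F ζ x0 L x0 = 0 := h1.symm
    have h3 := WEYL1.F_norm hζ1 x0 L x0
    rw [h2, WEYL1.ind_mem hx0] at h3
    norm_num at h3
  · intro y hy
    rw [hfa]
    apply WEYL1.F_zero
    rw [WEYL1.mem_Q]
    exact hy
  · have h2r : (2 : ENNReal).toReal = 2 := by norm_num
    have hp : 0 < (2 : ENNReal).toReal := by rw [h2r]; norm_num
    have hsf := lp.hasSum_norm hp f
    rw [h2r] at hsf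
    have hnf : ‖f‖ ^ 2 = (L : ℝ) ^ d := by
      have h1 : HasSum (fun i => ‖f i‖ ^ (2:ℝ)) ((WEYL1.Q x0 L).card : ℝ) := by
        refine (WEYL1.ind_sum (WEYL1.Q x0 L)).congr_fun ?_
        intro y
        rw [hfa, Real.rpow_two, WEYL1.F_norm hζ1]
      have h2 := hsf.unique h1
      rw [Real.rpow_two, WEYL1.card_Q] at h2
      rw [h2]
      push_cast
      rfl
    set g : L2 d := TT J c ω f - (E : ℂ) • f with hg
    have hga : ∀ y, (g : Zd d → ℂ) y = act J c ω (WEYL1.F ζ x0 L) y -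
        (E : ℂ) * WEYL1.F ζ x0 L y := by
      intro y
      have h1 := TT_apply J c ω f y
      rw [hg, lp.coeFn_sub, Pi.sub_apply, lp.coeFn_smul, Pi.smul_apply, h1, smul_eq_mul]
    have hsg := lp.hasSum_norm hp g
    rw [h2r] at hsg
    have hle : ‖g‖ ^ (2:ℝ) ≤ 2 * ((δ / 2) ^ 2 * (L : ℝ) ^ d) +
        4 * d * (d * (4 * (L : ℝ) ^ (d - 1))) := by
      refine hasSum_le ?_ hsg (WEYL1.bd_sum x0 L (δ / 2))
      intro y
      rw [hga, Real.rpow_two]
      exact WEYL1.defect hJ (by positivity) hω hEk y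
    rw [Real.rpow_two] at hle
    have hLd : (L : ℝ) ^ d = L * (L : ℝ) ^ (d - 1) := by
      rw [← pow_succ']
      congr 1
      omega
    have h5 : 16 * (d : ℝ) ^ 2 * (L : ℝ) ^ (d - 1) ≤ δ ^ 2 / 2 * (L : ℝ) ^ d := by
      rw [hLd]
      have h6 : 16 * (d : ℝ) ^ 2 ≤ δ ^ 2 / 2 * L := by
        rw [div_lt_iff₀ (by positivity)] at hL
        linarith
      have h7 := mul_le_mul_of_nonneg_right h6 (by positivity : (0:ℝ) ≤ (L : ℝ) ^ (d - 1))
      linarith
    have h8 : ‖g‖ ^ 2 ≤ (δ * ‖f‖) ^ 2 := by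
      rw [mul_pow, hnf]
      nlinarith
    exact (sq_le_sq₀ (norm_nonneg _) (by positivity)).1 h8

end Pool.Agent.TH369.AN
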