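import Pool.Agent.TH369.AN.Defs
import Pool.Agent.TH369.AN.UNI

/-!
# Cubes with almost constant potential exist (helper979 for helper369)
-/

set_option autoImplicit false
open MeasureTheory
open scoped InnerProductSpace

namespace Pool.Agent.TH369.AN
variable {d : ℕ}

namespace WEYL2

/-- the corner of the cube number `n` -/
noncomputable def cor (i0 : Fin d) (L : ℕ) (R : ℤ) (n : ℕ) : Zd d := Pi.single i0 (R + 1 + n * (L + 1))

/-- the cube number `n` -/
noncomputable def cube (i0 : Fin d) (L : ℕ) (R : ℤ) (n : ℕ) : Finset (Zd d) :=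
  Fintype.piFinset fun i => Finset.Ico (cor i0 L R n i) (cor i0 L R n i + L)

theorem card_cube (i0 : Fin d) (L : ℕ) (R : ℤ) (n : ℕ) : (cube i0 L R n).card = L ^ d := by
  unfold cube
  rw [Fintype.card_piFinset]
  simp

theorem disjoint_cube (i0 : Fin d) (L : ℕ) (R : ℤ) {n m : ℕ} (h : n ≠ m) :
    Disjoint (cube i0 L R n) (cube i0 L R m) := by
  rw [Finset.disjoint_left]
  intro y hn hm
  have h1 := (Finset.mem_Ico.1 ((Fintype.mem_piFinset.1 hn) i0))
  have h2 := (Finset.mem_Ico.1 ((Fintype.mem_piFinset.1 hm) i0))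
  simp only [cor, Pi.single_eq_same] at h1 h2
  rcases lt_or_gt_of_ne h with h3 | h3
  · have h4 : ((n : ℤ) + 1) * (L + 1) ≤ m * (L + 1) := by
      apply mul_le_mul_of_nonneg_right
      · exact_mod_cast h3
      · positivity
    nlinarith
  · have h4 : ((m : ℤ) + 1) * (L + 1) ≤ n * (L + 1) := by
      apply mul_le_mul_of_nonneg_right
      · exact_mod_cast h3
      · positivity
    nlinarith

/-- the event that the potential is in `S` on the cube number `n` -/
def ev (i0 : Fin d) (L : ℕ) (R : ℤ) (S : Set ℝ) (n : ℕ) : Set (Zd d → ℝ) :=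
  Set.pi (cube i0 L R n) fun _ => S

theorem measurableSet_ev (i0 : Fin d) (L : ℕ) (R : ℤ) {S : Set ℝ} (hS : MeasurableSet S)
    (n : ℕ) : MeasurableSet (ev i0 L R S n) :=
  MeasurableSet.pi (Finset.countable_toSet _) fun _ _ => hS

theorem measure_ev (μ : Measure ℝ) [IsProbabilityMeasure μ] (i0 : Fin d) (L : ℕ) (R : ℤ)
    {S : Set ℝ} (hS : MeasurableSet S) (n : ℕ) : iid d μ (ev i0 L R S n) = μ S ^ (L ^ d) := by
  unfold iid ev
  rw [Measure.infinitePi_pi _ (fun _ _ => hS), Finset.prod_const, card_cube]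

theorem indep_ev (μ : Measure ℝ) [IsProbabilityMeasure μ] (i0 : Fin d) (L : ℕ) (R : ℤ)
    {S : Set ℝ} (hS : MeasurableSet S) :
    ProbabilityTheory.iIndepSet (ev i0 L R S) (iid d μ) := by
  rw [ProbabilityTheory.iIndepSet_iff_meas_biInter (fun n => measurableSet_ev i0 L R hS n)]
  intro s
  have h1 : (⋂ i ∈ s, ev i0 L R S i) =
      Set.pi ((s.biUnion (cube i0 L R) : Finset (Zd d)) : Set (Zd d)) (fun _ => S) := by
    ext ω
    simp only [Set.mem_iInter, ev, Set.mem_pi, Finset.mem_coe, Finset.mem_biUnion]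
    constructor
    · rintro h y ⟨i, hi, hy⟩
      exact h i hi y hy
    · intro h i hi y hy
      exact h y ⟨i, hi, hy⟩
  rw [h1]
  simp_rw [measure_ev μ i0 L R hS]
  unfold iid
  rw [Measure.infinitePi_pi _ (fun _ _ => hS), Finset.prod_const, Finset.prod_const,
    Finset.card_biUnion (fun n _ m _ h => disjoint_cube i0 L R h)]
  simp_rw [card_cube]
  rw [Finset.sum_const, smul_eq_mul, ← pow_mul, mul_comm]

end WEYL2

theorem boxes_ae (i0 : Fin d) (c : ℝ) (hc : 0 < c) (v η : ℝ) (hv : v ∈ Set.Icc (-c) c)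
    (hη : 0 < η) (L : ℕ) (R : ℤ) :
    ∀ᵐ ω ∂(iid d (unif c)), ∃ x0 : Zd d, R < x0 i0 ∧
      ∀ y : Zd d, (∀ i, x0 i ≤ y i ∧ y i < x0 i + L) → |ω y - v| ≤ η ∧ |ω y| ≤ c := by
  have : IsProbabilityMeasure (unif c) := unif_prob c hc
  have : IsProbabilityMeasure (iid d (unif c)) := by
    unfold iid
    infer_instance
  set S : Set ℝ := Set.Icc (v - η) (v + η) ∩ Set.Icc (-c) c with hSdef
  have hS : MeasurableSet S := measurableSet_Icc.inter measurableSet_Icc
  have hpos : unif c S ≠ 0 := by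
    have h1 : unif c (Set.Icc (v - η) (v + η)) ≤ unif c S + unif c (Set.Icc (-c) c)ᶜ := by
      refine (measure_mono ?_).trans (measure_union_le _ _)
      intro x hx
      by_cases h : x ∈ Set.Icc (-c) c
      · exact Or.inl ⟨hx, h⟩
      · exact Or.inr h
    rw [unif_supp, add_zero] at h1
    exact ((unif_open c hc v η hv hη).trans_le h1).ne'
  have hsum : ∑' n, iid d (unif c) (WEYL2.ev i0 L R S n) = ⊤ := by
    simp_rw [WEYL2.measure_ev (unif c) i0 L R hS]
    exact ENNReal.tsum_const_eq_top_of_ne_zero (pow_ne_zero _ hpos)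
  have hlim := ProbabilityTheory.measure_limsup_eq_one
    (fun n => WEYL2.measurableSet_ev i0 L R hS n) (WEYL2.indep_ev (unif c) i0 L R hS) hsum
  have hae : ∀ᵐ ω ∂(iid d (unif c)), ω ∈ Filter.limsup (WEYL2.ev i0 L R S) Filter.atTop := by
    exact (mem_ae_iff_prob_eq_one₀ (MeasurableSet.measurableSet_limsup
      fun n => WEYL2.measurableSet_ev i0 L R hS n).nullMeasurableSet).2 hlim
  filter_upwards [hae] with ω hω
  have h1 : ∃ᶠ n in Filter.atTop, ω ∈ WEYL2.ev i0 L R S n := Filter.mem_limsup_iff_frequently_mem.1 hω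
  obtain ⟨n, hn⟩ := h1.exists
  refine ⟨WEYL2.cor i0 L R n, ?_, ?_⟩
  · simp only [WEYL2.cor, Pi.single_eq_same]
    have : (0 : ℤ) ≤ n * (L + 1) := by positivity
    linarith
  · intro y hy
    have hy' : y ∈ WEYL2.cube i0 L R n :=
      Fintype.mem_piFinset.2 fun i => Finset.mem_Ico.2 (hy i)
    have h2 : ω y ∈ S := hn y (Finset.mem_coe.2 hy')
    refine ⟨?_, ?_⟩
    · rw [abs_le]
      constructor
      · linarith [h2.1.1]
      · linarith [h2.1.2]
    · rw [abs_le]
      exact ⟨h2.2.1, h2.2.2⟩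

end Pool.Agent.TH369.AN
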