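import Pool.Agent.TH369.AN.Defs
import Pool.Agent.TH369.AN.OP
import Pool.Agent.TH369.AN.KM
import Pool.Agent.TH369.AN.UNI
import Pool.Agent.TH369.AN.ALL
import Pool.Agent.TH369.AN.WEYL1
import Pool.Agent.TH369.AN.WEYL2

/-! AN-SPA: the spectral measure of every site has full support. -/

set_option autoImplicit false
open MeasureTheory
open scoped InnerProductSpace
namespace Pool.Agent.TH369.AN
variable {d : ℕ}

namespace SPA

lemma coe_sum' (s : Finset (Zd d)) (g : Zd d → L2 d) (z : Zd d) :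
    (((∑ y ∈ s, g y : L2 d)) : Zd d → ℂ) z = ∑ y ∈ s, (g y : Zd d → ℂ) z := by
  classical
  induction s using Finset.induction_on with
  | empty => simp
  | insert a s ha ih =>
    rw [Finset.sum_insert ha, Finset.sum_insert ha, lp.coeFn_add, Pi.add_apply, ih]

/-- a vector supported in a finite set is a combination of basis vectors -/
lemma eq_sum (s : Finset (Zd d)) (f : L2 d) (hf : ∀ y, y ∉ s → f y = 0) :
    f = ∑ y ∈ s, (f y) • dl y := by
  classical
  apply lp.ext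
  funext z
  rw [coe_sum']
  have h : ∀ y ∈ s, ((f y • dl y : L2 d) : Zd d → ℂ) z = if z = y then f y else 0 := by
    intro y _
    rw [lp.coeFn_smul, Pi.smul_apply, dl_apply, smul_eq_mul]
    split_ifs <;> simp
  rw [Finset.sum_congr rfl h, Finset.sum_ite_eq s z (fun y => f y)]
  split_ifs with hz
  · rfl
  · exact hf z hz

lemma ki_of_sites (T : L2 d →L[ℂ] L2 d) (a b : ℝ) (s : Finset (Zd d)) (f : L2 d)
    (hf : ∀ y, y ∉ s → f y = 0) (h : ∀ y ∈ s, KI a b T (dl y)) : KI a b T f := by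
  unfold KI at *
  rw [eq_sum s f hf, map_sum]
  refine Finset.sum_eq_zero fun y hy => ?_
  rw [map_smul, h y hy, smul_zero]

end SPA

theorem sp_ae (i0 : Fin d) (c : ℝ) (hc : 0 < c) (J : Finset (Zd d)) (x : Zd d)
    (hx : Ray i0 J x) :
    ∀ᵐ ω ∂(iid d (unif c)), ∀ a b : ℝ, -c ≤ a → a < b → b ≤ 4 * d + c →
      ¬ KI a b (TT J c ω) (dl x) := by
  classical
  have := unif_prob c hc
  obtain ⟨R, hR⟩ : ∃ R : ℤ, ∀ y ∈ J, y i0 ≤ R := by
    refine ⟨∑ y ∈ J, |y i0|, fun y hy => ?_⟩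
    exact (le_abs_self _).trans (Finset.single_le_sum (f := fun y : Zd d => |y i0|)
      (fun i _ => abs_nonneg _) hy)
  have h1 : ∀ᵐ ω ∂(iid d (unif c)), ∀ a b : ℚ, a < b →
      KI (a : ℝ) (b : ℝ) (TT J c ω) (dl x) →
      ∀ y : Zd d, R < y i0 → KI (a : ℝ) (b : ℝ) (TT J c ω) (dl y) := by
    rw [ae_all_iff]
    intro a
    rw [ae_all_iff]
    intro b
    by_cases hab : a < b
    · filter_upwards [all_ae c hc.le (unif c) (unif_atom c) (unif_supp c) i0 J R hR x hx (a : ℝ)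
        (b : ℝ) (by exact_mod_cast hab)] with ω hω _
      exact hω
    · exact Filter.Eventually.of_forall fun ω h => absurd h hab
  have h2 : ∀ᵐ ω ∂(iid d (unif c)), ∀ (E : ℚ) (n : ℕ), (E : ℝ) ∈ Set.Icc (-c) (4 * d + c) →
      ∃ (s : Finset (Zd d)) (f : L2 d), (∀ y ∈ s, R < y i0) ∧ f ≠ 0 ∧ (∀ y, y ∉ s → f y = 0) ∧
        ‖TT J c ω f - ((E : ℝ) : ℂ) • f‖ ≤ (1 / ((n : ℝ) + 1)) * ‖f‖ := by
    rw [ae_all_iff]
    intro E
    rw [ae_all_iff]
    intro n
    by_cases hE : (E : ℝ) ∈ Set.Icc (-c) (4 * d + c)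
    · obtain ⟨v, η, L, hv, hη, hw⟩ := weyl_det i0 c hc (E : ℝ) hE (1 / ((n : ℝ) + 1))
        (by positivity)
      filter_upwards [boxes_ae i0 c hc v η hv hη L (R + 2)] with ω hω _
      obtain ⟨x0, hx0, hbox⟩ := hω
      obtain ⟨f, hf0, hfs, hfn⟩ := hw J ω x0 (fun y hy => by have := hR y hy; omega) hbox
      refine ⟨Fintype.piFinset fun i => Finset.Ico (x0 i) (x0 i + L), f, ?_, hf0, ?_, hfn⟩
      · intro y hy
        rw [Fintype.mem_piFinset] at hy
        have := Finset.mem_Ico.1 (hy i0)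
        omega
      · intro y hy
        refine hfs y fun h => hy ?_
        rw [Fintype.mem_piFinset]
        exact fun i => Finset.mem_Ico.2 (h i)
    · exact Filter.Eventually.of_forall fun ω h => absurd h hE
  filter_upwards [h1, h2] with ω hω1 hω2 a b ha hab hb hK
  have hT := TT_sa J c ω
  obtain ⟨a', ha1, ha2⟩ := exists_rat_btwn hab
  obtain ⟨b', hb1, hb2⟩ := exists_rat_btwn ha2
  obtain ⟨E, hE1, hE2⟩ := exists_rat_btwn hb1
  have hK' := ki_mono (TT J c ω) hT a b a' b' ha1.le hb2.le (dl x) hK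
  have hy := hω1 a' b' (by exact_mod_cast hb1) hK'
  have hm : 0 < min ((E : ℝ) - a') (b' - E) := lt_min (by linarith) (by linarith)
  obtain ⟨n, hn⟩ := exists_nat_one_div_lt hm
  obtain ⟨s, f, hs, hf0, hfs, hfn⟩ := hω2 E n ⟨by linarith, by linarith⟩
  have hKf := SPA.ki_of_sites (TT J c ω) a' b' s f hfs fun y hys => hy y (hs y hys)
  have hg := gap (TT J c ω) hT a' b' E hE1 hE2 f hKf
  have hpos : 0 < ‖f‖ := norm_pos_iff.2 hf0
  have := hg.trans hfn
  have h3 := le_of_mul_le_mul_right this hpos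
  linarith

end Pool.Agent.TH369.AN
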