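import Pool.Agent.TH369.AN.Defs
import Pool.Agent.TH369.AN.OP
import Pool.Agent.TH369.AN.UPD
import Pool.Agent.TH369.AN.BAD
import Pool.Agent.TH369.AN.FUB
import Pool.Agent.TH369.AN.UNI
import Pool.Agent.TH369.AN.FACT
import Pool.Agent.TH369.AN.SPA
set_option autoImplicit false
open MeasureTheory
open scoped InnerProductSpace
namespace Pool.Agent.TH369.AN
variable {d : ℕ}

namespace STEP

/-- the span of the basis vectors of the sites of `Λ` -/
noncomputable def VL (Λ : Finset (Zd d)) : Submodule ℂ (L2 d) :=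
  Submodule.span ℂ (Set.range fun x : Λ => dl (x : Zd d))

instance (Λ : Finset (Zd d)) : FiniteDimensional ℂ (VL Λ) :=
  FiniteDimensional.span_of_finite ℂ (Set.finite_range _)

theorem finrank_le (Λ : Finset (Zd d)) : Module.finrank ℂ (VL Λ) ≤ Λ.card := by
  have := finrank_range_le_card (R := ℂ) (fun x : Λ => dl (x : Zd d))
  rw [Fintype.card_coe] at this
  exact this

theorem mem_of_supp (Λ : Finset (Zd d)) (φ : L2 d) (h : ∀ x, x ∉ Λ → φ x = 0) : φ ∈ VL Λ := by
  have h1 : φ = ∑ x ∈ Λ, (φ x) • dl x := by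
    apply lp.ext
    funext y
    rw [lp.coeFn_sum, Finset.sum_apply]
    simp only [lp.coeFn_smul, Pi.smul_apply, dl_apply, smul_eq_mul, mul_ite, mul_one, mul_zero]
    rw [Finset.sum_ite_eq]
    split_ifs with hy
    · rfl
    · exact h y hy
  rw [h1]
  refine Submodule.sum_mem _ fun x hx => Submodule.smul_mem _ _ ?_
  exact Submodule.subset_span ⟨⟨x, hx⟩, rfl⟩

theorem supp_of_mem (Λ : Finset (Zd d)) (φ : L2 d) (h : φ ∈ VL Λ) (x : Zd d) (hx : x ∉ Λ) :
    φ x = 0 := by
  unfold VL at h
  induction h using Submodule.span_induction with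
  | mem y hy =>
    obtain ⟨z, rfl⟩ := hy
    rw [dl_apply, if_neg]
    rintro rfl
    exact hx z.2
  | zero => simp
  | add u v _ _ hu hv => rw [lp.coeFn_add, Pi.add_apply, hu, hv, add_zero]
  | smul r u _ hu => rw [lp.coeFn_smul, Pi.smul_apply, hu, smul_zero]

end STEP

open STEP in
theorem step (i0 : Fin d) (c : ℝ) (hc : 0 < c) (J Λ : Finset (Zd d)) (j : Zd d) (hj : j ∈ Λ)
    (hJ : Disjoint J Λ) (hray : Ray i0 J j) (a b : ℝ) (ha : -c ≤ a) (hab : a < b)
    (hb : b ≤ 4 * d + c) (hn : iid d (unif c) (Bad (insert j J) (Λ.erase j) a b c) = 0) :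
    iid d (unif c) (Bad J Λ a b c) = 0 := by
  have hP : IsProbabilityMeasure (unif c) := unif_prob c hc
  have hNA : NullSingletonClass (unif c) := ⟨fun x => unif_atom c x⟩
  have hjJ : j ∉ J := fun h => (Finset.disjoint_left.1 hJ h) hj
  refine null_of_sections (unif c) j (Bad J Λ a b c) (meas_bad J Λ a b c hc.le) ?_
  have h1 : ∀ᵐ ω ∂(iid d (unif c)), ω ∉ Bad (insert j J) (Λ.erase j) a b c :=
    measure_eq_zero_iff_ae_notMem.1 hn
  have h2 := ae_update (unif c) j _ (sp_ae i0 c hc J j hray)
  filter_upwards [h1, h2] with ω hω hsp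
  obtain ⟨t1, ht1⟩ := hsp.exists
  have hTu : ∀ t, TT J c (Function.update ω j t) =
      pt (TT J c (Function.update ω j 0)) (dl j) (cl c t) :=
    fun t => TT_update J c hc.le ω j hjJ t
  set T := TT J c (Function.update ω j 0) with hT
  have hTsa : IsSelfAdjoint T := TT_sa _ _ _
  have hfin : ({t : ℝ | Function.update ω j t ∈ Bad J Λ a b c} ∩ Set.Icc (-c) c).Finite := by
    by_contra hinf
    have hinf : ({t : ℝ | Function.update ω j t ∈ Bad J Λ a b c} ∩ Set.Icc (-c) c).Infinite := hinf
    let f := hinf.natEmbedding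
    let t : Fin (Λ.card + 1) → ℝ := fun i => (f i : ℝ)
    have ht : Function.Injective t := by
      intro x y hxy
      have := f.injective (Subtype.ext hxy)
      exact Fin.ext this
    have htm : ∀ i, Function.update ω j (t i) ∈ Bad J Λ a b c := fun i => (f i).2.1
    have htc : ∀ i, cl c (t i) = t i := by
      intro i
      have := (f i).2.2
      unfold cl
      change max (-c) (min c (t i)) = t i
      rw [min_eq_right this.2, max_eq_right this.1]
    choose φ hφ0 hφs hφK using htm
    have hK : ∀ i, KI a b (pt T (dl j) (t i)) (φ i) := by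
      intro i
      have := hφK i
      rw [hTu, htc] at this
      exact this
    obtain ⟨φ', hφ', hne, hKI⟩ := fact T hTsa (dl j) (norm_dl j) a b hab Λ.card (VL Λ)
      (finrank_le Λ) t ht φ hφ0 (fun i => mem_of_supp Λ _ (hφs i)) hK (cl c t1) (by
        intro a' b' h1 h2 h3
        have := ht1 a' b' (ha.trans h1) h2 (h3.trans hb)
        rw [hTu] at this
        exact this)
    refine hω ⟨φ' - ⟪dl j, φ'⟫_ℂ • dl j, hne, ?_, ?_⟩
    · intro x hx
      rw [lp.coeFn_sub, Pi.sub_apply, lp.coeFn_smul, Pi.smul_apply, dl_apply, inner_dl]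
      by_cases hxj : x = j
      · subst hxj
        simp
      · have hxΛ : x ∉ Λ := fun h => hx (Finset.mem_erase.2 ⟨hxj, h⟩)
        rw [if_neg hxj, supp_of_mem Λ φ' hφ' x hxΛ]
        simp
    · have e1 : cp T (dl j) = TT (insert j J) c ω := by
        rw [hT, TT_insert J c _ j hjJ]
        apply TT_congr
        intro x hx
        rw [Function.update_of_ne]
        rintro rfl
        exact hx (Finset.mem_insert_self _ _)
      rw [← e1]
      exact hKI
  have hsub : {t : ℝ | Function.update ω j t ∈ Bad J Λ a b c} ⊆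
      ({t : ℝ | Function.update ω j t ∈ Bad J Λ a b c} ∩ Set.Icc (-c) c) ∪ (Set.Icc (-c) c)ᶜ := by
    intro t ht
    by_cases h : t ∈ Set.Icc (-c) c
    · exact Or.inl ⟨ht, h⟩
    · exact Or.inr h
  exact measure_mono_null hsub (measure_union_null (hfin.measure_zero _) (unif_supp c))

end Pool.Agent.TH369.AN
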