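import Pool.Agent.TH369.AN.Defs
import Pool.Agent.TH369.AN.STEP
set_option autoImplicit false
open MeasureTheory
open scoped InnerProductSpace
namespace Pool.Agent.TH369.AN
variable {d : ℕ}

namespace IND

lemma bad_empty (J : Finset (Zd d)) (a b c : ℝ) : Bad J ∅ a b c = ∅ := by
  rw [Set.eq_empty_iff_forall_notMem]
  rintro ω ⟨φ, hφ, h, -⟩
  apply hφ
  ext x
  simpa using h x (Finset.notMem_empty x)

lemma ee_self (i : Fin d) (x : Zd d) (n : ℕ) : (x + (n : ℤ) • ee i) i = x i + n := by
  simp [ee]

lemma main (i0 : Fin d) (c : ℝ) (hc : 0 < c) (a b : ℝ) (ha : -c ≤ a)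
    (hab : a < b) (hb : b ≤ 4 * d + c) (n : ℕ) : ∀ J Λ : Finset (Zd d), Λ.card = n →
    (∀ y ∈ J, ∀ x ∈ Λ, y i0 ≤ x i0) → Disjoint J Λ → iid d (unif c) (Bad J Λ a b c) = 0 := by
  induction n with
  | zero =>
    intro J Λ hcard _ _
    rw [Finset.card_eq_zero] at hcard
    rw [hcard, bad_empty, measure_empty]
  | succ n ih =>
    intro J Λ hcard hle hdis
    have hne : Λ.Nonempty := by
      rw [← Finset.card_pos]
      omega
    obtain ⟨j, hj, hmin⟩ := Finset.exists_min_image Λ (fun x => x i0) hne
    have hjJ : j ∉ J := fun h => (Finset.disjoint_left.1 hdis h) hj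
    have hray : Ray i0 J j := by
      intro k hk
      by_cases hk0 : k = 0
      · subst hk0
        apply hjJ
        simpa using hk
      · have h1 := hle _ hk j hj
        rw [ee_self] at h1
        omega
    refine step i0 c hc J Λ j hj hdis hray a b ha hab hb (ih _ _ ?_ ?_ ?_)
    · rw [Finset.card_erase_of_mem hj, hcard]
      omega
    · intro y hy x hx
      rw [Finset.mem_insert] at hy
      have hx' := Finset.mem_of_mem_erase hx
      rcases hy with rfl | hy
      · exact hmin x hx'
      · exact hle y hy x hx'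
    · rw [Finset.disjoint_left]
      intro y hy hy'
      rw [Finset.mem_insert] at hy
      rcases hy with rfl | hy
      · exact (Finset.notMem_erase _ _) hy'
      · exact Finset.disjoint_left.1 hdis hy (Finset.mem_of_mem_erase hy')

end IND

theorem bad_null (i0 : Fin d) (c : ℝ) (hc : 0 < c) (Λ : Finset (Zd d)) (a b : ℝ) (ha : -c ≤ a)
    (hab : a < b) (hb : b ≤ 4 * d + c) : iid d (unif c) (Bad ∅ Λ a b c) = 0 :=
  IND.main i0 c hc a b ha hab hb Λ.card ∅ Λ rfl (by simp) (Finset.disjoint_empty_left _)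

end Pool.Agent.TH369.AN
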