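import Pool.Agent.TH369.AN.Defs
import Pool.Agent.H4R2.LO.Defs

/-!
# Lifshitz type bound on a torus for the uniform law (job AN-TOR, helper306)
-/

set_option autoImplicit false
open MeasureTheory
open scoped InnerProductSpace
namespace Pool.Agent.TH369.AN

namespace TOR

open Pool.Agent.H4R2.LO (T TorusBound)

section form

variable {G : Type} [AddCommGroup G] [Fintype G]

lemma sum_shift (F : G → ℝ) (a : G) : ∑ x, F (x + a) = ∑ x, F x :=
  Equiv.sum_comp (Equiv.addRight a) F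

lemma form_dir (f : G → ℝ) (e : G) :
    ∑ x, f x * (2 * f x - f (x + e) - f (x - e)) = ∑ x, (f (x + e) - f x) ^ 2 := by
  have h1 : ∑ x, f (x + e) ^ 2 = ∑ x, f x ^ 2 := sum_shift (fun x => f x ^ 2) e
  have h2 : ∑ x, f x * f (x - e) = ∑ x, f (x + e) * f x := by
    rw [← sum_shift (fun x => f x * f (x - e)) e]
    simp
  have h3 : ∀ x, f x * (2 * f x - f (x + e) - f (x - e)) =
      2 * f x ^ 2 - f (x + e) * f x - f x * f (x - e) := fun x => by ring
  have h4 : ∀ x, (f (x + e) - f x) ^ 2 = f (x + e) ^ 2 - 2 * (f (x + e) * f x) + f x ^ 2 :=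
    fun x => by ring
  simp only [h3, h4, Finset.sum_sub_distrib, Finset.sum_add_distrib, ← Finset.mul_sum]
  rw [h1, h2]
  ring

lemma key (f V : G → ℝ) (e : G) (l : ℕ) (hl : ∀ x, ∃ n < l, 0 ≤ V (x + n • e)) :
    ∑ x, f x ^ 2 ≤ 2 * l * (∑ y, if 0 ≤ V y then f y ^ 2 else 0) +
      2 * l ^ 2 * ∑ x, (f (x + e) - f x) ^ 2 := by
  set g : G → ℝ := fun y => if 0 ≤ V y then f y ^ 2 else 0 with hg
  set F : G → ℝ := fun y => (f (y + e) - f y) ^ 2 with hF
  have hg0 : ∀ y, 0 ≤ g y := by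
    intro y
    simp only [hg]
    split_ifs
    · positivity
    · exact le_rfl
  have hF0 : ∀ y, 0 ≤ F y := fun y => sq_nonneg _
  have h1 : ∀ x, f x ^ 2 ≤ 2 * ∑ n ∈ Finset.range l, g (x + n • e) +
      2 * l * ∑ i ∈ Finset.range l, F (x + i • e) := by
    intro x
    obtain ⟨n, hn, hV⟩ := hl x
    have h2 : g (x + n • e) ≤ ∑ n ∈ Finset.range l, g (x + n • e) :=
      Finset.single_le_sum (f := fun n => g (x + n • e)) (fun i _ => hg0 _)
        (Finset.mem_range.2 hn)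
    have h3 : g (x + n • e) = f (x + n • e) ^ 2 := by
      simp only [hg]
      rw [if_pos hV]
    have h4 : f (x + n • e) - f x =
        ∑ i ∈ Finset.range n, (f (x + (i + 1) • e) - f (x + i • e)) := by
      rw [Finset.sum_range_sub (fun i => f (x + i • e)) n]
      simp
    have h5 : ∀ i : ℕ, (f (x + (i + 1) • e) - f (x + i • e)) ^ 2 = F (x + i • e) := by
      intro i
      simp only [hF]
      rw [succ_nsmul, add_assoc]
    have h6 : (f (x + n • e) - f x) ^ 2 ≤ l * ∑ i ∈ Finset.range l, F (x + i • e) := by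
      rw [h4]
      refine sq_sum_le_card_mul_sum_sq.trans ?_
      simp only [h5, Finset.card_range]
      have h7 : ∑ i ∈ Finset.range n, F (x + i • e) ≤ ∑ i ∈ Finset.range l, F (x + i • e) :=
        Finset.sum_le_sum_of_subset_of_nonneg (Finset.range_subset_range.2 hn.le)
          fun i _ _ => hF0 _
      have h8 : (n : ℝ) ≤ l := by exact_mod_cast hn.le
      have h9 : 0 ≤ ∑ i ∈ Finset.range l, F (x + i • e) := Finset.sum_nonneg fun i _ => hF0 _
      calc (n : ℝ) * ∑ i ∈ Finset.range n, F (x + i • e)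
          ≤ n * ∑ i ∈ Finset.range l, F (x + i • e) :=
            mul_le_mul_of_nonneg_left h7 (Nat.cast_nonneg _)
        _ ≤ l * ∑ i ∈ Finset.range l, F (x + i • e) := mul_le_mul_of_nonneg_right h8 h9
    have h10 : f x ^ 2 ≤ 2 * f (x + n • e) ^ 2 + 2 * (f (x + n • e) - f x) ^ 2 := by
      nlinarith [sq_nonneg (2 * f (x + n • e) - f x)]
    rw [h3] at h2
    nlinarith
  have h2 : ∑ x, f x ^ 2 ≤ ∑ x, (2 * ∑ n ∈ Finset.range l, g (x + n • e) +
      2 * l * ∑ i ∈ Finset.range l, F (x + i • e)) := Finset.sum_le_sum fun x _ => h1 x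
  refine h2.trans (le_of_eq ?_)
  rw [Finset.sum_add_distrib, ← Finset.mul_sum, ← Finset.mul_sum, Finset.sum_comm,
    Finset.sum_comm (s := Finset.univ) (t := Finset.range l) (f := fun x i => F (x + i • e))]
  simp only [sum_shift, Finset.sum_const, Finset.card_range, nsmul_eq_mul]
  ring

lemma bound (f V : G → ℝ) (e : G) (l : ℕ) (hl0 : 1 ≤ l) (c : ℝ) (hc : 0 < c)
    (hcl : 1 / c ≤ l) (hV : ∀ x, -c ≤ V x) (hl : ∀ x, ∃ n < l, 0 ≤ V (x + n • e)) :
    1 / (2 * (l : ℝ) ^ 2) * ∑ x, f x ^ 2 ≤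
      ∑ x, (V x + c) * f x ^ 2 + ∑ x, (f (x + e) - f x) ^ 2 := by
  have h1 := key f V e l hl
  have hl1 : (1 : ℝ) ≤ l := by exact_mod_cast hl0
  have h2 : c * (∑ y, if 0 ≤ V y then f y ^ 2 else 0) ≤ ∑ x, (V x + c) * f x ^ 2 := by
    rw [Finset.mul_sum]
    refine Finset.sum_le_sum fun y _ => ?_
    have h3 := hV y
    split_ifs with h
    · nlinarith [sq_nonneg (f y)]
    · rw [mul_zero]
      exact mul_nonneg (by linarith) (sq_nonneg _)
  set A := ∑ y, (if 0 ≤ V y then f y ^ 2 else 0) with hA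
  set D := ∑ x, (f (x + e) - f x) ^ 2 with hD
  set W := ∑ x, (V x + c) * f x ^ 2 with hW
  have hA0 : 0 ≤ A := Finset.sum_nonneg fun y _ => by
    split_ifs
    · positivity
    · exact le_rfl
  have hW0 : 0 ≤ W := Finset.sum_nonneg fun y _ => mul_nonneg (by linarith [hV y]) (sq_nonneg _)
  have h3 : A ≤ l * W := by
    have h4 : A ≤ (1 / c) * W := by
      rw [one_div, ← div_eq_inv_mul, le_div_iff₀ hc]
      linarith
    exact h4.trans (mul_le_mul_of_nonneg_right hcl hW0)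
  have h4 : ∑ x, f x ^ 2 ≤ 2 * (l : ℝ) ^ 2 * (W + D) := by
    have h5 : 2 * (l : ℝ) * A ≤ 2 * l * (l * W) :=
      mul_le_mul_of_nonneg_left h3 (by positivity)
    nlinarith
  rw [one_div, ← div_eq_inv_mul, div_le_iff₀ (by positivity)]
  linarith

lemma form_final {d : ℕ} (f V : G → ℝ) (e : Fin d → G) (i0 : Fin d) (l : ℕ) (hl0 : 1 ≤ l)
    (c : ℝ) (hc : 0 < c) (hcl : 1 / c ≤ l) (hV : ∀ x, -c ≤ V x)
    (hl : ∀ x, ∃ n < l, 0 ≤ V (x + n • e i0)) :
    (-c + 2 * (1 / (4 * (l : ℝ) ^ 2))) * ∑ x, f x ^ 2 ≤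
      ∑ x, f x * (∑ i : Fin d, (2 * f x - f (x + e i) - f (x - e i)) + 1 * V x * f x) := by
  have h1 := bound f V (e i0) l hl0 c hc hcl hV hl
  have h2 : ∑ x, f x * (∑ i : Fin d, (2 * f x - f (x + e i) - f (x - e i)) +
        1 * V x * f x) =
      (∑ i : Fin d, ∑ x, (f (x + e i) - f x) ^ 2) + ∑ x, V x * f x ^ 2 := by
    have h3 : ∀ x, f x * (∑ i : Fin d, (2 * f x - f (x + e i) - f (x - e i)) +
        1 * V x * f x) =
        (∑ i : Fin d, f x * (2 * f x - f (x + e i) - f (x - e i))) +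
          V x * f x ^ 2 := by
      intro x
      rw [mul_add, Finset.mul_sum]
      ring
    simp only [h3]
    rw [Finset.sum_add_distrib, Finset.sum_comm]
    simp only [form_dir]
  have h3 : ∑ x, (f (x + e i0) - f x) ^ 2 ≤
      ∑ i : Fin d, ∑ x, (f (x + e i) - f x) ^ 2 :=
    Finset.single_le_sum (f := fun i : Fin d => ∑ x, (f (x + e i) - f x) ^ 2)
      (fun i _ => Finset.sum_nonneg fun x _ => sq_nonneg _) (Finset.mem_univ i0)
  have h4 : ∑ x, (V x + c) * f x ^ 2 = ∑ x, V x * f x ^ 2 + c * ∑ x, f x ^ 2 := by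
    rw [Finset.mul_sum, ← Finset.sum_add_distrib]
    exact Finset.sum_congr rfl fun x _ => by ring
  rw [h2]
  have h5 : (-c + 2 * (1 / (4 * (l : ℝ) ^ 2))) * ∑ x, f x ^ 2 =
      1 / (2 * (l : ℝ) ^ 2) * ∑ x, f x ^ 2 - c * ∑ x, f x ^ 2 := by
    have hl1 : (l : ℝ) ≠ 0 := by
      have : (1 : ℝ) ≤ l := by exact_mod_cast hl0
      linarith
    field_simp
    ring
  rw [h5]
  linarith

end form

lemma unif_univ (c : ℝ) (hc : 0 < c) : unif c Set.univ = 1 := by
  unfold unif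
  rw [Measure.smul_apply, Measure.restrict_apply_univ, Real.volume_Icc, smul_eq_mul,
    ← ENNReal.ofReal_mul (by positivity)]
  have : 1 / (2 * c) * (c - -c) = 1 := by field_simp; ring
  rw [this, ENNReal.ofReal_one]

lemma unif_compl (c : ℝ) : unif c (Set.Icc (-c) c)ᶜ = 0 := by
  unfold unif
  rw [Measure.smul_apply, Measure.restrict_apply measurableSet_Icc.compl, Set.compl_inter_self,
    measure_empty, smul_zero]

lemma unif_Iio (c : ℝ) (hc : 0 < c) : unif c (Set.Iio 0) = ENNReal.ofReal (1 / 2) := by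
  unfold unif
  have h : Set.Iio (0 : ℝ) ∩ Set.Icc (-c) c = Set.Ico (-c) 0 := by
    ext x
    simp only [Set.mem_inter_iff, Set.mem_Iio, Set.mem_Icc, Set.mem_Ico]
    constructor
    · rintro ⟨h1, h2, h3⟩
      exact ⟨h2, h1⟩
    · rintro ⟨h1, h2⟩
      exact ⟨h2, h1, by linarith⟩
  rw [Measure.smul_apply, Measure.restrict_apply measurableSet_Iio, h, Real.volume_Ico,
    smul_eq_mul, ← ENNReal.ofReal_mul (by positivity)]
  congr 1
  field_simp
  ring

variable {d : ℕ}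

section prob

variable {L : ℕ} [NeZero L]

lemma inj (i0 : Fin d) (l : ℕ) (hl : l ≤ L) (x : T d L) :
    Set.InjOn (fun n : ℕ => x + n • (Pi.single i0 1 : T d L)) (Finset.range l : Set ℕ) := by
  intro n hn m hm h
  rw [Finset.mem_coe, Finset.mem_range] at hn hm
  have h1 : x i0 + n • (1 : ZMod L) = x i0 + m • (1 : ZMod L) := by
    have h0 := congrFun h i0
    simp only [Pi.add_apply, Pi.smul_apply, Pi.single_eq_same] at h0
    exact h0
  rw [add_right_inj, nsmul_one, nsmul_one] at h1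
  have h2 := (ZMod.natCast_eq_natCast_iff' n m L).1 h1
  rwa [Nat.mod_eq_of_lt (by omega), Nat.mod_eq_of_lt (by omega)] at h2

lemma ev (c : ℝ) (hc : 0 < c) (i0 : Fin d) (l : ℕ) (hl : l ≤ L) (x : T d L) :
    (Measure.pi fun _ : T d L => unif c)
      {V | ∀ n < l, V (x + n • (Pi.single i0 1 : T d L)) < 0} ≤ ENNReal.ofReal ((1 / 2) ^ l) := by
  haveI : IsProbabilityMeasure (unif c) := ⟨unif_univ c hc⟩
  classical
  set S : Finset (T d L) :=
    (Finset.range l).image (fun n : ℕ => x + n • (Pi.single i0 1 : T d L)) with hS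
  have hcard : S.card = l := by
    rw [hS, Finset.card_image_of_injOn (inj i0 l hl x), Finset.card_range]
  have hset : {V : T d L → ℝ | ∀ n < l, V (x + n • (Pi.single i0 1 : T d L)) < 0} =
      Set.pi Set.univ (fun y => if y ∈ S then Set.Iio (0 : ℝ) else Set.univ) := by
    ext V
    simp only [Set.mem_ofPred_eq, Set.mem_pi, Set.mem_univ, true_imp_iff]
    constructor
    · intro h y
      split_ifs with hy
      · rw [hS, Finset.mem_image] at hy
        obtain ⟨n, hn, rfl⟩ := hy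
        exact h n (Finset.mem_range.1 hn)
      · trivial
    · intro h n hn
      have h1 := h (x + n • (Pi.single i0 1 : T d L))
      rw [if_pos (by
        rw [hS, Finset.mem_image]
        exact ⟨n, Finset.mem_range.2 hn, rfl⟩)] at h1
      exact h1
  rw [hset, Measure.pi_pi]
  have h1 : ∀ y : T d L, unif c (if y ∈ S then Set.Iio (0 : ℝ) else Set.univ) =
      if y ∈ S then ENNReal.ofReal (1 / 2) else 1 := by
    intro y
    split_ifs
    · exact unif_Iio c hc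
    · exact unif_univ c hc
  simp only [h1]
  rw [Finset.prod_ite, Finset.prod_const_one, mul_one, Finset.prod_const,
    Finset.filter_mem_eq_inter, Finset.univ_inter, hcard, ENNReal.ofReal_pow (by norm_num)]

/-- the good potentials -/
def Gd (c : ℝ) (i0 : Fin d) (l : ℕ) : Set (T d L → ℝ) :=
  {V | (∀ x, V x ∈ Set.Icc (-c) c) ∧ ∀ x, ∃ n < l, 0 ≤ V (x + n • (Pi.single i0 1 : T d L))}

lemma Gd_eq (c : ℝ) (i0 : Fin d) (l : ℕ) : (Gd c i0 l : Set (T d L → ℝ)) =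
    (⋂ x, {V | V x ∈ Set.Icc (-c) c}) ∩
      ⋂ x, ⋃ n : ℕ, ⋃ (_ : n < l), {V | 0 ≤ V (x + n • (Pi.single i0 1 : T d L))} := by
  ext V
  simp [Gd]

lemma Gd_meas (c : ℝ) (i0 : Fin d) (l : ℕ) : MeasurableSet (Gd c i0 l : Set (T d L → ℝ)) := by
  rw [Gd_eq]
  refine (MeasurableSet.iInter fun x => measurable_pi_apply x measurableSet_Icc).inter
    (MeasurableSet.iInter fun x => MeasurableSet.iUnion fun n => MeasurableSet.iUnion fun _ => ?_)
  exact measurable_pi_apply (x + n • (Pi.single i0 1 : T d L)) measurableSet_Ici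

lemma Gd_prob (c : ℝ) (hc : 0 < c) (i0 : Fin d) (l : ℕ) (hl : l ≤ L) :
    1 - (L : ℝ) ^ d * (1 / 2) ^ l ≤
      (Measure.pi fun _ : T d L => unif c).real (Gd c i0 l) := by
  haveI : IsProbabilityMeasure (unif c) := ⟨unif_univ c hc⟩
  set P := Measure.pi fun _ : T d L => unif c with hP
  have hsub : (Gd c i0 l : Set (T d L → ℝ))ᶜ ⊆
      (⋃ x : T d L, {V | V x ∈ (Set.Icc (-c) c)ᶜ}) ∪
        ⋃ x : T d L, {V | ∀ n < l, V (x + n • (Pi.single i0 1 : T d L)) < 0} := by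
    intro V hV
    by_contra h
    apply hV
    rw [Set.mem_union, not_or] at h
    obtain ⟨h1, h2⟩ := h
    simp only [Set.mem_iUnion, Set.mem_ofPred_eq, not_exists] at h1 h2
    refine ⟨fun x => by
      by_contra h3
      exact h1 x h3, fun x => ?_⟩
    have h3 := h2 x
    push Not at h3
    exact h3
  have h1 : P (⋃ x : T d L, {V | V x ∈ (Set.Icc (-c) c)ᶜ}) = 0 := by
    refine measure_iUnion_null fun x => ?_
    have h2 : {V : T d L → ℝ | V x ∈ (Set.Icc (-c) c)ᶜ} =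
        Function.eval x ⁻¹' (Set.Icc (-c) c)ᶜ := rfl
    have h3 := (measurePreserving_eval (fun _ : T d L => unif c) x).measure_preimage
      (measurableSet_Icc (a := -c) (b := c)).compl.nullMeasurableSet
    rw [h2, hP, h3, unif_compl]
  have h2 : P (⋃ x : T d L, {V | ∀ n < l, V (x + n • (Pi.single i0 1 : T d L)) < 0}) ≤
      ENNReal.ofReal ((L : ℝ) ^ d * (1 / 2) ^ l) := by
    refine (measure_iUnion_fintype_le P _).trans ?_
    refine (Finset.sum_le_sum fun x _ => ev c hc i0 l hl x).trans ?_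
    have h3 : Fintype.card (T d L) = L ^ d := by
      simp [T, ZMod.card]
    have h5 : ((L ^ d : ℕ) : ENNReal) = ENNReal.ofReal ((L : ℝ) ^ d) := by
      rw [← ENNReal.ofReal_natCast]
      push_cast
      rfl
    rw [Finset.sum_const, Finset.card_univ, nsmul_eq_mul, h3, h5,
      ← ENNReal.ofReal_mul (by positivity)]
  have h3 : P (Gd c i0 l : Set (T d L → ℝ))ᶜ ≤ ENNReal.ofReal ((L : ℝ) ^ d * (1 / 2) ^ l) := by
    calc P (Gd c i0 l : Set (T d L → ℝ))ᶜ ≤ _ := measure_mono hsub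
      _ ≤ _ := measure_union_le _ _
      _ ≤ 0 + ENNReal.ofReal ((L : ℝ) ^ d * (1 / 2) ^ l) := add_le_add h1.le h2
      _ = _ := zero_add _
  have h4 : P.real (Gd c i0 l : Set (T d L → ℝ))ᶜ ≤ (L : ℝ) ^ d * (1 / 2) ^ l :=
    ENNReal.toReal_le_of_le_ofReal (by positivity) h3
  have h5 := probReal_compl_eq_one_sub (μ := P) (Gd_meas (L := L) c i0 l)
  linarith

lemma tb (i0 : Fin d) (c : ℝ) (hc : 0 < c) (l : ℕ) (hl0 : 1 ≤ l) (hcl : 1 / c ≤ l)
    (hl : l ≤ L) :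
    TorusBound d L (unif c) 1 (-c + 2 * (1 / (4 * (l : ℝ) ^ 2))) ((L : ℝ) ^ d * (1 / 2) ^ l) := by
  refine ⟨Gd c i0 l, Gd_meas c i0 l, Gd_prob c hc i0 l hl, ?_⟩
  intro V hV f
  exact form_final f V (fun i => Pi.single i 1) i0 l hl0 c hc hcl (fun x => (hV.1 x).1) hV.2

end prob

lemma exists_l (d : ℕ) (c : ℝ) (C : ℝ) :
    ∃ l : ℕ, 1 ≤ l ∧ 1 / c ≤ l ∧
      (8 * (l : ℝ) ^ 2) ^ C * ((2 * (8 * (l : ℝ) ^ 2) ^ C) ^ d * (1 / 2) ^ l) ≤ 1 := by
  set s : ℝ := 2 * C * (d + 1) with hs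
  set K : ℝ := 2 ^ d * ((8 : ℝ) ^ C) ^ (d + 1) with hK
  have h1 := (tendsto_rpow_mul_exp_neg_mul_atTop_nhds_zero s (Real.log 2)
    (Real.log_pos one_lt_two)).comp tendsto_natCast_atTop_atTop (α := ℕ)
  have h2 := h1.const_mul K
  rw [mul_zero] at h2
  have h3 := h2.eventually (ge_mem_nhds (zero_lt_one' ℝ))
  have h4 : ∀ᶠ l : ℕ in Filter.atTop, 1 / c ≤ (l : ℝ) :=
    tendsto_natCast_atTop_atTop.eventually (Filter.eventually_ge_atTop (1 / c))
  obtain ⟨l, hl1, hl2, hl3⟩ := (h3.and (h4.and (Filter.eventually_ge_atTop 1))).exists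
  refine ⟨l, hl3, hl2, ?_⟩
  refine le_trans (le_of_eq ?_) hl1
  have hl0 : (0 : ℝ) ≤ l := Nat.cast_nonneg _
  simp only [Function.comp]
  have e1 : Real.exp (-Real.log 2 * l) = (1 / 2) ^ l := by
    rw [mul_comm, Real.exp_nat_mul, Real.exp_neg, Real.exp_log two_pos, one_div]
  have e2 : (8 * (l : ℝ) ^ 2) ^ C = (8 : ℝ) ^ C * (l : ℝ) ^ (2 * C) := by
    rw [Real.mul_rpow (by norm_num) (by positivity), ← Real.rpow_natCast_mul hl0]
    norm_num
  have e3 : (l : ℝ) ^ s = ((l : ℝ) ^ (2 * C)) ^ (d + 1) := by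
    rw [← Real.rpow_mul_natCast hl0, hs]
    push_cast
    rfl
  rw [e1, e2, e3, hK]
  ring

end TOR

variable {d : ℕ}

theorem torus (hd : 1 ≤ d) (c : ℝ) (hc : 0 < c) (C : ℝ) (hC : 1 ≤ C) :
    ∃ (κ ε0 : ℝ) (L0 : ℕ) (_ : NeZero L0), 0 < κ ∧ κ ≤ 1 ∧ 0 ≤ ε0 ∧
      Pool.Agent.H4R2.LO.TorusBound d L0 (unif c) 1 (-c + 2 * κ) ε0 ∧
      (2 / (κ * 1)) ^ C ≤ (L0 : ℝ) ∧ (2 / (κ * 1)) ^ C * ε0 ≤ 1 := by
  obtain ⟨l, hl1, hl2, hl3⟩ := TOR.exists_l d c C
  have hl : (1 : ℝ) ≤ l := by exact_mod_cast hl1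
  have hl8 : (1 : ℝ) ≤ 8 * (l : ℝ) ^ 2 := by nlinarith
  set X : ℝ := (8 * (l : ℝ) ^ 2) ^ C with hX
  have hX1 : 8 * (l : ℝ) ^ 2 ≤ X := by
    calc 8 * (l : ℝ) ^ 2 = (8 * (l : ℝ) ^ 2) ^ (1 : ℝ) := (Real.rpow_one _).symm
      _ ≤ X := Real.rpow_le_rpow_of_exponent_le hl8 hC
  have hX0 : 1 ≤ X := hl8.trans hX1
  set L : ℕ := ⌈X⌉₊ with hL
  have hLX : X ≤ L := Nat.le_ceil X
  have hLX2 : (L : ℝ) ≤ 2 * X := by
    have := Nat.ceil_lt_add_one (a := X) (by linarith)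
    linarith
  have hL0 : L ≠ 0 := by
    intro h
    rw [h] at hLX
    push_cast at hLX
    linarith
  haveI : NeZero L := ⟨hL0⟩
  have hlL : l ≤ L := by
    have : (l : ℝ) ≤ L := by nlinarith
    exact_mod_cast this
  have e1 : (2 / (1 / (4 * (l : ℝ) ^ 2) * 1)) = 8 * (l : ℝ) ^ 2 := by
    field_simp
    ring
  refine ⟨1 / (4 * (l : ℝ) ^ 2), (L : ℝ) ^ d * (1 / 2) ^ l, L, ⟨hL0⟩, by positivity, ?_,
    by positivity, TOR.tb ⟨0, hd⟩ c hc l hl1 hl2 hlL, ?_, ?_⟩
  · rw [div_le_one (by positivity)]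
    nlinarith
  · rw [e1]
    exact hLX
  · rw [e1]
    refine le_trans ?_ hl3
    refine mul_le_mul_of_nonneg_left ?_ (by positivity)
    refine mul_le_mul_of_nonneg_right ?_ (by positivity)
    exact pow_le_pow_left₀ (by positivity) hLX2 d

end Pool.Agent.TH369.AN
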