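import Pool.Agent.TH369.AN.Defs
import Pool.Agent.TH369.AN.UNI
import Pool.Agent.TH369.AN.TOR
import Pool.Agent.H4R2.LO.Main
import Pool.Agent.H4R2.LO.Lw
set_option autoImplicit false
open MeasureTheory
open scoped InnerProductSpace ENNReal
namespace Pool.Agent.TH369.AN
variable {d : ℕ}

namespace LOC

open Pool.Agent.H4R2.LO in
theorem reg_bdd' (μ : Measure ℝ) [IsProbabilityMeasure μ] (D K : ℝ) (hD : 0 < D) (hK : 0 < K)
    (h1 : μ (Set.Icc (-K) K)ᶜ = 0) (h2 : μ ≤ ENNReal.ofReal D • (volume : Measure ℝ)) :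
    Reg (D + 4 * K * D ^ 2) μ := by
  refine ⟨by positivity, ?_, ?_⟩
  · refine h2.trans ?_
    intro s
    simp only [Measure.smul_apply, smul_eq_mul]
    refine mul_le_mul' (ENNReal.ofReal_le_ofReal ?_) le_rfl
    have : 0 ≤ 4 * K * D ^ 2 := by positivity
    linarith
  · intro S hS ε hε0 hε
    have hμ : μ ≤ volume.withDensity
        ((Set.Icc (-K : ℝ) K).indicator fun _ => ENNReal.ofReal D) := by
      rw [withDensity_indicator measurableSet_Icc, withDensity_const]
      refine Measure.le_iff.2 fun s hs => ?_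
      have e1 : μ s = μ (s ∩ Set.Icc (-K) K) := by
        refine le_antisymm ?_ (measure_mono Set.inter_subset_left)
        calc μ s ≤ μ ((s ∩ Set.Icc (-K) K) ∪ (Set.Icc (-K) K)ᶜ) := by
              refine measure_mono fun x hx => ?_
              by_cases hx' : x ∈ Set.Icc (-K : ℝ) K
              · exact Or.inl ⟨hx, hx'⟩
              · exact Or.inr hx'
          _ ≤ μ (s ∩ Set.Icc (-K) K) + μ (Set.Icc (-K) K)ᶜ := measure_union_le _ _
          _ = μ (s ∩ Set.Icc (-K) K) := by rw [h1, add_zero]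
      rw [e1, Measure.smul_apply, Measure.restrict_apply hs]
      exact h2 _
    have key := Lw.prod_le μ ((Set.Icc (-K : ℝ) K).indicator fun _ => ENNReal.ofReal D)
      ((Set.Icc (-(2 * K) : ℝ) (2 * K)).indicator fun _ => ENNReal.ofReal D * ENNReal.ofReal D)
      (measurable_const.indicator measurableSet_Icc)
      (measurable_const.indicator measurableSet_Icc) hμ ?_ S hS (ENNReal.ofReal ε) hε
    · refine key.trans ?_
      rw [lintegral_indicator_const measurableSet_Icc, Real.volume_Icc,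
        ← ENNReal.ofReal_mul hD.le, ← ENNReal.ofReal_mul (by positivity),
        ← ENNReal.ofReal_mul (mul_nonneg (by positivity) (by linarith))]
      refine ENNReal.ofReal_le_ofReal ?_
      have h5 := mul_nonneg hD.le hε0
      nlinarith
    · intro t r
      by_cases ht : t ∈ Set.Icc (-K : ℝ) K
      · by_cases hr : r + t ∈ Set.Icc (-K : ℝ) K
        · have hr2 : r ∈ Set.Icc (-(2 * K) : ℝ) (2 * K) := by
            rw [Set.mem_Icc] at ht hr ⊢
            constructor <;> linarith [ht.1, ht.2, hr.1, hr.2]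
          rw [Set.indicator_of_mem ht, Set.indicator_of_mem hr, Set.indicator_of_mem hr2]
        · rw [Set.indicator_of_notMem hr, mul_zero]
          exact bot_le
      · rw [Set.indicator_of_notMem ht, zero_mul]
        exact bot_le

end LOC

open Pool.Agent.H4R2.LO in
theorem loc (hd : 1 ≤ d) (c : ℝ) (hc : 0 < c) :
    ∃ κ : ℝ, 0 < κ ∧ ∀ᵐ ω ∂(iid d (unif c)), ∃ N : Set ℝ, N.Countable ∧
      ∀ (g : Zd d → ℂ) (m : Measure ℝ), Pool.Agent.H4R2.LO.L2f g →
        Pool.Agent.H4R2.LO.IsSpec (-1) (fun x => ω x + 2 * d) g m →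
        m (Set.Iio (-c + κ) \ N) = 0 := by
  have hP : IsProbabilityMeasure (unif c) := unif_prob c hc
  have hle : unif c ≤ ENNReal.ofReal (1 / (2 * c)) • (volume : Measure ℝ) := by
    unfold unif
    rw [Measure.le_iff]
    intro S _
    rw [Measure.smul_apply, Measure.smul_apply, smul_eq_mul, smul_eq_mul]
    exact mul_le_mul' le_rfl (Measure.restrict_apply_le _ _)
  have hreg := LOC.reg_bdd' (unif c) (1 / (2 * c)) c (by positivity) hc (unif_supp c) hle
  obtain ⟨C, hC, hb⟩ := Main.below d hd _ hreg.1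
  obtain ⟨κ, ε0, L0, hL0, hκ, hκ1, hε0, hT, h1, h2⟩ := torus hd c hc C hC
  refine ⟨κ, hκ, ?_⟩
  have h3 := hb (unif c) hreg 1 one_pos le_rfl L0 (-c + 2 * κ) ε0 hε0 hT κ hκ hκ1 h1 h2
  have hbase : 2 ≤ 2 / (κ * 1) := by
    rw [le_div_iff₀ (by positivity)]
    nlinarith
  have hX : 0 < Real.log (2 / (κ * 1)) := Real.log_pos (by linarith)
  have hm : 0 < Real.sqrt κ / (C * Real.log (2 / (κ * 1))) := by
    have := Real.sqrt_pos.2 hκ
    positivity
  have h3' : ∀ᵐ ω ∂(iid d (unif c)), Main.Dec d (-1) (fun x => 1 * ω x)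
      (Set.Iic (-c + 2 * κ - 2 * d - κ)) (Real.sqrt κ / (C * Real.log (2 / (κ * 1)))) := h3
  filter_upwards [h3'] with ω hω
  have h4 := Main.dec_shift (-1) (2 * d) _ _ _ hω
  simp only [one_mul] at h4
  obtain ⟨N, hN, h5⟩ := Main.pure_point (-1) _ _ _ hm h4
  refine ⟨N, hN, fun g m hg hmm => ?_⟩
  refine measure_mono_null (Set.sdiff_subset_sdiff_left ?_) (h5 g m hg hmm)
  intro E hE
  rw [Set.mem_Iio] at hE
  change E - 2 * d ∈ Set.Iic (-c + 2 * κ - 2 * d - κ)
  rw [Set.mem_Iic]
  linarith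

end Pool.Agent.TH369.AN
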