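import Pool.Agent.TH369.AN.Defs
import Pool.Agent.TH369.AN.RES
import Pool.Agent.TH369.AN.BO
import Pool.Agent.TH369.AN.AL
import Pool.Agent.TH369.AN.SP2
import Pool.Agent.TH369.AN.OP
import Pool.Agent.TH369.AN.UNI
import Pool.Agent.TH369.AN.IND
import Pool.Agent.TH369.AN.LOC

/-!
# The final theorem: every finitely supported vector has full spectral support, and atoms of the
spectral measure accumulate at the bottom of the spectrum (job AN-FIN of helper369).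
-/

set_option autoImplicit false
open MeasureTheory
open scoped InnerProductSpace

namespace Pool.Agent.TH369.AN

variable {d : ℕ}

namespace FIN

open Pool.Agent.H4R2.LO in
theorem mem_l2 {u : Zd d → ℂ} (hu : L2f u) : Memℓp u 2 := by
  rw [memℓp_gen_iff (by norm_num)]
  simpa [L2f] using hu

open Pool.Agent.H4R2.LO in
theorem act_Hg (c : ℝ) (ω : Zd d → ℝ) (h : ∀ x, |ω x| ≤ c) (u : Zd d → ℂ) (x : Zd d) :
    act ∅ c ω u x = Hg (-1) (fun x => ω x + 2 * d) u x := by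
  have hcl : cl c (ω x) = ω x := by
    unfold cl
    have := abs_le.1 (h x)
    rw [min_eq_right this.2, max_eq_right this.1]
  simp only [act, Hg, hcl, ee, Finset.notMem_empty, if_false]
  push_cast
  ring

open Pool.Agent.H4R2.LO in
theorem spec_eq (c : ℝ) (ω : Zd d → ℝ) (h : ∀ x, |ω x| ≤ c) (g : Zd d → ℂ) (φ : L2 d)
    (hφ : ∀ x, φ x = g x) (m : Measure ℝ) (hm : IsSpec (-1) (fun x => ω x + 2 * d) g m) (z : ℂ)
    (hz : z.im ≠ 0) : ∫ E : ℝ, ((E : ℂ) - z)⁻¹ ∂m = ⟪φ, Rz (TT ∅ c ω) z φ⟫_ℂ := by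
  obtain ⟨-, hm⟩ := hm
  obtain ⟨u, hu, hu1, hu2⟩ := hm z hz
  let w : L2 d := ⟨u, mem_l2 hu⟩
  have hwx : ∀ x, w x = u x := fun x => rfl
  have hw : TT ∅ c ω w - z • w = φ := by
    refine lp.ext ?_
    funext x
    rw [hφ x, lp.coeFn_sub, Pi.sub_apply, TT_apply, lp.coeFn_smul, Pi.smul_apply, act_Hg c ω h,
      smul_eq_mul, hwx]
    exact hu1 x
  rw [hu2, ← rz_uniq (TT ∅ c ω) (TT_sa ∅ c ω) z hz w φ hw, lp.inner_eq_tsum]
  refine tsum_congr fun x => ?_
  rw [hφ x, hwx, RCLike.inner_apply, mul_comm]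

theorem supp_ae (c : ℝ) (hc : 0 < c) : ∀ᵐ ω ∂(iid d (unif c)), ∀ x : Zd d, |ω x| ≤ c := by
  rw [ae_all_iff]
  intro x
  have := unif_prob c hc
  have hmp : MeasurePreserving (fun ω : Zd d → ℝ => ω x) (iid d (unif c)) (unif c) :=
    measurePreserving_eval_infinitePi (fun _ : Zd d => unif c) x
  have h0 : ∀ᵐ t ∂(unif c), |t| ≤ c := by
    rw [ae_iff]
    refine measure_mono_null ?_ (unif_supp c)
    intro t ht h
    exact ht (abs_le.2 h)
  exact hmp.quasiMeasurePreserving.ae h0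

theorem bad_ae (i0 : Fin d) (c : ℝ) (hc : 0 < c) :
    ∀ᵐ ω ∂(iid d (unif c)), ∀ (Λ : Finset (Zd d)) (a b : ℚ), -c ≤ (a : ℝ) → (a : ℝ) < b →
      (b : ℝ) ≤ 4 * d + c → ω ∉ Bad ∅ Λ (a : ℝ) (b : ℝ) c := by
  rw [ae_all_iff]
  intro Λ
  rw [ae_all_iff]
  intro a
  rw [ae_all_iff]
  intro b
  by_cases h1 : -c ≤ (a : ℝ)
  · by_cases h2 : (a : ℝ) < b
    · by_cases h3 : (b : ℝ) ≤ 4 * d + c
      · have h := bad_null i0 c hc Λ (a : ℝ) (b : ℝ) h1 h2 h3
        have h' : ∀ᵐ ω ∂(iid d (unif c)), ω ∉ Bad ∅ Λ (a : ℝ) (b : ℝ) c :=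
          measure_eq_zero_iff_ae_notMem.1 h
        filter_upwards [h'] with ω hω _ _ _ using hω
      · exact Filter.Eventually.of_forall fun ω _ _ h => absurd h h3
    · exact Filter.Eventually.of_forall fun ω _ h _ => absurd h h2
  · exact Filter.Eventually.of_forall fun ω h _ _ => absurd h h1

end FIN

theorem fin (hd : 1 ≤ d) (c : ℝ) (hc : 0 < c) :
    ∀ᵐ ω ∂(iid d (unif c)), ∀ (g : Zd d → ℂ) (B : Finset (Zd d)), (∀ x, x ∉ B → g x = 0) →
      g ≠ 0 → ∀ m : Measure ℝ, Pool.Agent.H4R2.LO.IsSpec (-1) (fun x => ω x + 2 * d) g m →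
      (∀ a b : ℝ, a < b → -c < b → a < 4 * d + c → 0 < m (Set.Ioo a b)) ∧
      (∀ δ : ℝ, 0 < δ → ∃ E ∈ Set.Ioo (-c) (-c + δ), m {E} ≠ 0) := by
  obtain ⟨κ, hκ, hloc⟩ := loc hd c hc
  filter_upwards [FIN.supp_ae (d := d) c hc, FIN.bad_ae (⟨0, hd⟩ : Fin d) c hc, hloc]
    with ω h1 h2 h3
  intro g B hgB hg0 m hm
  have hg2 : Pool.Agent.H4R2.LO.L2f g := by
    refine summable_of_ne_finset_zero (s := B) fun x hx => ?_
    simp [hgB x hx]
  let φ : L2 d := ⟨g, FIN.mem_l2 hg2⟩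
  have hφx : ∀ x, φ x = g x := fun x => rfl
  have hφ0 : φ ≠ 0 := by
    intro h
    refine hg0 (funext fun x => ?_)
    rw [← hφx x, h]
    rfl
  have : IsFiniteMeasure m := hm.1
  have hd0 : (0 : ℝ) ≤ d := Nat.cast_nonneg d
  have key : ∀ a b : ℝ, a < b → -c < b → a < 4 * d + c → 0 < m (Set.Ioo a b) := by
    intro a b hab hb ha
    by_contra hn
    have h0 : m (Set.Ioo a b) = 0 := by simpa using hn
    obtain ⟨a', ha1, ha2⟩ := exists_rat_btwn
      (show max a (-c) < min b (4 * d + c) from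
        max_lt (lt_min hab ha) (lt_min hb (by linarith)))
    obtain ⟨b', hb1, hb2⟩ := exists_rat_btwn ha2
    have h0' : m (Set.Ioo (a' : ℝ) (b' : ℝ)) = 0 := by
      refine measure_mono_null (Set.Ioo_subset_Ioo ?_ ?_) h0
      · exact (le_max_left _ _).trans ha1.le
      · exact hb2.le.trans (min_le_left _ _)
    have hA : An (a' : ℝ) (b' : ℝ) (fun z => ⟪φ, Rz (TT ∅ c ω) z φ⟫_ℂ) :=
      (borel_an m _ _ h0').congr fun z hz => FIN.spec_eq c ω h1 g φ hφx m hm z hz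
    have hK : KI (a' : ℝ) (b' : ℝ) (TT ∅ c ω) φ := an_ki _ (TT_sa ∅ c ω) _ _ hb1 φ hA
    refine h2 B a' b' ?_ hb1 ?_ ⟨φ, hφ0, fun x hx => ?_, hK⟩
    · exact (le_max_right _ _).trans ha1.le
    · exact hb2.le.trans (min_le_right _ _)
    · rw [hφx]
      exact hgB x hx
  refine ⟨key, fun δ hδ => ?_⟩
  obtain ⟨N, hN, h3⟩ := h3
  have h4 := h3 g m hg2 hm
  by_contra hn
  push Not at hn
  have hpos := key (-c) (-c + min δ κ) (by have := lt_min hδ hκ; linarith)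
    (by have := lt_min hδ hκ; linarith) (by linarith)
  have hsub : Set.Ioo (-c) (-c + min δ κ) ⊆
      (Set.Iio (-c + κ) \ N) ∪ ⋃ E ∈ N ∩ Set.Ioo (-c) (-c + δ), {E} := by
    intro E hE
    by_cases hEN : E ∈ N
    · right
      simp only [Set.mem_iUnion, Set.mem_singleton_iff, exists_prop, exists_eq_right']
      exact ⟨hEN, hE.1, lt_of_lt_of_le hE.2 (by have := min_le_left δ κ; linarith)⟩
    · left
      exact ⟨lt_of_lt_of_le hE.2 (by have := min_le_right δ κ; linarith), hEN⟩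
  have hnull : m (⋃ E ∈ N ∩ Set.Ioo (-c) (-c + δ), {E}) = 0 :=
    (measure_biUnion_null_iff (hN.mono Set.inter_subset_left)).2 fun E hE => hn E hE.2
  exact absurd (measure_mono_null hsub (measure_union_null h4 hnull)) hpos.ne'

end Pool.Agent.TH369.AN
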